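import Mathlib
import Pool.Agent.Helper42.RO.A4
import Pool.Agent.Helper42.RO.K2

/-!
# Project RO2: a sharp uniform count of abc triples by radical. Definitions and basic facts.
-/

set_option autoImplicit false

open Finset
open Pool.Agent.Helper42.RO

namespace Pool.Agent.Helper44.RO2

/-- The three entries `a`, `b`, `a + b` of the pair `t = (a, b)`. -/
def ent (t : ℕ × ℕ) : Fin 3 → ℕ := ![t.1, t.2, t.1 + t.2]

/-- Type (B): `rad (abc) = m q n'`, where `q` is a prime divisor of the entry `j`, the primes of `n'`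
divide the entry `k ≠ j`, and the part of the entry `k` supported on `m` is at least `c ^ η`. -/
def TyB (η : ℝ) (k j : Fin 3) (m q : ℕ) (t : ℕ × ℕ) : Prop :=
  k ≠ j ∧ q.Prime ∧ q ∣ ent t j ∧ (∃ n' : ℕ, rad (T t) = m * q * n' ∧ n' ∣ ent t k) ∧
    (c t) ^ η ≤ (part m (ent t k) : ℝ)

@[simp] lemma ent_zero (t : ℕ × ℕ) : ent t 0 = t.1 := rfl
@[simp] lemma ent_one (t : ℕ × ℕ) : ent t 1 = t.2 := rfl
@[simp] lemma ent_two (t : ℕ × ℕ) : ent t 2 = t.1 + t.2 := rfl

/-- Two different indices have a third one. -/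
lemma exists_third (k j : Fin 3) (h : k ≠ j) : ∃ l : Fin 3, l ≠ k ∧ l ≠ j := by
  revert k j
  decide

lemma exists_other (k : Fin 3) : ∃ j : Fin 3, k ≠ j := by
  revert k
  decide

/-- Three different indices are all of `Fin 3`. -/
lemma eq_of_three {k j l i : Fin 3} (h1 : k ≠ j) (h2 : l ≠ k) (h3 : l ≠ j) :
    i = k ∨ i = j ∨ i = l := by
  revert k j l i
  decide

lemma ent_pos {t : ℕ × ℕ} (h : Cop t) (k : Fin 3) : 0 < ent t k := by
  have h1 := h.pos1
  have h2 := h.pos2
  fin_cases k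
  · exact h1
  · exact h2
  · exact Nat.add_pos_left h1 _

lemma ent_ne {t : ℕ × ℕ} (h : Cop t) (k : Fin 3) : ent t k ≠ 0 := (ent_pos h k).ne'

/-- The entries are pairwise coprime. -/
lemma ent_coprime {t : ℕ × ℕ} (h : Cop t) {k j : Fin 3} (hkj : k ≠ j) :
    (ent t k).Coprime (ent t j) := by
  have h1 := h.cop
  have h2 := h.cop1
  have h3 := h.cop2
  fin_cases k <;> fin_cases j <;> first | exact absurd rfl hkj | skip
  · exact h1
  · exact h2
  · exact h1.symm
  · exact h3
  · exact h2.symm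
  · exact h3.symm

/-- The entries are at most `c`. -/
lemma ent_le_c (t : ℕ × ℕ) (k : Fin 3) : (ent t k : ℝ) ≤ c t := by
  have : ent t k ≤ t.1 + t.2 := by
    fin_cases k
    · exact Nat.le_add_right _ _
    · exact Nat.le_add_left _ _
    · exact le_rfl
  unfold c
  exact_mod_cast this

/-- `T t` is the product of the entries (in any order). -/
lemma T_eq (t : ℕ × ℕ) {k j l : Fin 3} (h1 : k ≠ j) (h2 : l ≠ k) (h3 : l ≠ j) :
    T t = ent t k * ent t j * ent t l := by
  unfold T
  fin_cases k <;> fin_cases j <;> fin_cases l <;>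
    first
    | exact absurd rfl h1
    | exact absurd rfl h2
    | exact absurd rfl h3
    | (simp only [Fin.zero_eta, Fin.mk_one, Fin.reduceFinMk, ent_zero, ent_one, ent_two]; done)
    | (simp only [Fin.zero_eta, Fin.mk_one, Fin.reduceFinMk, ent_zero, ent_one, ent_two]; ring)

lemma ent_dvd_T (t : ℕ × ℕ) (k : Fin 3) : ent t k ∣ T t := by
  unfold T
  fin_cases k
  · exact ⟨t.2 * (t.1 + t.2), by simp [mul_assoc]⟩
  · exact ⟨t.1 * (t.1 + t.2), by simp only [Fin.mk_one, ent_one]; ring⟩
  · exact ⟨t.1 * t.2, by simp only [Fin.reduceFinMk, ent_two]; ring⟩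

/-- A prime divisor of one entry does not divide another. -/
lemma not_dvd_ent {t : ℕ × ℕ} (h : Cop t) {k j : Fin 3} (hkj : k ≠ j) {p : ℕ} (hp : p.Prime)
    (hk : p ∣ ent t k) : ¬ p ∣ ent t j := by
  intro hj
  have := Nat.Coprime.eq_one_of_dvd (ent_coprime h hkj) |> fun _ => Nat.dvd_gcd hk hj
  rw [(ent_coprime h hkj)] at this
  exact hp.one_lt.ne' (Nat.dvd_one.1 this)

/-- The valuation of `T t` at a prime divisor of the entry `k` is that of the entry. -/
lemma fact_T {t : ℕ × ℕ} (h : Cop t) {k : Fin 3} {p : ℕ} (hp : p.Prime) (hk : p ∣ ent t k) :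
    (T t).factorization p = (ent t k).factorization p := by
  obtain ⟨j, hj⟩ : ∃ j : Fin 3, k ≠ j := exists_other k
  obtain ⟨l, hl1, hl2⟩ := exists_third k j hj
  rw [T_eq t hj hl1 hl2, Nat.factorization_mul (mul_ne_zero (ent_ne h k) (ent_ne h j)) (ent_ne h l),
    Nat.factorization_mul (ent_ne h k) (ent_ne h j)]
  have e1 : (ent t j).factorization p = 0 :=
    Nat.factorization_eq_zero_of_not_dvd (not_dvd_ent h hj hp hk)
  have e2 : (ent t l).factorization p = 0 :=
    Nat.factorization_eq_zero_of_not_dvd (not_dvd_ent h (Ne.symm hl1) hp hk)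
  simp [e1, e2]

/-- A prime divides `T t` iff it divides some entry. -/
lemma prime_dvd_T {t : ℕ × ℕ} {p : ℕ} (hp : p.Prime) (h : p ∣ T t) : ∃ k, p ∣ ent t k := by
  unfold T at h
  rcases (Nat.Prime.dvd_mul hp).1 h with h | h
  · rcases (Nat.Prime.dvd_mul hp).1 h with h | h
    · exact ⟨0, h⟩
    · exact ⟨1, h⟩
  · exact ⟨2, h⟩

/-- Modulo a divisor of the entry `k`, the two other entries agree up to sign. -/
lemma ent_rel (t : ℕ × ℕ) {k j l : Fin 3} (h1 : k ≠ j) (h2 : l ≠ k) (h3 : l ≠ j) {D : ℕ}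
    (hD : D ∣ ent t k) :
    ((ent t j : ℕ) : ZMod D) = (ent t l : ℕ) ∨ ((ent t j : ℕ) : ZMod D) = -((ent t l : ℕ) : ZMod D) := by
  have h0 : ((ent t k : ℕ) : ZMod D) = 0 := (ZMod.natCast_eq_zero_iff _ _).2 hD
  fin_cases k <;> fin_cases j <;> fin_cases l <;>
    first
    | exact absurd rfl h1
    | exact absurd rfl h2
    | exact absurd rfl h3
    | skip
  · left
    simp only [Fin.zero_eta, ent_zero] at h0
    simp [h0]
  · left
    simp only [Fin.zero_eta, ent_zero] at h0
    simp [h0]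
  · left
    simp only [Fin.mk_one, ent_one] at h0
    simp [h0]
  · left
    simp only [Fin.mk_one, ent_one] at h0
    simp [h0]
  · right
    simp only [Fin.reduceFinMk, ent_two, Nat.cast_add] at h0
    simp only [Fin.zero_eta, Fin.mk_one, ent_zero, ent_one]
    linear_combination h0
  · right
    simp only [Fin.reduceFinMk, ent_two, Nat.cast_add] at h0
    simp only [Fin.zero_eta, Fin.mk_one, ent_zero, ent_one]
    linear_combination h0

lemma rad_mul {m n : ℕ} (h : m.Coprime n) : rad (m * n) = rad m * rad n := by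
  unfold rad
  rw [h.primeFactors_mul, Finset.prod_union h.disjoint_primeFactors]

/-- The radical of `T t` is the product of the radicals of the entries. -/
lemma rad_T {t : ℕ × ℕ} (h : Cop t) {k j l : Fin 3} (h1 : k ≠ j) (h2 : l ≠ k) (h3 : l ≠ j) :
    rad (T t) = rad (ent t k) * rad (ent t j) * rad (ent t l) := by
  rw [T_eq t h1 h2 h3, rad_mul, rad_mul (ent_coprime h h1)]
  exact Nat.Coprime.mul_left (ent_coprime h (Ne.symm h2)) (ent_coprime h (Ne.symm h3))

lemma rad_dvd (n : ℕ) : rad n ∣ n := Nat.prod_primeFactors_dvd n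

lemma rad_le {n : ℕ} (hn : n ≠ 0) : rad n ≤ n := Nat.le_of_dvd (Nat.pos_of_ne_zero hn) (rad_dvd n)

/-- At most one entry is smaller than `c ^ (1 / 2)` if `c ≥ 3`: for each `k` with
`ent t k < c ^ (1 / 2)` every other entry is at least `c ^ (1 / 2)`. -/
lemma allowed_of_small {t : ℕ × ℕ} (_h : Cop t) (hc : 3 ≤ t.1 + t.2) {k j : Fin 3} (hkj : k ≠ j)
    (hk : (ent t k : ℝ) < (c t) ^ (1 / 2 : ℝ)) : (c t) ^ (1 / 2 : ℝ) ≤ (ent t j : ℝ) := by
  have hc3 : (3 : ℝ) ≤ c t := by unfold c; exact_mod_cast hc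
  have hc0 : 0 ≤ c t := by linarith
  rw [← Real.sqrt_eq_rpow] at hk ⊢
  set s := Real.sqrt (c t) with hs
  have hs2 : s * s = c t := Real.mul_self_sqrt hc0
  have hs0 : 0 ≤ s := Real.sqrt_nonneg _
  have hs1 : 1.7 ≤ s := by
    rw [hs]
    apply Real.le_sqrt_of_sq_le
    norm_num
    linarith
  have hcs : s ≤ c t := by nlinarith
  have hsum : ((t.1 : ℕ) : ℝ) + (t.2 : ℕ) = c t := by unfold c; push_cast; ring
  -- the entry `c` is never small
  have h2 : s ≤ (ent t 2 : ℝ) := by
    have : (ent t 2 : ℝ) = c t := by simp [c]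
    rw [this]; exact hcs
  -- if one of `a`, `b` is small the other is large
  have key : ∀ x y : ℕ, (x : ℝ) + y = c t → (x : ℝ) < s → s ≤ (y : ℝ) := by
    intro x y hxy hx
    by_contra hy
    push Not at hy
    have h4 : c t < 4 := by nlinarith
    have h5 : s < 2 := by nlinarith
    have hx1 : x ≤ 1 := by
      have : (x : ℝ) < 2 := by linarith
      have : x < 2 := by exact_mod_cast this
      omega
    have hy1 : y ≤ 1 := by
      have : (y : ℝ) < 2 := by linarith
      have : y < 2 := by exact_mod_cast this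
      omega
    have hx' : (x : ℝ) ≤ 1 := by exact_mod_cast hx1
    have hy' : (y : ℝ) ≤ 1 := by exact_mod_cast hy1
    linarith
  fin_cases k <;> fin_cases j <;> first | exact absurd rfl hkj | skip
  · exact key t.1 t.2 hsum hk
  · exact h2
  · exact key t.2 t.1 (by linarith) hk
  · exact h2
  · exact absurd hk (not_lt.2 h2)
  · exact absurd hk (not_lt.2 h2)

end Pool.Agent.Helper44.RO2
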