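import Mathlib
import Pool.Agent.Helper44.RO2.Defs

set_option autoImplicit false

open Finset
open Pool.Agent.Helper42.RO

namespace Pool.Agent.Helper44.RO2

private lemma Cells_dvd {A : Finset ℕ} (hA : ∀ p ∈ A, p.Prime) {x : ℕ} (hx : x ≠ 0) (d : ℕ → ℕ)
    (hd : ∀ p ∈ A, d p ≤ x.factorization p) : (∏ p ∈ A, p ^ d p) ∣ x := by
  have h0 : (∏ p ∈ A, p ^ d p) ≠ 0 :=
    Finset.prod_ne_zero_iff.2 fun p hp => pow_ne_zero _ (hA p hp).ne_zero
  rw [← Nat.factorization_le_iff_dvd h0 hx]
  intro q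
  rw [Nat.factorization_prod fun p hp => pow_ne_zero _ (hA p hp).ne_zero, Finsupp.finsetSum_apply]
  have h1 : ∀ p ∈ A, (p ^ d p).factorization q = if p = q then d q else 0 := by
    intro p hp
    rw [(hA p hp).factorization_pow, Finsupp.single_apply]
    split_ifs with h
    · rw [h]
    · rfl
  rw [Finset.sum_congr rfl h1, Finset.sum_ite_eq']
  split_ifs with h
  · exact hd q h
  · exact Nat.zero_le _

private lemma Cells_primeFactors {m : ℕ} (d : ℕ → ℕ) :
    (∏ p ∈ m.primeFactors, p ^ d p).primeFactors ⊆ m.primeFactors := by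
  intro q hq
  have hqp := Nat.prime_of_mem_primeFactors hq
  have h1 := Nat.dvd_of_mem_primeFactors hq
  obtain ⟨p, hp, hpq⟩ := (Nat.Prime.prime hqp).exists_mem_finset_dvd h1
  have h2 : q ∣ p := hqp.dvd_of_dvd_pow hpq
  have h3 : q = p := (Nat.prime_dvd_prime_iff_eq hqp (Nat.prime_of_mem_primeFactors hp)).1 h2
  rw [h3]
  exact hp

private lemma Cells_log {m : ℕ} (d : ℕ → ℕ) :
    Real.log ((∏ p ∈ m.primeFactors, p ^ d p : ℕ) : ℝ) =
      ∑ p ∈ m.primeFactors, (d p : ℝ) * Real.log p := by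
  rw [Nat.cast_prod, Real.log_prod]
  · refine Finset.sum_congr rfl fun p _ => ?_
    rw [Nat.cast_pow, Real.log_pow]
  · intro p hp
    have := (Nat.prime_of_mem_primeFactors hp).pos
    positivity

/-- RO2-CELLS. Cells with a large common divisor.
PROOF. `s = m.primeFactors.card`; the case `S = ∅` is impossible by the last hypothesis, and `s = 0` is
impossible for nonempty `S` (`part m _ = 1 < X ^ η`). Let `δ = η / 2`, `L = log X > 0`,
`h q p = ⌊(E q).factorization p * log p * s / (δ L)⌋₊` for `p ∣ m`. As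
`∑ p ∣ m, v_p(E q) log p ≤ log (E q) ≤ 2 L`, `∑ p, h q p ≤ 2 s / δ`. The map `q ↦ h q` (restricted to
the primes of `m`, zero elsewhere) has at most `2 ^ (⌊2 s / δ⌋ + s) ≤ (2 ^ (⌈2 / δ⌉ + 1)) ^ s` values by
`Pool.Agent.Helper42.RO.card_le_of_sum_le` applied to the image (with `K := 2 ^ (⌈2 / δ⌉ + 1)`). So some
fiber has more than `n` elements; let `S'` be a subset of it with `n` elements (`n ≥ 1`) and
`D = ∏ p ∣ m, p ^ (S'.inf' _ fun q => (E q).factorization p)`. For `q0` in `S'`, each exponent `d_p`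
satisfies `d_p log p ≥ h q0 p * δ L / s ≥ v_p(E q0) log p - δ L / s`, so
`log D ≥ log (part m (E q0)) - δ L ≥ (η / 2) L`. For `n = 0` take `S' = ∅` and `D = part m (E q)`. -/
theorem cells (η : ℝ) (h0 : 0 < η) (h1 : η ≤ 1) : ∃ K : ℝ, 1 ≤ K ∧ ∀ (m : ℕ) (X : ℝ), 1 < X →
    ∀ (S : Finset ℕ) (E : ℕ → ℕ), (∀ q ∈ S, E q ≠ 0 ∧ X ^ η ≤ (part m (E q) : ℝ) ∧
      (E q : ℝ) ≤ X ^ 2) →
    ∀ n : ℕ, K ^ m.primeFactors.card * n < S.card →
    ∃ S' ⊆ S, S'.card = n ∧ ∃ D : ℕ, D ≠ 0 ∧ X ^ (η / 2) ≤ (D : ℝ) ∧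
      D.primeFactors ⊆ m.primeFactors ∧ ∀ q ∈ S', D ∣ E q := by
  classical
  refine ⟨((2 ^ (⌈4 / η⌉₊ + 1) : ℕ) : ℝ), ?_, ?_⟩
  · exact_mod_cast Nat.one_le_two_pow
  intro m X hX S E hS n hn
  have hL : 0 < Real.log X := Real.log_pos hX
  have hX0 : 0 < X := by linarith
  have hprime : ∀ p ∈ m.primeFactors, p.Prime := fun p hp => Nat.prime_of_mem_primeFactors hp
  have hSne : S.Nonempty := by
    rw [← Finset.card_pos]
    have h2 : (0 : ℝ) < S.card := lt_of_le_of_lt (by positivity) hn
    exact_mod_cast h2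
  obtain ⟨q0, hq0⟩ := hSne
  -- the logarithm of the part
  have hpartlog : ∀ q ∈ S, η * Real.log X ≤
      ∑ p ∈ m.primeFactors, ((E q).factorization p : ℝ) * Real.log p := by
    intro q hq
    obtain ⟨-, h2, -⟩ := hS q hq
    have h3 := Real.log_le_log (Real.rpow_pos_of_pos hX0 η) h2
    rw [Real.log_rpow hX0] at h3
    rw [← Cells_log]
    exact h3
  have hpartle : ∀ q ∈ S,
      ∑ p ∈ m.primeFactors, ((E q).factorization p : ℝ) * Real.log p ≤ 2 * Real.log X := by
    intro q hq
    obtain ⟨h2, -, h3⟩ := hS q hq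
    rw [← Cells_log]
    have h4 : (∏ p ∈ m.primeFactors, p ^ (E q).factorization p) ≤ E q :=
      Nat.le_of_dvd (Nat.pos_of_ne_zero h2) (Cells_dvd hprime h2 _ fun p _ => le_rfl)
    have h5 : ((∏ p ∈ m.primeFactors, p ^ (E q).factorization p : ℕ) : ℝ) ≤ X ^ 2 :=
      le_trans (by exact_mod_cast h4) h3
    have h6 : (0 : ℝ) < ((∏ p ∈ m.primeFactors, p ^ (E q).factorization p : ℕ) : ℝ) := by
      exact_mod_cast part_pos m (E q)
    have h7 := Real.log_le_log h6 h5
    rw [Real.log_pow] at h7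
    exact_mod_cast h7
  rcases Nat.eq_zero_or_pos n with rfl | hnpos
  · refine ⟨∅, by simp, rfl, part m (E q0), (part_pos m (E q0)).ne', ?_, ?_, by simp⟩
    · refine le_trans ?_ (hS q0 hq0).2.1
      exact Real.rpow_le_rpow_of_exponent_le hX.le (by linarith)
    · exact Cells_primeFactors _
  -- the number of primes
  set s : ℕ := m.primeFactors.card with hs
  have hspos : 0 < s := by
    rw [hs, Finset.card_pos]
    by_contra hne
    rw [Finset.not_nonempty_iff_eq_empty] at hne
    have h2 := hpartlog q0 hq0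
    rw [hne, Finset.sum_empty] at h2
    have : 0 < η * Real.log X := by positivity
    linarith
  have hs0 : (0 : ℝ) < s := by exact_mod_cast hspos
  have hw : 0 < η / 2 * Real.log X := by positivity
  set h : ℕ → ℕ → ℕ := fun q p => if p ∈ m.primeFactors then
    ⌊((E q).factorization p : ℝ) * Real.log p * s / (η / 2 * Real.log X)⌋₊ else 0 with hh
  have hle : ∀ q p, p ∈ m.primeFactors →
      (h q p : ℝ) ≤ ((E q).factorization p : ℝ) * Real.log p * s / (η / 2 * Real.log X) := by
    intro q p hp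
    have h2 : h q p =
        ⌊((E q).factorization p : ℝ) * Real.log p * s / (η / 2 * Real.log X)⌋₊ := if_pos hp
    rw [h2]
    refine Nat.floor_le ?_
    have h3 : 0 ≤ Real.log p := Real.log_natCast_nonneg p
    positivity
  have hlt : ∀ q p, p ∈ m.primeFactors →
      ((E q).factorization p : ℝ) * Real.log p * s / (η / 2 * Real.log X) < (h q p : ℝ) + 1 := by
    intro q p hp
    have h2 : h q p =
        ⌊((E q).factorization p : ℝ) * Real.log p * s / (η / 2 * Real.log X)⌋₊ := if_pos hp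
    rw [h2]
    exact Nat.lt_floor_add_one _
  -- the number of cells
  have hsum : ∀ q ∈ S, ∑ p ∈ m.primeFactors, h q p ≤ ⌈4 / η⌉₊ * s := by
    intro q hq
    have h2 : (∑ p ∈ m.primeFactors, (h q p : ℝ)) ≤
        ∑ p ∈ m.primeFactors, ((E q).factorization p : ℝ) * Real.log p * s /
          (η / 2 * Real.log X) := Finset.sum_le_sum fun p hp => hle q p hp
    have h3 : ∑ p ∈ m.primeFactors, ((E q).factorization p : ℝ) * Real.log p * s /
          (η / 2 * Real.log X) =
        (∑ p ∈ m.primeFactors, ((E q).factorization p : ℝ) * Real.log p) *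
          (s / (η / 2 * Real.log X)) := by
      rw [Finset.sum_mul]
      refine Finset.sum_congr rfl fun p _ => ?_
      ring
    have h4 : (∑ p ∈ m.primeFactors, ((E q).factorization p : ℝ) * Real.log p) *
          (s / (η / 2 * Real.log X)) ≤ 2 * Real.log X * (s / (η / 2 * Real.log X)) :=
      mul_le_mul_of_nonneg_right (hpartle q hq) (by positivity)
    have h5 : 2 * Real.log X * (s / (η / 2 * Real.log X)) = 4 / η * s := by
      field_simp
      ring
    have h6 : 4 / η * s ≤ (⌈4 / η⌉₊ : ℝ) * s :=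
      mul_le_mul_of_nonneg_right (Nat.le_ceil _) hs0.le
    have h7 : (∑ p ∈ m.primeFactors, (h q p : ℝ)) ≤ (⌈4 / η⌉₊ : ℝ) * s := by
      rw [h3] at h2
      rw [h5] at h4
      exact h2.trans (h4.trans h6)
    exact_mod_cast h7
  have hcells : (S.image h).card ≤ (2 ^ (⌈4 / η⌉₊ + 1)) ^ s := by
    have h2 := card_le_of_sum_le m.primeFactors (⌈4 / η⌉₊ * s) (S.image h)
      (fun f i => f i) (by
        intro f hf
        obtain ⟨q, hq, rfl⟩ := Finset.mem_image.1 hf
        exact hsum q hq) (by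
        intro f hf g hg hfg
        obtain ⟨q, hq, rfl⟩ := Finset.mem_image.1 hf
        obtain ⟨q', hq', rfl⟩ := Finset.mem_image.1 hg
        funext p
        by_cases hp : p ∈ m.primeFactors
        · exact hfg p hp
        · have e1 : h q p = 0 := if_neg hp
          have e2 : h q' p = 0 := if_neg hp
          rw [e1, e2])
    refine h2.trans (le_of_eq ?_)
    rw [← pow_mul, ← hs]
    congr 1
    ring
  obtain ⟨y, -, hy⟩ := Finset.exists_lt_card_fiber_of_mul_lt_card_of_maps_to (s := S)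
    (t := S.image h) (f := h) (n := n) (fun q hq => Finset.mem_image_of_mem _ hq) (by
      have h2 : ((2 ^ (⌈4 / η⌉₊ + 1)) ^ s * n : ℕ) < S.card := by
        exact_mod_cast hn
      exact lt_of_le_of_lt (Nat.mul_le_mul_right _ hcells) h2)
  obtain ⟨S', hS'1, hS'2⟩ := Finset.exists_subset_card_eq hy.le
  have hS'S : ∀ q ∈ S', q ∈ S ∧ h q = y := by
    intro q hq
    have := hS'1 hq
    rwa [Finset.mem_filter] at this
  have hne : S'.Nonempty := by
    rw [← Finset.card_pos, hS'2]
    exact hnpos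
  obtain ⟨q1, hq1⟩ := hne
  set d : ℕ → ℕ := fun p => S'.inf' ⟨q1, hq1⟩ fun q => (E q).factorization p with hd
  refine ⟨S', fun q hq => (hS'S q hq).1, hS'2, ∏ p ∈ m.primeFactors, p ^ d p, ?_, ?_,
    Cells_primeFactors _, ?_⟩
  · exact Finset.prod_ne_zero_iff.2 fun p hp => pow_ne_zero _ (hprime p hp).ne_zero
  · have hpos : (0 : ℝ) < ((∏ p ∈ m.primeFactors, p ^ d p : ℕ) : ℝ) := by
      have : 0 < ∏ p ∈ m.primeFactors, p ^ d p :=
        Finset.prod_pos fun p hp => pow_pos (hprime p hp).pos _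
      exact_mod_cast this
    rw [← Real.log_le_log_iff (Real.rpow_pos_of_pos hX0 _) hpos, Real.log_rpow hX0, Cells_log]
    have h2 : ∀ p ∈ m.primeFactors,
        ((E q1).factorization p : ℝ) * Real.log p - η / 2 * Real.log X / s ≤
          (d p : ℝ) * Real.log p := by
      intro p hp
      obtain ⟨q2, hq2, h3⟩ := Finset.exists_mem_eq_inf' (⟨q1, hq1⟩ : S'.Nonempty)
        (fun q => (E q).factorization p)
      have h4 : d p = (E q2).factorization p := h3
      have h5 := hle q2 p hp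
      have h6 := hlt q1 p hp
      have h7 : h q1 p = h q2 p := by rw [(hS'S q1 hq1).2, (hS'S q2 hq2).2]
      rw [h7] at h6
      rw [h4]
      have h8 : ((E q1).factorization p : ℝ) * Real.log p * s / (η / 2 * Real.log X) <
          ((E q2).factorization p : ℝ) * Real.log p * s / (η / 2 * Real.log X) + 1 := by
        linarith
      rw [div_add_one hw.ne', div_lt_div_iff_of_pos_right hw] at h8
      have h9 : ((E q1).factorization p : ℝ) * Real.log p <
          ((E q2).factorization p : ℝ) * Real.log p + η / 2 * Real.log X / s := by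
        rw [← sub_lt_iff_lt_add', lt_div_iff₀ hs0]
        linarith
      linarith
    have h3 := Finset.sum_le_sum h2
    rw [Finset.sum_sub_distrib, Finset.sum_const, nsmul_eq_mul, ← hs] at h3
    have h4 : (s : ℝ) * (η / 2 * Real.log X / s) = η / 2 * Real.log X := by
      field_simp
    rw [h4] at h3
    have h5 := hpartlog q1 (hS'S q1 hq1).1
    linarith
  · intro q hq
    refine Cells_dvd hprime (hS q (hS'S q hq).1).1 _ fun p _ => ?_
    exact Finset.inf'_le _ hq

end Pool.Agent.Helper44.RO2
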