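import Mathlib
import Pool.Agent.Helper44.RO2.Defs
import Pool.Agent.Helper42.RO.K1

set_option autoImplicit false

open Finset
open Pool.Agent.Helper42.RO

namespace Pool.Agent.Helper44.RO2

/-- RO2-ROOTS. The number of `n`-th roots of unity modulo a composite `D`.
PROOF. Induction on `D` by `Nat.recOnPosPrimePosCoprime` (or `induction_on_primes` style): for a prime
power use `Pool.Agent.Helper42.RO.card_roots` (`2 * gcd n φ ≤ 2 * n`); for coprime `a, b > 1` use
`(ZMod.chineseRemainder h)` and `Units.mapEquiv`, `MulEquiv.prodUnits`: the roots in a product are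
pairs of roots, so the cardinality is the product; `D = 1`: the group is trivial. -/
theorem card_roots_composite (D n : ℕ) (hD : D ≠ 0) (hn : 1 ≤ n) :
    Nat.card {ρ : (ZMod D)ˣ // ρ ^ n = 1} ≤ (2 * n) ^ D.primeFactors.card := by
  induction D using Nat.recOnPosPrimePosCoprime with
  | zero => exact absurd rfl hD
  | one =>
    rw [Nat.primeFactors_one, card_empty, pow_zero]
    have : Subsingleton {ρ : (ZMod 1)ˣ // ρ ^ n = 1} :=
      ⟨fun a b => Subtype.ext (Units.ext (Subsingleton.elim _ _))⟩
    exact Finite.card_le_one_iff_subsingleton.mpr this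
  | prime_pow p e hp he =>
    have h1 := card_roots p e n hp he hn
    rw [Nat.primeFactors_prime_pow he.ne' hp, card_singleton, pow_one]
    refine h1.trans (Nat.mul_le_mul_left 2 ?_)
    exact Nat.gcd_le_left _ hn
  | coprime a b ha hb hab iha ihb =>
    have ha0 : a ≠ 0 := by omega
    have hb0 : b ≠ 0 := by omega
    have : NeZero a := ⟨ha0⟩
    have : NeZero b := ⟨hb0⟩
    let e : (ZMod (a * b))ˣ ≃* (ZMod a)ˣ × (ZMod b)ˣ :=
      (Units.mapEquiv (ZMod.chineseRemainder hab).toMulEquiv).trans MulEquiv.prodUnits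
    let φ : {ρ : (ZMod (a * b))ˣ // ρ ^ n = 1} →
        {ρ : (ZMod a)ˣ // ρ ^ n = 1} × {ρ : (ZMod b)ˣ // ρ ^ n = 1} := fun ρ =>
      (⟨(e ρ.1).1, by
        have h1 := congrArg (fun x => (e x).1) ρ.2
        simp only [map_pow, map_one, Prod.pow_fst, Prod.fst_one] at h1
        exact h1⟩,
        ⟨(e ρ.1).2, by
        have h1 := congrArg (fun x => (e x).2) ρ.2
        simp only [map_pow, map_one, Prod.pow_snd, Prod.snd_one] at h1
        exact h1⟩)
    have hφ : Function.Injective φ := by
      intro x y hxy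
      apply Subtype.ext
      apply e.injective
      have h1 : (e x.1).1 = (e y.1).1 := congrArg (fun t => (t.1 : (ZMod a)ˣ)) hxy
      have h2 : (e x.1).2 = (e y.1).2 := congrArg (fun t => (t.2 : (ZMod b)ˣ)) hxy
      exact Prod.ext h1 h2
    refine (Nat.card_le_card_of_injective φ hφ).trans ?_
    rw [Nat.card_prod, hab.primeFactors_mul, card_union_of_disjoint hab.disjoint_primeFactors,
      pow_add]
    exact Nat.mul_le_mul (iha ha0) (ihb hb0)

end Pool.Agent.Helper44.RO2
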