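import Mathlib
import Pool.Agent.Helper44.RO2.Defs
import Pool.Agent.Helper44.RO2.Roots

set_option autoImplicit false

open Finset
open Pool.Agent.Helper42.RO

namespace Pool.Agent.Helper44.RO2

private lemma Core_fact_le {n M l : ℕ} (h : n ≤ 2 ^ M) : n.factorization l ≤ M := by
  by_cases hl : l.Prime
  · exact Nat.factorization_le_of_le_pow (h.trans (Nat.pow_le_pow_left hl.two_le M))
  · rw [Nat.factorization_eq_zero_of_not_prime n hl]
    exact Nat.zero_le _

/-- the exponent vector of a subset -/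
private def Core_v (s0 : Finset ℕ) (x F : ℕ → ℕ) (I : Finset ℕ) : s0 → ℤ :=
  fun l => ∑ q ∈ I, (((x q).factorization l : ℤ) - (F q).factorization l)

/-- RO2-CORE. The box principle modulo `D`.
PROOF. By contradiction. For `I ⊆ Q` let `v I : s0 → ℤ`, `l ↦ ∑ q ∈ I, ((x q).factorization l -
(F q).factorization l)`; as `x q, F q ≤ 2 ^ M` all valuations are `≤ M` and `v I` lies in
`[-n M, n M] ^ s0`, `n = Q.card`, a set with `(2 n M + 1) ^ s0.card` elements (compare the proof of
`Pool.Agent.Helper42.RO.box_relation` in `K2.lean`). By the pigeonhole principle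
(`Finset.exists_lt_card_fiber_of_mul_lt_card_of_maps_to`) more than `(4 i) ^ s0.card` subsets `I` have
the same `v I`. For two of them `prod_eq_of_sum_eq` and then `relation_mod` (both in
`Pool.Agent.Helper42.RO.K2`, `M := D`) give `(∏ I) ^ (2 i) = (∏ J) ^ (2 i)` in `ZMod D`. The `∏ I` are
units modulo `D`; divide by one of them: this gives an injection of the fiber into
`{ρ : (ZMod D)ˣ // ρ ^ (2 i) = 1}`, injective because `∏ I ≤ Z ^ Q.card < D` are different natural
numbers for different `I` (`primeFactors_prod_id`). But `card_roots_composite` bounds the latter by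
`(2 * (2 * i)) ^ D.primeFactors.card ≤ (4 i) ^ s0.card`. -/
theorem core (D i M Z : ℕ) (s0 Q : Finset ℕ) (x F : ℕ → ℕ) (hD : D ≠ 0)
    (hDs : D.primeFactors ⊆ s0) (hi : 1 ≤ i) (hZ : 1 ≤ Z)
    (hQ : ∀ q ∈ Q, q.Prime ∧ q ≤ Z ∧ q.Coprime D)
    (hx : ∀ q ∈ Q, x q ≠ 0 ∧ F q ≠ 0 ∧ (x q).primeFactors ⊆ s0 ∧ (F q).primeFactors ⊆ s0 ∧
      (x q).Coprime D ∧ (F q).Coprime D ∧ x q ≤ 2 ^ M ∧ F q ≤ 2 ^ M)
    (hr : ∀ q ∈ Q, ((x q * q ^ i : ℕ) : ZMod D) = (F q : ZMod D) ∨
      ((x q * q ^ i : ℕ) : ZMod D) = -(F q : ZMod D))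
    (hZn : Z ^ Q.card < D) :
    2 ^ Q.card ≤ (2 * Q.card * M + 1) ^ s0.card * (4 * i) ^ s0.card := by
  classical
  by_contra hcon
  push Not at hcon
  have hne : NeZero D := ⟨hD⟩
  set N : ℕ := Q.card * M with hN
  set Tg : Finset (s0 → ℤ) := Fintype.piFinset fun _ => Finset.Icc (-(N : ℤ)) N with hTg
  have hTcard : Tg.card = (2 * Q.card * M + 1) ^ s0.card := by
    rw [hTg, Fintype.card_piFinset]
    simp only [Int.card_Icc, Finset.prod_const, Finset.card_univ, Fintype.card_coe]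
    congr 1
    have : (N : ℤ) + 1 - -(N : ℤ) = ((2 * Q.card * M + 1 : ℕ) : ℤ) := by
      rw [hN]
      push_cast
      ring
    rw [this, Int.toNat_natCast]
  have hmaps : ∀ A ∈ Q.powerset, Core_v s0 x F A ∈ Tg := by
    intro A hA
    rw [Finset.mem_powerset] at hA
    rw [hTg, Fintype.mem_piFinset]
    intro s
    rw [Finset.mem_Icc, ← abs_le]
    have hb : ∀ q ∈ A, |((x q).factorization s : ℤ) - (F q).factorization s| ≤ (M : ℤ) := by
      intro q hq
      have h := hx q (hA hq)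
      have h1 : (x q).factorization s ≤ M := Core_fact_le h.2.2.2.2.2.2.1
      have h2 : (F q).factorization s ≤ M := Core_fact_le h.2.2.2.2.2.2.2
      rw [abs_le]
      constructor <;> omega
    calc |Core_v s0 x F A s| ≤ ∑ q ∈ A, |((x q).factorization s : ℤ) - (F q).factorization s| :=
          Finset.abs_sum_le_sum_abs _ _
      _ ≤ ∑ _q ∈ A, (M : ℤ) := Finset.sum_le_sum hb
      _ = A.card * M := by rw [Finset.sum_const, nsmul_eq_mul]
      _ ≤ Q.card * M := by
          apply mul_le_mul_of_nonneg_right _ (Int.natCast_nonneg _)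
          exact_mod_cast Finset.card_le_card hA
      _ = N := by rw [hN]; push_cast; ring
  have hlt : Tg.card * (4 * i) ^ s0.card < Q.powerset.card := by
    rw [hTcard, Finset.card_powerset]
    exact hcon
  obtain ⟨y, -, hy⟩ := Finset.exists_lt_card_fiber_of_mul_lt_card_of_maps_to hmaps hlt
  set S : Finset (Finset ℕ) := Q.powerset.filter fun A => Core_v s0 x F A = y with hS
  have hSQ : ∀ A ∈ S, A ⊆ Q := fun A hA => Finset.mem_powerset.1 (Finset.mem_filter.1 hA).1
  have hSv : ∀ A ∈ S, Core_v s0 x F A = y := fun A hA => (Finset.mem_filter.1 hA).2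
  -- congruences
  have hcong : ∀ A ∈ S, ∀ B ∈ S, (((∏ q ∈ A, q : ℕ) : ZMod D)) ^ (2 * i) =
      (((∏ q ∈ B, q : ℕ) : ZMod D)) ^ (2 * i) := by
    intro A hA B hB
    have hAB : ∀ q ∈ A ∪ B, q ∈ Q := by
      intro q hq
      rcases Finset.mem_union.1 hq with hq | hq
      · exact hSQ A hA hq
      · exact hSQ B hB hq
    refine relation_mod D i A B x F (fun q hq => ?_) (fun q hq => hr q (hAB q hq)) ?_
    · have h := hx q (hAB q hq)
      exact ⟨h.2.2.2.2.1, h.2.2.2.2.2.1⟩
    · refine prod_eq_of_sum_eq s0 A B x F (fun q hq => ?_) fun l hl => ?_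
      · have h := hx q (hAB q hq)
        exact ⟨h.1, h.2.1, h.2.2.1, h.2.2.2.1⟩
      · have h1 := congrFun ((hSv A hA).trans (hSv B hB).symm) ⟨l, hl⟩
        exact h1
  have hcop : ∀ A ∈ S, (∏ q ∈ A, q).Coprime D := fun A hA =>
    Nat.Coprime.prod_left fun q hq => (hQ q (hSQ A hA hq)).2.2
  have hltD : ∀ A ∈ S, ∏ q ∈ A, q < D := by
    intro A hA
    refine lt_of_le_of_lt ?_ hZn
    calc ∏ q ∈ A, q ≤ ∏ _q ∈ A, Z := Finset.prod_le_prod' fun q hq => (hQ q (hSQ A hA hq)).2.1
      _ = Z ^ A.card := by rw [Finset.prod_const]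
      _ ≤ Z ^ Q.card := Nat.pow_le_pow_right hZ (Finset.card_le_card (hSQ A hA))
  have hSne : S.Nonempty := by
    rw [← Finset.card_pos]
    exact lt_of_le_of_lt (Nat.zero_le _) hy
  obtain ⟨B0, hB0⟩ := hSne
  have hval : ∀ A : S, (ZMod.unitOfCoprime (∏ q ∈ (A : Finset ℕ), q) (hcop A A.2) *
      (ZMod.unitOfCoprime (∏ q ∈ B0, q) (hcop B0 hB0))⁻¹) ^ (2 * i) = 1 := by
    intro A
    rw [mul_pow, inv_pow, mul_inv_eq_one]
    apply Units.ext
    rw [Units.val_pow_eq_pow_val, Units.val_pow_eq_pow_val, ZMod.coe_unitOfCoprime,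
      ZMod.coe_unitOfCoprime]
    exact hcong A A.2 B0 hB0
  let g : S → {ρ : (ZMod D)ˣ // ρ ^ (2 * i) = 1} := fun A => ⟨_, hval A⟩
  have hg : Function.Injective g := by
    intro A B hAB
    have h1 := congrArg Subtype.val hAB
    have h2 : ZMod.unitOfCoprime (∏ q ∈ (A : Finset ℕ), q) (hcop A A.2) =
        ZMod.unitOfCoprime (∏ q ∈ (B : Finset ℕ), q) (hcop B B.2) := mul_right_cancel h1
    have h3 := congrArg Units.val h2
    rw [ZMod.coe_unitOfCoprime, ZMod.coe_unitOfCoprime] at h3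
    have h4 := (ZMod.natCast_eq_natCast_iff' _ _ _).1 h3
    rw [Nat.mod_eq_of_lt (hltD A A.2), Nat.mod_eq_of_lt (hltD B B.2)] at h4
    have h5 : ∀ C : S, (∏ q ∈ (C : Finset ℕ), q).primeFactors = C := fun C =>
      Nat.primeFactors_prod fun q hq => (hQ q (hSQ C C.2 hq)).1
    apply Subtype.ext
    rw [← h5 A, ← h5 B, h4]
  have hcard := Nat.card_le_card_of_injective g hg
  rw [Nat.card_eq_fintype_card, Fintype.card_coe] at hcard
  have h1 := card_roots_composite D (2 * i) hD (by omega)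
  have h2 : (2 * (2 * i)) ^ D.primeFactors.card ≤ (4 * i) ^ s0.card := by
    have e : 2 * (2 * i) = 4 * i := by ring
    rw [e]
    exact Nat.pow_le_pow_right (by omega) (Finset.card_le_card hDs)
  exact absurd (hcard.trans (h1.trans h2)) (not_le.2 hy)

end Pool.Agent.Helper44.RO2
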