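import Mathlib
import Pool.Agent.Helper44.RO2.Defs
import Pool.Agent.Helper44.RO2.Core
import Pool.Agent.Helper44.RO2.Cells

set_option autoImplicit false

open Finset
open Pool.Agent.Helper42.RO

namespace Pool.Agent.Helper44.RO2

/-- the primes of `x q` and of `F q` divide `m` -/
private lemma KL_supp {t : ℕ × ℕ} (ht : Cop t) {k : Fin 3} {m q n' : ℕ} (hm : m ≠ 0)
    (hq : q.Prime) (hrad : rad (T t) = m * q * n') (hn' : n' ∣ ent t k) {e : Fin 3} (hek : e ≠ k)
    {y : ℕ} (hy : y ∣ ent t e) (hqy : ¬ q ∣ y) : y.primeFactors ⊆ m.primeFactors := by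
  intro p hp
  have hpp : p.Prime := Nat.prime_of_mem_primeFactors hp
  have hpy : p ∣ y := Nat.dvd_of_mem_primeFactors hp
  have hpe : p ∣ ent t e := dvd_trans hpy hy
  have hpT : p ∈ (T t).primeFactors :=
    Nat.mem_primeFactors.mpr ⟨hpp, dvd_trans hpe (ent_dvd_T t e), ht.T_ne⟩
  have hprad : p ∣ rad (T t) := Finset.dvd_prod_of_mem (fun p => p) hpT
  rw [hrad] at hprad
  rcases (Nat.Prime.dvd_mul hpp).1 hprad with h1 | h1
  · rcases (Nat.Prime.dvd_mul hpp).1 h1 with h2 | h2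
    · exact Nat.mem_primeFactors.mpr ⟨hpp, h2, hm⟩
    · exfalso
      have h3 : p = q := (Nat.prime_dvd_prime_iff_eq hpp hq).mp h2
      rw [h3] at hpy
      exact hqy hpy
  · exfalso
    exact not_dvd_ent ht hek hpp hpe (dvd_trans h1 hn')

/-- RO2-KL. The key lemma: few primes `q` complete a given `m`.
PROOF. Suppose `Q.card > K ^ ω(m) * n` with `K` from `cells`. Choose `t q` for `q ∈ Q`; `l` the third
index (`exists_third`). `E q = ent (t q) k`, `x q = ent (t q) j / q ^ i`, `F q = ent (t q) l`. Cells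
(`X ^ η ≤ (c t) ^ η ≤ part m (E q)`, `E q ≤ c t ≤ X ^ 2`) give `S'` of cardinality `n` and `D`. Then
apply `core` with `s0 = m.primeFactors`, `Q := S'`: `q`, `x q`, `F q` are coprime to `E q`, hence to
`D`; `x q * q ^ i = ent (t q) j` (`Nat.ordProj_mul_ordCompl_eq_self` etc.), `ent_rel` gives the
congruence; the primes of `x q` and `F q` divide `rad (T t) = m * q * n'`, they are not `q` (for `x q`
because `v_q(ent j) = i`; for `F q` because the entries are coprime) and do not divide `n' ∣ ent t k`,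
so they divide `m` (a prime dividing a product divides a factor). `x q, F q ≤ c t ≤ X ^ 2 ≤ 2 ^ M`.
`Z ^ n < X ^ (η / 2) ≤ D`. The conclusion of `core` contradicts the hypothesis `< 2 ^ n`. -/
theorem kl2 (η : ℝ) (h0 : 0 < η) (h1 : η ≤ 1) : ∃ K : ℝ, 1 ≤ K ∧
    ∀ (m i M Z n : ℕ) (k j : Fin 3) (X : ℝ), m ≠ 0 → 1 ≤ i → 1 ≤ Z → 1 < X → X ^ 2 ≤ 2 ^ M →
    (2 * n * M + 1) ^ m.primeFactors.card * (4 * i) ^ m.primeFactors.card < 2 ^ n →
    (Z : ℝ) ^ n < X ^ (η / 2) →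
    ∀ Q : Finset ℕ, (∀ q ∈ Q, q ≤ Z ∧ ∃ t : ℕ × ℕ, Cop t ∧ X < c t ∧ c t ≤ X ^ 2 ∧
      TyB η k j m q t ∧ (ent t j).factorization q = i) →
    (Q.card : ℝ) ≤ K ^ m.primeFactors.card * n := by
  obtain ⟨K, hK1, hK⟩ := cells η h0 h1
  refine ⟨K, hK1, ?_⟩
  intro m i M Z n k j X hm hi hZ hX hXM hbox hZn Q hQ
  by_contra hlt
  push Not at hlt
  have hQZ : ∀ q ∈ Q, q ≤ Z := fun q hq => (hQ q hq).1
  have hQt : ∀ q ∈ Q, ∃ t : ℕ × ℕ, Cop t ∧ X < c t ∧ c t ≤ X ^ 2 ∧
      TyB η k j m q t ∧ (ent t j).factorization q = i := fun q hq => (hQ q hq).2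
  choose! t hcop hXc hcX hTy hfact using hQt
  -- the set is not empty
  have hK0 : (0 : ℝ) ≤ K ^ m.primeFactors.card * n :=
    mul_nonneg (pow_nonneg (le_trans zero_le_one hK1) _) (Nat.cast_nonneg _)
  have hQpos : 0 < Q.card := by
    have h2 : (0 : ℝ) < Q.card := lt_of_le_of_lt hK0 hlt
    exact_mod_cast h2
  obtain ⟨q0, hq0⟩ := Finset.card_pos.mp hQpos
  have hkj : k ≠ j := (hTy q0 hq0).1
  obtain ⟨l, hlk, hlj⟩ := exists_third k j hkj
  have hX0 : (0 : ℝ) < X := lt_trans zero_lt_one hX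
  obtain ⟨S', hS'Q, hS'n, D, hD0, hDX, hDm, hDE⟩ := hK m X hX Q (fun q => ent (t q) k) (by
    intro q hq
    refine ⟨ent_ne (hcop q hq) k, ?_, ?_⟩
    · refine le_trans ?_ (hTy q hq).2.2.2.2
      exact Real.rpow_le_rpow hX0.le (hXc q hq).le h0.le
    · exact le_trans (ent_le_c (t q) k) (hcX q hq)) n hlt
  have hle2M : ∀ q ∈ Q, ∀ e : Fin 3, ent (t q) e ≤ 2 ^ M := by
    intro q hq e
    have h2 : (ent (t q) e : ℝ) ≤ 2 ^ M :=
      le_trans (le_trans (ent_le_c (t q) e) (hcX q hq)) hXM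
    exact_mod_cast h2
  have hcopD : ∀ q ∈ S', ∀ e : Fin 3, e ≠ k → ∀ y : ℕ, y ∣ ent (t q) e → y.Coprime D := by
    intro q hq e hek y hy
    exact Nat.Coprime.coprime_dvd_left hy
      (Nat.Coprime.coprime_dvd_right (hDE q hq) (ent_coprime (hcop q (hS'Q hq)) hek))
  have hmul : ∀ q ∈ Q, ent (t q) j / q ^ i * q ^ i = ent (t q) j := by
    intro q hq
    apply Nat.div_mul_cancel
    rw [← hfact q hq]
    exact Nat.ordProj_dvd _ _
  have hxdvd : ∀ q ∈ Q, ent (t q) j / q ^ i ∣ ent (t q) j := by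
    intro q hq
    exact ⟨q ^ i, (hmul q hq).symm⟩
  have hconc := core D i M Z m.primeFactors S' (fun q => ent (t q) j / q ^ i)
    (fun q => ent (t q) l) hD0 hDm hi hZ (by
      intro q hq
      have hqQ := hS'Q hq
      refine ⟨(hTy q hqQ).2.1, hQZ q hqQ, ?_⟩
      exact hcopD q hq j (Ne.symm hkj) q (hTy q hqQ).2.2.1) (by
      intro q hq
      have hqQ := hS'Q hq
      have hqp : q.Prime := (hTy q hqQ).2.1
      have hqj : q ∣ ent (t q) j := (hTy q hqQ).2.2.1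
      obtain ⟨n', hrad, hn'⟩ := (hTy q hqQ).2.2.2.1
      refine ⟨?_, ent_ne (hcop q hqQ) l, ?_, ?_, ?_, ?_, ?_, ?_⟩
      · intro h2
        have h3 := hmul q hqQ
        have h4 : ent (t q) j / q ^ i = 0 := h2
        rw [h4, zero_mul] at h3
        exact ent_ne (hcop q hqQ) j h3.symm
      · refine KL_supp (hcop q hqQ) hm hqp hrad hn' (Ne.symm hkj) (hxdvd q hqQ) ?_
        have h2 := Nat.not_dvd_ordCompl hqp (ent_ne (hcop q hqQ) j)
        rw [hfact q hqQ] at h2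
        exact h2
      · refine KL_supp (hcop q hqQ) hm hqp hrad hn' hlk (dvd_refl _) ?_
        exact not_dvd_ent (hcop q hqQ) (Ne.symm hlj) hqp hqj
      · exact hcopD q hq j (Ne.symm hkj) _ (hxdvd q hqQ)
      · exact hcopD q hq l hlk _ (dvd_refl _)
      · exact le_trans (Nat.div_le_self _ _) (hle2M q hqQ j)
      · exact hle2M q hqQ l) (by
      intro q hq
      have hqQ := hS'Q hq
      have h2 := ent_rel (t q) hkj hlk hlj (hDE q hq)
      have h3 : ((ent (t q) j / q ^ i * q ^ i : ℕ) : ZMod D) = ((ent (t q) j : ℕ) : ZMod D) := by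
        rw [hmul q hqQ]
      rw [h3]
      exact h2) (by
      rw [hS'n]
      have h2 : ((Z ^ n : ℕ) : ℝ) < (D : ℝ) := by
        push_cast
        exact lt_of_lt_of_le hZn hDX
      exact_mod_cast h2)
  rw [hS'n] at hconc
  exact absurd hbox (not_lt.mpr hconc)

end Pool.Agent.Helper44.RO2
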