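import Mathlib
import Pool.Agent.Helper44.RO2.Defs

set_option autoImplicit false

open Finset
open Pool.Agent.Helper42.RO

namespace Pool.Agent.Helper44.RO2

/-- The number of primes `q` in one application of the box principle. -/
def nn (s M : ℕ) : ℕ := 8 * (s + 1) * (Nat.log 2 M + 1)

/-- The exponent `M` with `X ^ 2 ≤ 2 ^ M`. -/
noncomputable def MM (X : ℝ) : ℕ := ⌈2 * Real.log X / Real.log 2⌉₊

/-- RO2-NUM1. PROOF. `nn s M ≤ 8 M * M ≤ M ^ 3`, so `2 * nn s M * M + 1 ≤ M ^ 5`; `4 * i ≤ M ^ 2`; the left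
hand side is at most `M ^ (7 s)`. And `M < 2 ^ (Nat.log 2 M + 1)` (`Nat.lt_pow_succ_log_self`), so
`2 ^ nn s M ≥ M ^ (8 (s + 1)) > M ^ (7 s)`. -/
theorem nn_pow (s M i : ℕ) (hM : 9 ≤ M) (hs : s + 1 ≤ M) (hi : i ≤ M) :
    (2 * nn s M * M + 1) ^ s * (4 * i) ^ s < 2 ^ nn s M := by
  have hM0 : M ≠ 0 := by omega
  have hlog : Nat.log 2 M + 1 ≤ M := Nat.log_lt_self 2 hM0
  have h1 : nn s M ≤ 8 * M * M := by
    unfold nn
    exact Nat.mul_le_mul (Nat.mul_le_mul_left 8 hs) hlog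
  have h2 : 2 * nn s M * M + 1 ≤ M ^ 5 := by
    have h3 : 2 * nn s M * M ≤ 2 * (8 * M * M) * M :=
      Nat.mul_le_mul_right M (Nat.mul_le_mul_left 2 h1)
    have h4 : 81 ≤ M * M := Nat.mul_le_mul hM hM
    have h5 : 1 ≤ M ^ 3 := Nat.one_le_pow _ _ (by omega)
    calc 2 * nn s M * M + 1 ≤ 2 * (8 * M * M) * M + M ^ 3 := Nat.add_le_add h3 h5
      _ = 17 * M ^ 3 := by ring
      _ ≤ (M * M) * M ^ 3 := Nat.mul_le_mul_right _ (by omega)
      _ = M ^ 5 := by ring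
  have h6 : 4 * i ≤ M ^ 2 := by
    calc 4 * i ≤ M * M := Nat.mul_le_mul (by omega) hi
      _ = M ^ 2 := by ring
  have h7 : (2 * nn s M * M + 1) ^ s * (4 * i) ^ s ≤ M ^ (8 * (s + 1)) := by
    calc (2 * nn s M * M + 1) ^ s * (4 * i) ^ s ≤ (M ^ 5) ^ s * (M ^ 2) ^ s :=
          Nat.mul_le_mul (Nat.pow_le_pow_left h2 s) (Nat.pow_le_pow_left h6 s)
      _ = M ^ (7 * s) := by
          rw [← pow_mul, ← pow_mul, ← pow_add]
          congr 1
          ring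
      _ ≤ M ^ (8 * (s + 1)) := Nat.pow_le_pow_right (by omega) (by omega)
  have h8 : M < 2 ^ (Nat.log 2 M + 1) := Nat.lt_pow_succ_log_self (by norm_num) M
  have h9 : M ^ (8 * (s + 1)) < (2 ^ (Nat.log 2 M + 1)) ^ (8 * (s + 1)) :=
    Nat.pow_lt_pow_left h8 (by omega)
  have h10 : (2 ^ (Nat.log 2 M + 1)) ^ (8 * (s + 1)) = 2 ^ nn s M := by
    rw [← pow_mul]
    congr 1
    unfold nn
    ring
  rw [← h10]
  exact lt_of_le_of_lt h7 h9

end Pool.Agent.Helper44.RO2
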