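import Mathlib
import Pool.Agent.Helper44.RO2.Defs

set_option autoImplicit false

open Finset
open Pool.Agent.Helper42.RO

namespace Pool.Agent.Helper44.RO2

private lemma omega_fact (S : Finset ℕ) : (∀ x ∈ S, 1 ≤ x) → S.card.factorial ≤ ∏ p ∈ S, p := by
  induction S using Finset.induction_on_max with
  | empty => intro _; simp
  | insert a s hs ih =>
    intro h
    have ha : a ∉ s := fun ha => lt_irrefl a (hs a ha)
    rw [Finset.card_insert_of_notMem ha, Finset.prod_insert ha, Nat.factorial_succ]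
    have h1 : s.card + 1 ≤ a := by
      have hsub : s ⊆ Finset.Ico 1 a := by
        intro x hx
        rw [Finset.mem_Ico]
        exact ⟨h x (Finset.mem_insert_of_mem hx), hs x hx⟩
      have h2 := Finset.card_le_card hsub
      rw [Nat.card_Ico] at h2
      have h3 := h a (Finset.mem_insert_self _ _)
      omega
    exact Nat.mul_le_mul h1 (ih fun x hx => h x (Finset.mem_insert_of_mem hx))

/-- RO2-NUM2. `ω(m) ≤ 4 z / log z`, `z = log Z`, for `m ≤ Z` and `Z` large.
PROOF. `ω(m)! ≤ ∏ p ∣ m, p ≤ m ≤ Z` (the `k`-th prime divisor is at least `k`; or `Nat.factorial` and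
`Finset.prod_range_id`-type comparison, e.g. by induction over the finset removing the maximum, which
is at least the cardinality). With `(s / e) ^ s ≤ s!`
(`Nat.factorial_lt`.. or `exp_one_lt`: `s ^ s / s! ≤ exp s`): `s (log s - 1) ≤ z`. If `s > 4 z / log z`
then `log s - 1 ≥ log z - log log z + log 4 - 1 ≥ (1 / 2) log z` for `z` large, so `s (log s - 1) ≥ 2 z`,
contradiction. -/
theorem omega_le : ∃ Z0 : ℕ, ∀ Z m : ℕ, Z0 ≤ Z → m ≠ 0 → m ≤ Z →
    (m.primeFactors.card : ℝ) * Real.log (Real.log Z) ≤ 4 * Real.log Z := by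
  refine ⟨3, fun Z m hZ hm hmZ => ?_⟩
  set s := m.primeFactors.card with hs
  have hZ3 : (3 : ℝ) ≤ Z := by exact_mod_cast hZ
  have hZ0 : (0 : ℝ) < Z := by linarith
  set z := Real.log Z with hz
  have hz1 : 1 < z := by
    rw [hz, Real.lt_log_iff_exp_lt hZ0]
    exact lt_of_lt_of_le Real.exp_one_lt_three hZ3
  have hz0 : 0 < z := by linarith
  set w := Real.log z with hw
  have hw0 : 0 < w := Real.log_pos hz1
  by_contra hcon
  push Not at hcon
  have hs0 : (0 : ℝ) < s := by
    rcases Nat.eq_zero_or_pos s with h | h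
    · rw [h] at hcon
      simp only [Nat.cast_zero, zero_mul] at hcon
      linarith
    · exact_mod_cast h
  -- the factorial
  have h1 : (s.factorial : ℝ) ≤ Z := by
    have h2 : s.factorial ≤ ∏ p ∈ m.primeFactors, p :=
      omega_fact _ fun x hx => (Nat.prime_of_mem_primeFactors hx).one_lt.le
    have h3 : ∏ p ∈ m.primeFactors, p ≤ m :=
      Nat.le_of_dvd (Nat.pos_of_ne_zero hm) (Nat.prod_primeFactors_dvd m)
    exact_mod_cast h2.trans (h3.trans hmZ)
  have h2 : (s : ℝ) ^ s / s.factorial ≤ Real.exp s :=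
    Real.pow_div_factorial_le_exp (s : ℝ) hs0.le s
  have hf0 : (0 : ℝ) < s.factorial := by exact_mod_cast s.factorial_pos
  have h3 : (s : ℝ) ^ s ≤ Real.exp s * Z := by
    rw [div_le_iff₀ hf0] at h2
    exact h2.trans (mul_le_mul_of_nonneg_left h1 (Real.exp_pos _).le)
  have h4 : (s : ℝ) * Real.log s ≤ s + z := by
    have h5 := Real.log_le_log (pow_pos hs0 s) h3
    rw [Real.log_pow, Real.log_mul (Real.exp_pos _).ne' hZ0.ne', Real.log_exp] at h5
    exact h5
  -- lower bound for `log s`
  have h5 : 4 * z / w < s := by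
    rw [div_lt_iff₀ hw0]
    exact hcon
  have h6 : Real.log 4 + w - Real.log w ≤ Real.log s := by
    have h7 := Real.log_le_log (by positivity) h5.le
    rw [Real.log_div (by positivity) hw0.ne', Real.log_mul (by norm_num) hz0.ne'] at h7
    exact h7
  have h7 : Real.log w ≤ w / 2 := by
    have h8 := Real.log_le_sub_one_of_pos (x := w / 2) (by positivity)
    rw [Real.log_div hw0.ne' (by norm_num)] at h8
    have h9 : Real.log 2 ≤ 1 := by
      have := Real.log_two_lt_d9
      linarith
    linarith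
  have h8 : (1 : ℝ) ≤ Real.log 4 := by
    rw [Real.le_log_iff_exp_le (by norm_num)]
    have := Real.exp_one_lt_three
    linarith
  have h9 : w / 2 ≤ Real.log s - 1 := by linarith
  have h10 : (s : ℝ) * (w / 2) ≤ s * (Real.log s - 1) := mul_le_mul_of_nonneg_left h9 hs0.le
  have h11 : (s : ℝ) * (Real.log s - 1) ≤ z := by
    rw [mul_sub, mul_one]
    linarith
  nlinarith

end Pool.Agent.Helper44.RO2
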