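import Mathlib
import Pool.Agent.Helper44.RO2.Defs
import Pool.Agent.Helper44.RO2.Num1
import Pool.Agent.Helper44.RO2.Omega

set_option autoImplicit false

open Finset
open Pool.Agent.Helper42.RO

namespace Pool.Agent.Helper44.RO2

/-- RO2-NUM3. The condition `Z ^ n < X ^ (η / 2)`.
PROOF. `z = log Z`, `y = log X ≥ C1 z ^ 2`, `M = MM X ≤ 4 y`, `s ≤ 4 z / log z` by `omega_le`, so for `z`
large `s + 1 ≤ 5 z / log z`. `nn s M * z ≤ 8 (5 z / log z) (log (4 y) / log 2 + 1) z`, and
`y ↦ y / (log (4 y) / log 2 + 1)` is increasing (or: write `y = C1 z ^ 2 u`, `u ≥ 1`,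
`log (4 y) = log (4 C1) + 2 log z + log u` and `log u ≤ u`), so it suffices that
`16 * 5 * (z ^ 2 / log z) * (2 (log (4 C1) + 2 log z) + 3) < η C1 z ^ 2`, true for `C1` large depending on
`η` and `log z ≥ 1`. -/
theorem nn_lt (η : ℝ) (h0 : 0 < η) (h1 : η ≤ 1) : ∃ (C1 : ℝ) (Z0 : ℕ), 1 ≤ C1 ∧
    ∀ (Z m : ℕ) (X : ℝ), Z0 ≤ Z → m ≠ 0 → m ≤ Z → 1 < X → C1 * (Real.log Z) ^ 2 ≤ Real.log X →
    9 ≤ MM X ∧ m.primeFactors.card + 1 ≤ MM X ∧ X ^ 2 ≤ 2 ^ MM X ∧
    (Z : ℝ) ^ nn m.primeFactors.card (MM X) < X ^ (η / 2) := by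
  obtain ⟨Z1, hZ1⟩ := omega_le
  have hη : 2000 ≤ 2000 / η := by
    rw [le_div_iff₀ h0]
    linarith
  have hC : (4000000 : ℝ) ≤ (2000 / η) ^ 2 := by nlinarith
  refine ⟨(2000 / η) ^ 2, max Z1 32, by linarith, ?_⟩
  intro Z m X hZ hm hmZ hX hy
  have hZ32 : 32 ≤ Z := le_trans (le_max_right _ _) hZ
  have hs := hZ1 Z m (le_trans (le_max_left _ _) hZ) hm hmZ
  have hl2a : (0.6931471803 : ℝ) < Real.log 2 := Real.log_two_gt_d9
  have hl2b : Real.log 2 < 0.6931471808 := Real.log_two_lt_d9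
  have hZR : (32 : ℝ) ≤ Z := by exact_mod_cast hZ32
  have hZ0 : (0 : ℝ) < Z := by linarith
  have hz3 : 3 ≤ Real.log Z := by
    have h2 : Real.log 32 ≤ Real.log Z := Real.log_le_log (by norm_num) hZR
    have h3 : Real.log 32 = 5 * Real.log 2 := by
      rw [show (32 : ℝ) = 2 ^ 5 by norm_num, Real.log_pow]
      norm_num
    linarith
  set z := Real.log Z with hz
  have hz0 : 0 < z := by linarith
  have hw1 : 1 ≤ Real.log z := by
    rw [Real.le_log_iff_exp_le hz0]
    exact (Real.exp_one_lt_three.le).trans hz3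
  have hwz : Real.log z ≤ z := Real.log_le_self hz0.le
  set w := Real.log z with hw
  have hw0 : 0 < w := by linarith
  set s := m.primeFactors.card with hsdef
  have hs0 : (0 : ℝ) ≤ s := Nat.cast_nonneg _
  have hX0 : 0 < X := by linarith
  set y := Real.log X with hydef
  have hy1 : 4000000 * z ^ 2 ≤ y :=
    (mul_le_mul_of_nonneg_right hC (by positivity)).trans hy
  have hzz : 9 ≤ z ^ 2 := by nlinarith
  have hzz2 : 3 * z ≤ z ^ 2 := by nlinarith
  have hy0 : 36000000 ≤ y := by linarith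
  set M := MM X with hM
  have hM1 : 2 * y / Real.log 2 ≤ M := Nat.le_ceil _
  have hl20 : 0 < Real.log 2 := by linarith
  have hM2 : (M : ℝ) < 2 * y / Real.log 2 + 1 := Nat.ceil_lt_add_one (by positivity)
  have hM1' : 2 * y ≤ M * Real.log 2 := (div_le_iff₀ hl20).1 hM1
  have hM0 : (0 : ℝ) ≤ M := Nat.cast_nonneg _
  have hM3 : 2 * y ≤ M := by nlinarith
  have hM5 : 2 * y / Real.log 2 ≤ 3 * y := by
    rw [div_le_iff₀ hl20]
    nlinarith
  have hM4 : (M : ℝ) ≤ 4 * y := by linarith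
  have hMpos : (0 : ℝ) < M := by linarith
  have hMne : M ≠ 0 := by
    intro h
    rw [h] at hMpos
    simp at hMpos
  refine ⟨?_, ?_, ?_, ?_⟩
  · have : (9 : ℝ) ≤ M := by linarith
    exact_mod_cast this
  · have h2 : (s : ℝ) ≤ 4 * z := by nlinarith
    have h3 : (s : ℝ) + 1 ≤ M := by linarith
    exact_mod_cast h3
  · rw [← Real.log_le_log_iff (by positivity) (by positivity), Real.log_pow, Real.log_pow]
    push_cast
    exact hM1'
  · rw [← Real.log_lt_log_iff (by positivity) (Real.rpow_pos_of_pos hX0 _), Real.log_pow,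
      Real.log_rpow hX0]
    have hL : (Nat.log 2 M : ℝ) * Real.log 2 ≤ Real.log (4 * y) := by
      have h2 : ((2 : ℝ)) ^ Nat.log 2 M ≤ M := by exact_mod_cast Nat.pow_log_le_self 2 hMne
      have h3 := Real.log_le_log (by positivity) (h2.trans hM4)
      rwa [Real.log_pow] at h3
    have hl1 : 1 ≤ Real.log (4 * y) := by
      rw [Real.le_log_iff_exp_le (by linarith)]
      have := Real.exp_one_lt_three
      linarith
    set l := Real.log (4 * y) with hl
    have hL0 : (0 : ℝ) ≤ Nat.log 2 M := Nat.cast_nonneg _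
    have hL2 : (Nat.log 2 M : ℝ) + 1 ≤ 3 * l := by nlinarith
    have hs2 : ((s : ℝ) + 1) * w ≤ 5 * z := by nlinarith
    -- the ratio
    obtain ⟨r, hr0, hr1, hr2⟩ : ∃ r : ℝ, 0 < r ∧ 2000 / η ≤ r ∧ y = r ^ 2 * z ^ 2 := by
      refine ⟨Real.sqrt (y / z ^ 2), Real.sqrt_pos.2 (by positivity), ?_, ?_⟩
      · apply Real.le_sqrt_of_sq_le
        rw [le_div_iff₀ (by positivity)]
        exact hy
      · rw [Real.sq_sqrt (by positivity)]
        field_simp
    have hηr : 2000 ≤ η * r := by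
      have := (div_le_iff₀ h0).1 hr1
      linarith
    have hlr : l ≤ (4 + 2 * r) * w := by
      have h2 : l = Real.log 4 + 2 * Real.log r + 2 * w := by
        rw [hl, hr2, Real.log_mul (by norm_num) (by positivity), Real.log_mul (by positivity)
          (by positivity), Real.log_pow, Real.log_pow]
        push_cast
        ring
      have h3 : Real.log 4 ≤ 2 := by
        rw [show (4 : ℝ) = 2 ^ 2 by norm_num, Real.log_pow]
        push_cast
        linarith
      have h4 : Real.log r ≤ r := Real.log_le_self hr0.le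
      have h5 : 2 + 2 * r ≤ (2 + 2 * r) * w := by
        have : 0 ≤ (2 + 2 * r) * (w - 1) := mul_nonneg (by positivity) (by linarith)
        linarith
      calc l = Real.log 4 + 2 * Real.log r + 2 * w := h2
        _ ≤ (2 + 2 * r) + 2 * w := by linarith
        _ ≤ (2 + 2 * r) * w + 2 * w := by linarith
        _ = (4 + 2 * r) * w := by ring
    have hnn : (nn s M : ℝ) = 8 * ((s : ℝ) + 1) * ((Nat.log 2 M : ℝ) + 1) := by
      unfold nn
      push_cast
      ring
    have h6 : (nn s M : ℝ) * z * w ≤ 120 * z ^ 2 * ((4 + 2 * r) * w) := by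
      calc (nn s M : ℝ) * z * w = 8 * z * ((((s : ℝ) + 1) * w) * ((Nat.log 2 M : ℝ) + 1)) := by
            rw [hnn]; ring
        _ ≤ 8 * z * ((5 * z) * (3 * l)) := by
            apply mul_le_mul_of_nonneg_left _ (by positivity)
            exact mul_le_mul hs2 hL2 (by positivity) (by positivity)
        _ = 120 * z ^ 2 * l := by ring
        _ ≤ 120 * z ^ 2 * ((4 + 2 * r) * w) := mul_le_mul_of_nonneg_left hlr (by positivity)
    have h7 : (nn s M : ℝ) * z ≤ 120 * z ^ 2 * (4 + 2 * r) := by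
      have h8 : (nn s M : ℝ) * z * w ≤ 120 * z ^ 2 * (4 + 2 * r) * w := by
        calc (nn s M : ℝ) * z * w ≤ 120 * z ^ 2 * ((4 + 2 * r) * w) := h6
          _ = _ := by ring
      exact le_of_mul_le_mul_right h8 hw0
    have h9 : 120 * (4 + 2 * r) < η / 2 * r ^ 2 := by
      have h10 : 2000 ≤ r := hη.trans hr1
      have h11 : 1000 * r ≤ η / 2 * r ^ 2 := by
        have : 2000 * r ≤ (η * r) * r := mul_le_mul_of_nonneg_right hηr hr0.le
        nlinarith
      linarith
    calc (nn s M : ℝ) * z ≤ 120 * z ^ 2 * (4 + 2 * r) := h7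
      _ = z ^ 2 * (120 * (4 + 2 * r)) := by ring
      _ < z ^ 2 * (η / 2 * r ^ 2) := mul_lt_mul_of_pos_left h9 (by positivity)
      _ = η / 2 * y := by rw [hr2]; ring

end Pool.Agent.Helper44.RO2
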