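import Mathlib
import Pool.Agent.Helper44.RO2.Defs
import Pool.Agent.Helper44.RO2.KL
import Pool.Agent.Helper44.RO2.Num1
import Pool.Agent.Helper44.RO2.NumLt

set_option autoImplicit false

open Finset
open Pool.Agent.Helper42.RO

namespace Pool.Agent.Helper44.RO2

private theorem CQ1_scale {y : ℝ} (hy : 1 < y) : ∃ r : ℕ, (2 : ℝ) ^ r < y ∧ y ≤ 2 ^ (r + 1) := by
  classical
  have hex : ∃ r : ℕ, y ≤ (2 : ℝ) ^ (r + 1) := by
    obtain ⟨n, hn⟩ := pow_unbounded_of_one_lt y (one_lt_two : (1 : ℝ) < 2)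
    exact ⟨n, hn.le.trans (pow_le_pow_right₀ one_le_two (Nat.le_succ n))⟩
  refine ⟨Nat.find hex, ?_, Nat.find_spec hex⟩
  rcases Nat.eq_zero_or_pos (Nat.find hex) with h | h
  · rw [h, pow_zero]
    exact hy
  · obtain ⟨n, hn⟩ : ∃ n, Nat.find hex = n + 1 := ⟨Nat.find hex - 1, by omega⟩
    rw [hn]
    have := Nat.find_min hex (m := n) (by omega)
    exact not_le.1 this

private theorem CQ1_nn_mono {s M M' : ℕ} (h : M ≤ M') : nn s M ≤ nn s M' := by
  unfold nn
  exact Nat.mul_le_mul_left _ (Nat.succ_le_succ (Nat.log_mono_right h))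

private theorem CQ1_MM_mono {X X' : ℝ} (h0 : 0 < X) (h : X ≤ X') : MM X ≤ MM X' := by
  unfold MM
  apply Nat.ceil_le_ceil
  have h1 : Real.log X ≤ Real.log X' := Real.log_le_log h0 h
  have h2 : 0 < Real.log 2 := Real.log_pos one_lt_two
  gcongr

/-- RO2-CQ1. The number of primes `q` completing `m`, first form.
PROOF. Let `X r = exp (2 ^ r)`. For `q ∈ Q` take `k, j, t`; `r` with `2 ^ r < log (c t) ≤ 2 ^ (r + 1)`
(exists as `log (c t) ≥ C1 z ^ 2 ≥ 2`: for `Z0 ≥ 5`; `r ≤ R := ⌊log Λ / log 2⌋₊`) and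
`i = (ent t j).factorization q`, `1 ≤ i`, `2 ^ i ≤ q ^ i ≤ c t ≤ exp Λ`, so `i ≤ ⌊Λ / log 2⌋₊`, and
`2 ^ i ≤ c t ≤ (X r) ^ 2 ≤ 2 ^ MM (X r)` gives `i ≤ MM (X r)`. So `Q` is the union over
`(k, j, r, i)` of subsets to which `kl2` applies with `M = MM (X r)`, `n = nn ω(m) M` (the hypotheses
are `nn_pow` and `nn_lt`; with `C1 := 2 * C1'` for the `C1'` of `nn_lt`, since
`log (X r) = 2 ^ r ≥ log (c t) / 2`). Finally `MM (X r) ≤ MM (exp Λ)` for the `r` which occur
(`2 ^ r < log (c t) ≤ Λ`) and `nn` is monotone in `M`. -/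
theorem countQ_raw (η : ℝ) (h0 : 0 < η) (h1 : η ≤ 1) : ∃ (K C1 : ℝ) (Z0 : ℕ), 1 ≤ K ∧ 1 ≤ C1 ∧
    ∀ (Z m : ℕ) (Λ : ℝ), Z0 ≤ Z → m ≠ 0 → m ≤ Z → 1 ≤ Λ → ∀ Q : Finset ℕ,
    (∀ q ∈ Q, q ≤ Z ∧ ∃ (k j : Fin 3) (t : ℕ × ℕ), Cop t ∧
      C1 * (Real.log Z) ^ 2 ≤ Real.log (c t) ∧ Real.log (c t) ≤ Λ ∧ TyB η k j m q t) →
    (Q.card : ℝ) ≤ 9 * ((⌊Real.log Λ / Real.log 2⌋₊ : ℝ) + 1) * (⌊Λ / Real.log 2⌋₊ : ℝ) *
      (K ^ m.primeFactors.card * nn m.primeFactors.card (MM (Real.exp Λ))) := by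
  classical
  obtain ⟨K, hK, hkl⟩ := kl2 η h0 h1
  obtain ⟨C1', Z0', hC1', hnn⟩ := nn_lt η h0 h1
  refine ⟨K, 2 * C1', max Z0' 5, hK, by linarith, ?_⟩
  intro Z m Λ hZ hm hmZ hΛ Q hQ
  have hlog2 : 0 < Real.log 2 := Real.log_pos one_lt_two
  have hZ0' : Z0' ≤ Z := (le_max_left _ _).trans hZ
  have hZ5 : 5 ≤ Z := (le_max_right _ _).trans hZ
  have hz1 : 1 ≤ Real.log Z := by
    rw [Real.le_log_iff_exp_le (by exact_mod_cast (by omega : 0 < Z))]
    have h2 : Real.exp 1 < 5 := by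
      have := Real.exp_one_lt_d9
      linarith
    have h3 : (5 : ℝ) ≤ Z := by exact_mod_cast hZ5
    linarith
  set s := m.primeFactors.card with hs
  set R := ⌊Real.log Λ / Real.log 2⌋₊ with hR
  set I := ⌊Λ / Real.log 2⌋₊ with hI
  set B : ℝ := K ^ s * nn s (MM (Real.exp Λ)) with hB
  have hB0 : 0 ≤ B := by
    rw [hB]
    have : 0 ≤ K := by linarith
    positivity
  let X : ℕ → ℝ := fun r => Real.exp (2 ^ r)
  have hXlog : ∀ r, Real.log (X r) = 2 ^ r := fun r => Real.log_exp _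
  have hX1 : ∀ r, 1 < X r := fun r => Real.one_lt_exp_iff.2 (by positivity)
  let P : (Fin 3 × Fin 3) × (ℕ × ℕ) → ℕ → Prop := fun x q =>
    ∃ t : ℕ × ℕ, Cop t ∧ X x.2.1 < c t ∧ c t ≤ (X x.2.1) ^ 2 ∧
      TyB η x.1.1 x.1.2 m q t ∧ (ent t x.1.2).factorization q = x.2.2 ∧
      2 * C1' * (Real.log Z) ^ 2 ≤ Real.log (c t) ∧ Real.log (c t) ≤ Λ
  let U : Finset ((Fin 3 × Fin 3) × (ℕ × ℕ)) :=
    (Finset.univ ×ˢ Finset.univ) ×ˢ (Finset.range (R + 1) ×ˢ Finset.Icc 1 I)
  have hUcard : (U.card : ℝ) = 9 * ((R : ℝ) + 1) * I := by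
    have h2 : U.card = 3 * 3 * ((R + 1) * I) := by
      simp only [U, Finset.card_product, Finset.card_univ, Fintype.card_fin, Finset.card_range,
        Nat.card_Icc]
      rfl
    rw [h2]
    push_cast
    ring
  have hcpos : ∀ t : ℕ × ℕ, Cop t → 0 < c t := by
    intro t ht
    have h2 := ent_pos ht 0
    have h3 := ent_le_c t 0
    have h4 : (0 : ℝ) < (ent t 0 : ℝ) := by exact_mod_cast h2
    linarith
  -- covering
  have hcov : Q ⊆ U.biUnion fun x => Q.filter (P x) := by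
    intro q hq
    obtain ⟨hqZ, k, j, t, hcop, hlow, hupp, hty⟩ := hQ q hq
    have hc := hcpos t hcop
    have hy1 : 1 < Real.log (c t) := by
      have h2 : (1 : ℝ) ≤ (Real.log Z) ^ 2 := one_le_pow₀ hz1
      nlinarith
    obtain ⟨r, hr1, hr2⟩ := CQ1_scale hy1
    have hqp : q.Prime := hty.2.1
    have hqd : q ∣ ent t j := hty.2.2.1
    have hXc : X r < c t := by
      rwa [← Real.lt_log_iff_exp_lt hc]
    have hcX : c t ≤ (X r) ^ 2 := by
      have h2 : (X r) ^ 2 = Real.exp (2 ^ (r + 1)) := by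
        simp only [X]
        rw [← Real.exp_nat_mul]
        congr 1
        push_cast
        ring
      rw [h2, ← Real.log_le_iff_le_exp hc]
      exact hr2
    have hi1 : 1 ≤ (ent t j).factorization q :=
      hqp.factorization_pos_of_dvd (ent_ne hcop j) hqd
    have hpow : (2 : ℝ) ^ ((ent t j).factorization q) ≤ c t := by
      have h2 : q ^ ((ent t j).factorization q) ≤ ent t j :=
        Nat.le_of_dvd (ent_pos hcop j) (Nat.ordProj_dvd _ _)
      have h3 : 2 ^ ((ent t j).factorization q) ≤ q ^ ((ent t j).factorization q) :=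
        Nat.pow_le_pow_left hqp.two_le _
      have h4 : ((2 ^ ((ent t j).factorization q) : ℕ) : ℝ) ≤ ent t j := by
        exact_mod_cast h3.trans h2
      push_cast at h4
      exact h4.trans (ent_le_c t j)
    have hiI : (ent t j).factorization q ≤ I := by
      rw [hI]
      apply Nat.le_floor
      rw [le_div_iff₀ hlog2]
      have h2 := Real.log_le_log (by positivity) hpow
      rw [Real.log_pow] at h2
      linarith
    have hrR : r ≤ R := by
      rw [hR]
      apply Nat.le_floor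
      rw [le_div_iff₀ hlog2]
      have h2 : (2 : ℝ) ^ r ≤ Λ := (hr1.trans_le hupp).le
      have h3 := Real.log_le_log (by positivity) h2
      rw [Real.log_pow] at h3
      exact h3
    rw [Finset.mem_biUnion]
    refine ⟨((k, j), (r, (ent t j).factorization q)), ?_, ?_⟩
    · simp only [U, Finset.mem_product, Finset.mem_univ, true_and, Finset.mem_range,
        Finset.mem_Icc]
      exact ⟨by omega, hi1, hiI⟩
    · rw [Finset.mem_filter]
      exact ⟨hq, t, hcop, hXc, hcX, hty, rfl, hlow, hupp⟩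
  -- one cell
  have hcell : ∀ x ∈ U, ((Q.filter (P x)).card : ℝ) ≤ B := by
    rintro ⟨⟨k, j⟩, ⟨r, i⟩⟩ hx
    rcases (Q.filter (P ((k, j), (r, i)))).eq_empty_or_nonempty with he | ⟨q0, hq0⟩
    · rw [he]
      simpa using hB0
    · obtain ⟨-, t0, hcop0, hXc0, hcX0, hty0, hf0, hlow0, hupp0⟩ := Finset.mem_filter.1 hq0
      simp only at hXc0 hcX0 hty0 hf0
      simp only [U, Finset.mem_product, Finset.mem_univ, true_and, Finset.mem_range,
        Finset.mem_Icc] at hx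
      have hc0 := hcpos t0 hcop0
      have hlogc : Real.log (c t0) ≤ 2 * 2 ^ r := by
        have h2 := Real.log_le_log hc0 hcX0
        rw [Real.log_pow, hXlog] at h2
        exact_mod_cast h2
      have hlogc' : (2 : ℝ) ^ r < Real.log (c t0) := by
        have h2 := Real.log_lt_log (by linarith [hX1 r]) hXc0
        rwa [hXlog] at h2
      have hC : C1' * (Real.log Z) ^ 2 ≤ Real.log (X r) := by
        rw [hXlog]
        linarith
      obtain ⟨hM9, hsM, hX2, hZn⟩ := hnn Z m (X r) hZ0' hm hmZ (hX1 r) hC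
      have hiM : i ≤ MM (X r) := by
        have hqp : q0.Prime := hty0.2.1
        have hpow : (2 : ℝ) ^ i ≤ c t0 := by
          have h2 : q0 ^ ((ent t0 j).factorization q0) ≤ ent t0 j :=
            Nat.le_of_dvd (ent_pos hcop0 j) (Nat.ordProj_dvd _ _)
          rw [hf0] at h2
          have h3 : 2 ^ i ≤ q0 ^ i := Nat.pow_le_pow_left hqp.two_le _
          have h4 : ((2 ^ i : ℕ) : ℝ) ≤ ent t0 j := by
            exact_mod_cast h3.trans h2
          push_cast at h4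
          exact h4.trans (ent_le_c t0 j)
        have h5 : (2 : ℝ) ^ i ≤ 2 ^ MM (X r) := hpow.trans (hcX0.trans hX2)
        exact (pow_le_pow_iff_right₀ one_lt_two).1 h5
      have hkey := hkl m i (MM (X r)) Z (nn s (MM (X r))) k j (X r) hm hx.2.1 (by omega) (hX1 r)
        hX2 (nn_pow s (MM (X r)) i hM9 hsM hiM) hZn (Q.filter (P ((k, j), (r, i)))) (by
          intro q hq
          obtain ⟨hqQ, t, hcop, hXc, hcX, hty, hf, -, -⟩ := Finset.mem_filter.1 hq
          exact ⟨(hQ q hqQ).1, t, hcop, hXc, hcX, hty, hf⟩)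
      refine hkey.trans ?_
      rw [hB]
      have hle : nn s (MM (X r)) ≤ nn s (MM (Real.exp Λ)) := by
        apply CQ1_nn_mono
        apply CQ1_MM_mono (by linarith [hX1 r])
        exact Real.exp_le_exp.2 (hlogc'.trans_le hupp0).le
      have hle' : (nn s (MM (X r)) : ℝ) ≤ nn s (MM (Real.exp Λ)) := by exact_mod_cast hle
      have hKs : 0 ≤ K ^ s := by
        have : 0 ≤ K := by linarith
        positivity
      exact mul_le_mul_of_nonneg_left hle' hKs
  have hfin : Q.card ≤ ∑ x ∈ U, (Q.filter (P x)).card :=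
    (Finset.card_le_card hcov).trans Finset.card_biUnion_le
  calc (Q.card : ℝ) ≤ ∑ x ∈ U, ((Q.filter (P x)).card : ℝ) := by exact_mod_cast hfin
    _ ≤ ∑ _x ∈ U, B := Finset.sum_le_sum hcell
    _ = U.card * B := by rw [Finset.sum_const, nsmul_eq_mul]
    _ = 9 * ((R : ℝ) + 1) * I * B := by rw [hUcard]

end Pool.Agent.Helper44.RO2
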