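import Mathlib
import Pool.Agent.Helper44.RO2.Defs
import Pool.Agent.Helper44.RO2.CQ1

set_option autoImplicit false

open Finset
open Pool.Agent.Helper42.RO

namespace Pool.Agent.Helper44.RO2

/-- `log x / log 2 + 1 ≤ C x ^ e` for `x ≥ 1`. -/
private theorem CQ2_log (e : ℝ) (he : 0 < e) : ∃ C : ℝ, 1 ≤ C ∧ ∀ x : ℝ, 1 ≤ x →
    Real.log x / Real.log 2 + 1 ≤ C * x ^ e := by
  have hlog2 : 0 < Real.log 2 := Real.log_pos one_lt_two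
  refine ⟨1 / e / Real.log 2 + 1, ?_, fun x hx => ?_⟩
  · have : 0 ≤ 1 / e / Real.log 2 := by positivity
    linarith
  · have hx0 : 0 ≤ x := by linarith
    have h1 : Real.log x ≤ x ^ e / e := Real.log_le_rpow_div hx0 he
    have h2 : (1 : ℝ) ≤ x ^ e := Real.one_le_rpow hx he.le
    calc Real.log x / Real.log 2 + 1 ≤ (x ^ e / e) / Real.log 2 + x ^ e := by gcongr
      _ = (1 / e / Real.log 2 + 1) * x ^ e := by ring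

/-- RO2-CQ2. PROOF. From `countQ_raw`: `⌊log Λ / log 2⌋ + 1 ≤ C Λ ^ (ε / 2)`, `⌊Λ / log 2⌋ ≤ 2 Λ`,
`MM (exp Λ) ≤ 4 Λ + 1`, `Nat.log 2 M + 1 ≤ C Λ ^ (ε / 2)`, `s + 1 ≤ 2 ^ s`, `(2 K) ^ ω(m) ≤ C m ^ ε` by
`Pool.Agent.Helper42.RO.pow_omega`. -/
theorem countQ (η ε : ℝ) (h0 : 0 < η) (h1 : η ≤ 1) (hε : 0 < ε) : ∃ (C C1 : ℝ) (Z0 : ℕ),
    1 ≤ C ∧ 1 ≤ C1 ∧ ∀ (Z m : ℕ) (Λ : ℝ), Z0 ≤ Z → m ≠ 0 → m ≤ Z → 1 ≤ Λ → ∀ Q : Finset ℕ,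
    (∀ q ∈ Q, q ≤ Z ∧ ∃ (k j : Fin 3) (t : ℕ × ℕ), Cop t ∧
      C1 * (Real.log Z) ^ 2 ≤ Real.log (c t) ∧ Real.log (c t) ≤ Λ ∧ TyB η k j m q t) →
    (Q.card : ℝ) ≤ C * (Z : ℝ) ^ ε * Λ ^ (1 + ε) := by
  obtain ⟨K, C1, Z0, hK, hC1, hraw⟩ := countQ_raw η h0 h1
  obtain ⟨Ca, hCa1, hCa⟩ := CQ2_log (ε / 2) (by positivity)
  obtain ⟨Cp, hCp1, hCp⟩ := pow_omega (2 * K) ε (by linarith) hε
  have hlog2 : 0 < Real.log 2 := Real.log_pos one_lt_two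
  have hlog2' : (1 / 2 : ℝ) < Real.log 2 := by
    have := Real.log_two_gt_d9
    linarith
  have h5 : (1 : ℝ) ≤ 5 ^ (ε / 2) := Real.one_le_rpow (by norm_num) (by positivity)
  set Cb : ℝ := Ca * 5 ^ (ε / 2) with hCb
  have hCb1 : 1 ≤ Cb := by nlinarith
  refine ⟨144 * Ca * Cb * Cp, C1, Z0, ?_, hC1, ?_⟩
  · have h2 : 1 ≤ Ca * Cb := by nlinarith
    have h3 : 1 ≤ Ca * Cb * Cp := by nlinarith
    nlinarith
  intro Z m Λ hZ hm hmZ hΛ Q hQ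
  have hΛ0 : 0 < Λ := by linarith
  have hL : 0 ≤ Real.log Λ := Real.log_nonneg hΛ
  refine (hraw Z m Λ hZ hm hmZ hΛ Q hQ).trans ?_
  set s := m.primeFactors.card with hs
  set M := MM (Real.exp Λ) with hM
  have e1 : ((⌊Real.log Λ / Real.log 2⌋₊ : ℝ) + 1) ≤ Ca * Λ ^ (ε / 2) := by
    have h2 : (⌊Real.log Λ / Real.log 2⌋₊ : ℝ) ≤ Real.log Λ / Real.log 2 :=
      Nat.floor_le (by positivity)
    linarith [hCa Λ hΛ]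
  have e2 : (⌊Λ / Real.log 2⌋₊ : ℝ) ≤ 2 * Λ := by
    have h2 : (⌊Λ / Real.log 2⌋₊ : ℝ) ≤ Λ / Real.log 2 := Nat.floor_le (by positivity)
    refine h2.trans ?_
    rw [div_le_iff₀ hlog2]
    nlinarith
  have hM5 : (M : ℝ) ≤ 5 * Λ := by
    have h2 : (M : ℝ) < 2 * Λ / Real.log 2 + 1 := by
      rw [hM]
      unfold MM
      rw [Real.log_exp]
      exact Nat.ceil_lt_add_one (by positivity)
    have h3 : 2 * Λ / Real.log 2 ≤ 4 * Λ := by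
      rw [div_le_iff₀ hlog2]
      nlinarith
    linarith
  have hM1 : 1 ≤ M := by
    rw [hM]
    unfold MM
    rw [Real.log_exp]
    exact Nat.one_le_ceil_iff.2 (by positivity)
  have hM1' : (1 : ℝ) ≤ M := by exact_mod_cast hM1
  have e3 : ((Nat.log 2 M : ℕ) : ℝ) + 1 ≤ Cb * Λ ^ (ε / 2) := by
    have h2 : ((Nat.log 2 M : ℕ) : ℝ) ≤ Real.log M / Real.log 2 := by
      rw [le_div_iff₀ hlog2, ← Real.log_pow]
      apply Real.log_le_log (by positivity)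
      exact_mod_cast Nat.pow_log_le_self 2 (by omega)
    have h3 : Real.log M ≤ Real.log (5 * Λ) := Real.log_le_log (by linarith) hM5
    have h4 : Real.log M / Real.log 2 ≤ Real.log (5 * Λ) / Real.log 2 := by gcongr
    have h6 := hCa (5 * Λ) (by linarith)
    have h7 : (5 * Λ) ^ (ε / 2) = 5 ^ (ε / 2) * Λ ^ (ε / 2) :=
      Real.mul_rpow (by norm_num) hΛ0.le
    rw [h7] at h6
    calc ((Nat.log 2 M : ℕ) : ℝ) + 1 ≤ Real.log (5 * Λ) / Real.log 2 + 1 := by linarith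
      _ ≤ Ca * (5 ^ (ε / 2) * Λ ^ (ε / 2)) := h6
      _ = Cb * Λ ^ (ε / 2) := by rw [hCb]; ring
  have hs2 : ((s : ℝ) + 1) ≤ 2 ^ s := by
    have : s + 1 ≤ 2 ^ s := Nat.lt_two_pow_self
    exact_mod_cast this
  have hK0 : 0 ≤ K := by linarith
  have e4 : K ^ s * ((s : ℝ) + 1) ≤ Cp * (Z : ℝ) ^ ε := by
    calc K ^ s * ((s : ℝ) + 1) ≤ K ^ s * 2 ^ s := by gcongr
      _ = (2 * K) ^ s := by rw [mul_pow, mul_comm]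
      _ ≤ Cp * (m : ℝ) ^ ε := hCp m hm
      _ ≤ Cp * (Z : ℝ) ^ ε := by gcongr
  have e5 : K ^ s * (nn s M : ℝ) ≤ 8 * (Cp * (Z : ℝ) ^ ε) * (Cb * Λ ^ (ε / 2)) := by
    have h2 : (nn s M : ℝ) = 8 * ((s : ℝ) + 1) * (((Nat.log 2 M : ℕ) : ℝ) + 1) := by
      unfold nn
      push_cast
      ring
    rw [h2]
    calc K ^ s * (8 * ((s : ℝ) + 1) * (((Nat.log 2 M : ℕ) : ℝ) + 1))
        = 8 * (K ^ s * ((s : ℝ) + 1)) * (((Nat.log 2 M : ℕ) : ℝ) + 1) := by ring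
      _ ≤ 8 * (Cp * (Z : ℝ) ^ ε) * (Cb * Λ ^ (ε / 2)) := by gcongr
  have hrp : Λ ^ (ε / 2) * Λ ^ (ε / 2) * Λ = Λ ^ (1 + ε) := by
    rw [← Real.rpow_add hΛ0]
    nth_rewrite 2 [← Real.rpow_one Λ]
    rw [← Real.rpow_add hΛ0]
    congr 1
    ring
  have hCp0 : 0 ≤ Cp := by linarith
  calc 9 * ((⌊Real.log Λ / Real.log 2⌋₊ : ℝ) + 1) * (⌊Λ / Real.log 2⌋₊ : ℝ) * (K ^ s * nn s M)
      ≤ 9 * (Ca * Λ ^ (ε / 2)) * (2 * Λ) *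
        (8 * (Cp * (Z : ℝ) ^ ε) * (Cb * Λ ^ (ε / 2))) := by gcongr
    _ = 144 * Ca * Cb * Cp * (Z : ℝ) ^ ε * (Λ ^ (ε / 2) * Λ ^ (ε / 2) * Λ) := by ring
    _ = 144 * Ca * Cb * Cp * (Z : ℝ) ^ ε * Λ ^ (1 + ε) := by rw [hrp]

end Pool.Agent.Helper44.RO2
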