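import Mathlib
import Pool.Agent.Helper44.RO2.Defs
import Pool.Agent.Helper44.RO2.CQ2

set_option autoImplicit false

open Finset
open Pool.Agent.Helper42.RO

namespace Pool.Agent.Helper44.RO2

/-- The part of `x` supported on `m` is at most `x`. -/
private lemma CB_part_le {m x : ℕ} (hx : x ≠ 0) : part m x ≤ x := by
  apply Nat.le_of_dvd (Nat.pos_of_ne_zero hx)
  have hpart : part m x = ∏ p ∈ m.primeFactors ∩ x.primeFactors, p ^ x.factorization p := by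
    unfold part
    symm
    apply Finset.prod_subset Finset.inter_subset_left
    intro p hp hnp
    have hnx : p ∉ x.primeFactors := fun h => hnp (Finset.mem_inter.2 ⟨hp, h⟩)
    have : x.factorization p = 0 := by
      apply Nat.factorization_eq_zero_of_not_dvd
      intro hd
      exact hnx (Nat.mem_primeFactors.2 ⟨Nat.prime_of_mem_primeFactors hp, hd, hx⟩)
    rw [this, pow_zero]
  rw [hpart]
  have h2 : (∏ p ∈ x.primeFactors, p ^ x.factorization p) = x :=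
    Nat.prod_factorization_pow_eq_self hx
  conv_rhs => rw [← h2]
  exact Finset.prod_dvd_prod_of_subset _ _ _ Finset.inter_subset_right

/-- RO2-CB1. The part of `abc` supported on `m q` is large for a pair of type (B).
PROOF. `rad (T t) = (m * q) * n'`, `part_mul_part` gives `part (m q) (T t) * part n' (T t) = T t`. As
`n' ∣ ent t k`, `part n' (T t) = part n' (ent t k)` (`fact_T`), and `part m (ent t k) * part n' (ent t k)
≤ ent t k ≤ c t` because `m`, `n'` are coprime (`rad (T t)` is squarefree), so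
`part n' (T t) ≤ (c t) ^ (1 - η)`. `T t = t.1 * t.2 * c t`. -/
theorem part_of_tyB {t : ℕ × ℕ} (ht : Cop t) {η : ℝ} {k j : Fin 3} {m q : ℕ}
    (h : TyB η k j m q t) : ((t.1 : ℝ) * t.2) * (c t) ^ η ≤ (part (m * q) (T t) : ℝ) := by
  obtain ⟨_, _, _, ⟨n', hrad, hn'⟩, hc⟩ := h
  have hmul := part_mul_part ht.T_ne hrad
  have hsq := rad_squarefree (T t)
  rw [hrad] at hsq
  have hcop1 : (m * q).Coprime n' := Nat.coprime_of_squarefree_mul hsq
  have hcop : m.Coprime n' := Nat.Coprime.coprime_mul_right hcop1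
  have hpn : part n' (T t) = part n' (ent t k) := by
    unfold part
    apply Finset.prod_congr rfl
    intro p hp
    have hpp := Nat.prime_of_mem_primeFactors hp
    rw [fact_T ht hpp ((Nat.dvd_of_mem_primeFactors hp).trans hn')]
  have hle : part m (ent t k) * part n' (ent t k) ≤ ent t k := by
    rw [← part_mul hcop]
    exact CB_part_le (ent_ne ht k)
  have hleR : (part m (ent t k) : ℝ) * (part n' (ent t k) : ℝ) ≤ c t := by
    refine le_trans ?_ (ent_le_c t k)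
    exact_mod_cast hle
  have hn0 : (0 : ℝ) < (part n' (ent t k) : ℝ) := by exact_mod_cast part_pos n' (ent t k)
  have h1 : (c t) ^ η * (part n' (ent t k) : ℝ) ≤ c t :=
    (mul_le_mul_of_nonneg_right hc hn0.le).trans hleR
  have hT : ((t.1 : ℝ) * t.2) * c t = (part (m * q) (T t) : ℝ) * (part n' (ent t k) : ℝ) := by
    rw [hpn] at hmul
    have : ((T t : ℕ) : ℝ) = (part (m * q) (T t) : ℝ) * (part n' (ent t k) : ℝ) := by
      exact_mod_cast hmul.symm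
    rw [← this]
    unfold T c
    push_cast
    ring
  have hab : (0 : ℝ) ≤ (t.1 : ℝ) * t.2 := by positivity
  apply le_of_mul_le_mul_right _ hn0
  rw [← hT, mul_assoc]
  exact mul_le_mul_of_nonneg_left h1 hab

/-- RO2-CB2. The number of pairs of type (B) with given `m`.
PROOF. Let `Q` be the set of the `q` which occur; `q ≤ rad (T t) ≤ Z`; `countQ` (with `ε / 2`) bounds
its cardinality. For each `q` the pairs `t ∈ S` with `TyB η k j m q t` for some `k, j` satisfy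
`part_of_tyB`, so by `gp_total η` with `m * q` they number at most
`K ^ (ω(m q) + 1) * (1 + log Λ) ≤ K ^ 2 * K ^ ω(m) * (1 + log Λ)`; `pow_omega` for `K ^ ω(m)`,
`1 + log Λ ≤ C Λ ^ (ε / 2)`. Use `Finset.card_le_mul_card_image` or `card_biUnion_le`. -/
theorem countB (η ε : ℝ) (h0 : 0 < η) (h1 : η ≤ 1) (hε : 0 < ε) : ∃ (C C1 : ℝ) (Z0 : ℕ),
    1 ≤ C ∧ 1 ≤ C1 ∧ ∀ (Z m : ℕ) (Λ : ℝ), Z0 ≤ Z → m ≠ 0 → m ≤ Z → 1 ≤ Λ →
    ∀ S : Finset (ℕ × ℕ), (∀ t ∈ S, Cop t ∧ rad (T t) ≤ Z ∧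
      C1 * (Real.log Z) ^ 2 ≤ Real.log (c t) ∧ Real.log (c t) ≤ Λ ∧
      ∃ (k j : Fin 3) (q : ℕ), TyB η k j m q t) →
    (S.card : ℝ) ≤ C * (Z : ℝ) ^ ε * Λ ^ (1 + ε) := by
  classical
  have hε2 : 0 < ε / 2 := by positivity
  obtain ⟨C2, C1, Z0, hC2, hC1, hQ⟩ := countQ η (ε / 2) h0 h1 hε2
  obtain ⟨K, hK, hgp⟩ := gp_total η h0 h1
  obtain ⟨C3, hC3, hpo⟩ := pow_omega K (ε / 2) hK hε2
  have hC4 : 1 ≤ 1 + 1 / (ε / 2) := by
    have : 0 < 1 / (ε / 2) := by positivity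
    linarith
  refine ⟨C2 * (K ^ 2 * C3 * (1 + 1 / (ε / 2))), C1, Z0, ?_, hC1, ?_⟩
  · have hK2 : 1 ≤ K ^ 2 := one_le_pow₀ hK
    have h3 : 1 ≤ K ^ 2 * C3 := one_le_mul_of_one_le_of_one_le hK2 hC3
    exact one_le_mul_of_one_le_of_one_le hC2 (one_le_mul_of_one_le_of_one_le h3 hC4)
  intro Z m Λ hZ hm0 hmZ hΛ S hS
  have hm1 : 1 ≤ m := Nat.one_le_iff_ne_zero.2 hm0
  have hmR : (1 : ℝ) ≤ m := by exact_mod_cast hm1
  have hmZR : (m : ℝ) ≤ Z := by exact_mod_cast hmZ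
  have hZ1 : (1 : ℝ) ≤ Z := hmR.trans hmZR
  have hZ0 : (0 : ℝ) < Z := by linarith
  have hΛ0 : (0 : ℝ) < Λ := by linarith
  have hlog : 0 ≤ Real.log Λ := Real.log_nonneg hΛ
  have hex : ∀ t : ℕ × ℕ, ∃ q : ℕ, t ∈ S → ∃ k j : Fin 3, TyB η k j m q t := by
    intro t
    by_cases ht : t ∈ S
    · obtain ⟨_, _, _, _, k, j, q, hB⟩ := hS t ht
      exact ⟨q, fun _ => ⟨k, j, hB⟩⟩
    · exact ⟨0, fun h => absurd h ht⟩
  choose f hf using hex
  set Q : Finset ℕ := S.image f with hQdef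
  -- the primes `q`
  have hcardQ : (Q.card : ℝ) ≤ C2 * (Z : ℝ) ^ (ε / 2) * Λ ^ (1 + ε / 2) := by
    apply hQ Z m Λ hZ hm0 hmZ hΛ Q
    intro q hq
    obtain ⟨t, ht, rfl⟩ := Finset.mem_image.1 hq
    obtain ⟨k, j, hB⟩ := hf t ht
    obtain ⟨hcop, hrad, hlo, hhi, _⟩ := hS t ht
    refine ⟨?_, k, j, t, hcop, hlo, hhi, hB⟩
    obtain ⟨_, _, _, ⟨n', hr, _⟩, _⟩ := hB
    have hd : f t ∣ rad (T t) := ⟨m * n', by rw [hr]; ring⟩
    exact (Nat.le_of_dvd (rad_pos _) hd).trans hrad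
  -- the fibres
  have hfib : ∀ q ∈ Q, ((S.filter (fun t => f t = q)).card : ℝ) ≤
      K ^ 2 * C3 * (1 + 1 / (ε / 2)) * (Z : ℝ) ^ (ε / 2) * Λ ^ (ε / 2) := by
    intro q hq
    have hqp : q.Prime := by
      obtain ⟨t, ht, rfl⟩ := Finset.mem_image.1 hq
      obtain ⟨k, j, hB⟩ := hf t ht
      exact hB.2.1
    have h2 := hgp (m * q) Λ hΛ (S.filter (fun t => f t = q)) (by
      intro t ht
      rw [Finset.mem_filter] at ht
      obtain ⟨ht, rfl⟩ := ht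
      obtain ⟨k, j, hB⟩ := hf t ht
      obtain ⟨hcop, hrad, hlo, hhi, _⟩ := hS t ht
      exact ⟨hcop, hhi, part_of_tyB hcop hB⟩)
    have hom : (m * q).primeFactors.card + 1 ≤ m.primeFactors.card + 2 := by
      rw [Nat.primeFactors_mul hm0 hqp.ne_zero, hqp.primeFactors]
      have := Finset.card_union_le m.primeFactors {q}
      rw [Finset.card_singleton] at this
      omega
    have h3 : K ^ ((m * q).primeFactors.card + 1) ≤ K ^ 2 * (C3 * (Z : ℝ) ^ (ε / 2)) := by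
      calc K ^ ((m * q).primeFactors.card + 1) ≤ K ^ (m.primeFactors.card + 2) :=
            pow_le_pow_right₀ hK hom
        _ = K ^ 2 * K ^ m.primeFactors.card := by rw [pow_add, mul_comm]
        _ ≤ K ^ 2 * (C3 * (Z : ℝ) ^ (ε / 2)) := by
            apply mul_le_mul_of_nonneg_left _ (by positivity)
            refine (hpo m hm0).trans ?_
            apply mul_le_mul_of_nonneg_left _ (by linarith)
            exact Real.rpow_le_rpow (by linarith) hmZR hε2.le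
    have h4 : 1 + Real.log Λ ≤ (1 + 1 / (ε / 2)) * Λ ^ (ε / 2) := by
      have h5 := Real.log_le_rpow_div hΛ0.le hε2
      have h6 : 1 ≤ Λ ^ (ε / 2) := Real.one_le_rpow hΛ hε2.le
      calc 1 + Real.log Λ ≤ Λ ^ (ε / 2) + Λ ^ (ε / 2) / (ε / 2) := add_le_add h6 h5
        _ = (1 + 1 / (ε / 2)) * Λ ^ (ε / 2) := by ring
    calc ((S.filter (fun t => f t = q)).card : ℝ)
        ≤ K ^ ((m * q).primeFactors.card + 1) * (1 + Real.log Λ) := h2
      _ ≤ (K ^ 2 * (C3 * (Z : ℝ) ^ (ε / 2))) * ((1 + 1 / (ε / 2)) * Λ ^ (ε / 2)) := by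
          apply mul_le_mul h3 h4 (by linarith)
          have : (0 : ℝ) ≤ C3 := by linarith
          positivity
      _ = K ^ 2 * C3 * (1 + 1 / (ε / 2)) * (Z : ℝ) ^ (ε / 2) * Λ ^ (ε / 2) := by ring
  -- conclusion
  have hcardS : (S.card : ℝ) = ∑ q ∈ Q, ((S.filter (fun t => f t = q)).card : ℝ) := by
    have := Finset.card_eq_sum_card_image f S
    exact_mod_cast this
  have hB0 : 0 ≤ K ^ 2 * C3 * (1 + 1 / (ε / 2)) * (Z : ℝ) ^ (ε / 2) * Λ ^ (ε / 2) := by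
    have : (0 : ℝ) ≤ C3 := by linarith
    have h7 : (0 : ℝ) ≤ 1 + 1 / (ε / 2) := by linarith
    positivity
  have hZe : (Z : ℝ) ^ (ε / 2) * (Z : ℝ) ^ (ε / 2) = (Z : ℝ) ^ ε := by
    rw [← Real.rpow_add hZ0]
    congr 1
    ring
  have hΛe : Λ ^ (1 + ε / 2) * Λ ^ (ε / 2) = Λ ^ (1 + ε) := by
    rw [← Real.rpow_add hΛ0]
    congr 1
    ring
  calc (S.card : ℝ) = ∑ q ∈ Q, ((S.filter (fun t => f t = q)).card : ℝ) := hcardS
    _ ≤ ∑ _q ∈ Q, K ^ 2 * C3 * (1 + 1 / (ε / 2)) * (Z : ℝ) ^ (ε / 2) * Λ ^ (ε / 2) :=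
        Finset.sum_le_sum hfib
    _ = Q.card * (K ^ 2 * C3 * (1 + 1 / (ε / 2)) * (Z : ℝ) ^ (ε / 2) * Λ ^ (ε / 2)) := by
        rw [Finset.sum_const, nsmul_eq_mul]
    _ ≤ (C2 * (Z : ℝ) ^ (ε / 2) * Λ ^ (1 + ε / 2)) *
          (K ^ 2 * C3 * (1 + 1 / (ε / 2)) * (Z : ℝ) ^ (ε / 2) * Λ ^ (ε / 2)) :=
        mul_le_mul_of_nonneg_right hcardQ hB0
    _ = C2 * (K ^ 2 * C3 * (1 + 1 / (ε / 2))) * ((Z : ℝ) ^ (ε / 2) * (Z : ℝ) ^ (ε / 2)) *
          (Λ ^ (1 + ε / 2) * Λ ^ (ε / 2)) := by ring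
    _ = C2 * (K ^ 2 * C3 * (1 + 1 / (ε / 2))) * (Z : ℝ) ^ ε * Λ ^ (1 + ε) := by
        rw [hZe, hΛe]

end Pool.Agent.Helper44.RO2
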