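import Mathlib
import Pool.Agent.Helper44.RO2.Defs
import Pool.Agent.Helper44.RO2.CB

set_option autoImplicit false

open Finset
open Pool.Agent.Helper42.RO

namespace Pool.Agent.Helper44.RO2

lemma one_add_log_le_rpow (ε : ℝ) (hε : 0 < ε) : ∃ C : ℝ, 1 ≤ C ∧ ∀ Λ : ℝ, 1 ≤ Λ →
    1 + Real.log Λ ≤ C * Λ ^ ε := by
  refine ⟨1 + 1 / ε, le_add_of_nonneg_right (by positivity), fun Λ hΛ => ?_⟩
  have h1 : Real.log Λ ≤ Λ ^ ε / ε := Real.log_le_rpow_div (by linarith) hε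
  have h2 : (1 : ℝ) ≤ Λ ^ ε := Real.one_le_rpow hΛ hε.le
  have : (1 + 1 / ε) * Λ ^ ε = Λ ^ ε + Λ ^ ε / ε := by ring
  rw [this]
  linarith

/-- the number of natural numbers in `[1, M0]` -/
lemma card_Ms (Z : ℕ) (M0 : ℝ) (hM0 : 0 ≤ M0) :
    ((((Icc 1 Z).filter (fun m : ℕ => (m : ℝ) ≤ M0)).card : ℕ) : ℝ) ≤ M0 := by
  have h3 : (Icc 1 Z).filter (fun m : ℕ => (m : ℝ) ≤ M0) ⊆ Icc 1 ⌊M0⌋₊ := by
    intro m hm
    rw [mem_filter, mem_Icc] at hm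
    exact mem_Icc.2 ⟨hm.1.1, Nat.le_floor hm.2⟩
  have h4 := card_le_card h3
  rw [Nat.card_Icc, Nat.add_sub_cancel] at h4
  refine le_trans ?_ (Nat.floor_le hM0)
  exact_mod_cast h4

/-- Type (A): the radical is `m n1` with `m ≤ M0` and the part of `abc` supported on `n1` is at most
`c ^ (1 - η)`. -/
theorem typeA_count (η ε : ℝ) (h0 : 0 < η) (h1 : η ≤ 1) (hε : 0 < ε) : ∃ C : ℝ, 1 ≤ C ∧
    ∀ (Z : ℕ) (M0 Λ : ℝ), 1 ≤ Z → 0 ≤ M0 → 1 ≤ Λ → ∀ S : Finset (ℕ × ℕ),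
    (∀ t ∈ S, Cop t ∧ rad (T t) ≤ Z ∧ Real.log (c t) ≤ Λ ∧ ∃ m n1 : ℕ, rad (T t) = m * n1 ∧
      (m : ℝ) ≤ M0 ∧ (part n1 (T t) : ℝ) ≤ (c t) ^ (1 - η)) →
    (S.card : ℝ) ≤ C * M0 * (Z : ℝ) ^ ε * Λ ^ ε := by
  classical
  obtain ⟨K, hK, hgp⟩ := gp_total η h0 h1
  obtain ⟨C, hC, hpo⟩ := pow_omega K ε hK hε
  obtain ⟨C2, hC2, hlog⟩ := one_add_log_le_rpow ε hε
  refine ⟨K * C * C2, ?_, ?_⟩
  · have h2 : 1 ≤ K * C := one_le_mul_of_one_le_of_one_le hK hC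
    exact one_le_mul_of_one_le_of_one_le h2 hC2
  intro Z M0 Λ hZ hM0 hΛ S hS
  have hZr : (1 : ℝ) ≤ (Z : ℝ) := by exact_mod_cast hZ
  have hl0 : 0 ≤ 1 + Real.log Λ := by
    have := Real.log_nonneg hΛ
    linarith
  set PA : ℕ → ℕ × ℕ → Prop := fun m t => ∃ n1 : ℕ, rad (T t) = m * n1 ∧
      (part n1 (T t) : ℝ) ≤ (c t) ^ (1 - η) with hPA
  set Ms : Finset ℕ := (Icc 1 Z).filter (fun m : ℕ => (m : ℝ) ≤ M0) with hMs
  have hsub : S ⊆ Ms.biUnion fun m => S.filter (PA m) := by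
    intro t ht
    obtain ⟨hc, hr, hl, m, n1, hmn, hm, hp⟩ := hS t ht
    rw [mem_biUnion]
    have hm0 : m ≠ 0 := by
      rintro rfl
      rw [zero_mul] at hmn
      exact (rad_pos _).ne' hmn
    have hmr : m ≤ Z := by
      have h4 : m ∣ rad (T t) := ⟨n1, hmn⟩
      exact (Nat.le_of_dvd (rad_pos _) h4).trans hr
    exact ⟨m, mem_filter.2 ⟨mem_Icc.2 ⟨Nat.one_le_iff_ne_zero.2 hm0, hmr⟩, hm⟩,
      mem_filter.2 ⟨ht, n1, hmn, hp⟩⟩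
  have hcard : (S.card : ℝ) ≤ ∑ m ∈ Ms, ((S.filter (PA m)).card : ℝ) := by
    have h1 : S.card ≤ ∑ m ∈ Ms, (S.filter (PA m)).card :=
      (card_le_card hsub).trans card_biUnion_le
    exact_mod_cast h1
  have hm1 : ∀ m ∈ Ms, ((S.filter (PA m)).card : ℝ) ≤
      K * C * C2 * (Z : ℝ) ^ ε * Λ ^ ε := by
    intro m hm
    rw [hMs, mem_filter, mem_Icc] at hm
    have h2 := hgp m Λ hΛ (S.filter (PA m)) (fun t ht => by
      rw [mem_filter] at ht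
      obtain ⟨ht1, n1, hmn, hp⟩ := ht
      obtain ⟨hc, hr, hl, -⟩ := hS t ht1
      refine ⟨hc, hl, ?_⟩
      have h3 := part_mul_part hc.T_ne hmn
      have h4 : (part m (T t) : ℝ) * (part n1 (T t) : ℝ) = ((t.1 : ℝ) * t.2) * c t := by
        have h5 : ((part m (T t) * part n1 (T t) : ℕ) : ℝ) = ((T t : ℕ) : ℝ) := by rw [h3]
        rw [Nat.cast_mul] at h5
        rw [h5]
        unfold T c
        push_cast
        ring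
      have hc0 := hc.c_pos
      have h6 : (c t) ^ η * (c t) ^ (1 - η) = c t := by
        rw [← Real.rpow_add hc0]
        have : η + (1 - η) = 1 := by ring
        rw [this, Real.rpow_one]
      have h7 : 0 < (c t) ^ (1 - η) := Real.rpow_pos_of_pos hc0 _
      have h8 : ((t.1 : ℝ) * t.2) * (c t) ^ η * (c t) ^ (1 - η) ≤
          (part m (T t) : ℝ) * (c t) ^ (1 - η) := by
        calc ((t.1 : ℝ) * t.2) * (c t) ^ η * (c t) ^ (1 - η)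
            = ((t.1 : ℝ) * t.2) * c t := by rw [mul_assoc, h6]
          _ = (part m (T t) : ℝ) * (part n1 (T t) : ℝ) := h4.symm
          _ ≤ (part m (T t) : ℝ) * (c t) ^ (1 - η) :=
              mul_le_mul_of_nonneg_left hp (Nat.cast_nonneg _)
      exact le_of_mul_le_mul_right h8 h7)
    have h3 : K ^ (m.primeFactors.card + 1) ≤ K * (C * (Z : ℝ) ^ ε) := by
      rw [pow_succ, mul_comm]
      apply mul_le_mul_of_nonneg_left _ (by linarith)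
      refine (hpo m (by omega)).trans ?_
      apply mul_le_mul_of_nonneg_left _ (by linarith)
      exact Real.rpow_le_rpow (Nat.cast_nonneg _) (by exact_mod_cast hm.1.2) hε.le
    calc ((S.filter (PA m)).card : ℝ) ≤ K ^ (m.primeFactors.card + 1) * (1 + Real.log Λ) := h2
      _ ≤ (K * (C * (Z : ℝ) ^ ε)) * (C2 * Λ ^ ε) := by
          apply mul_le_mul h3 (hlog Λ hΛ) hl0 (by positivity)
      _ = K * C * C2 * (Z : ℝ) ^ ε * Λ ^ ε := by ring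
  calc (S.card : ℝ) ≤ ∑ m ∈ Ms, ((S.filter (PA m)).card : ℝ) := hcard
    _ ≤ ∑ _m ∈ Ms, K * C * C2 * (Z : ℝ) ^ ε * Λ ^ ε := sum_le_sum hm1
    _ = Ms.card * (K * C * C2 * (Z : ℝ) ^ ε * Λ ^ ε) := by rw [sum_const, nsmul_eq_mul]
    _ ≤ M0 * (K * C * C2 * (Z : ℝ) ^ ε * Λ ^ ε) := by
        apply mul_le_mul_of_nonneg_right (card_Ms Z M0 hM0) (by positivity)
    _ = K * C * C2 * M0 * (Z : ℝ) ^ ε * Λ ^ ε := by ring

/-- Type (B): the radical is `m q n'` with `m ≤ M0` as in `TyB`. -/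
theorem typeB_count (η ε : ℝ) (h0 : 0 < η) (h1 : η ≤ 1) (hε : 0 < ε) :
    ∃ (C C1 : ℝ) (Z0 : ℕ), 1 ≤ C ∧ 1 ≤ C1 ∧
    ∀ (Z : ℕ) (M0 Λ : ℝ), Z0 ≤ Z → 0 ≤ M0 → 1 ≤ Λ → ∀ S : Finset (ℕ × ℕ),
    (∀ t ∈ S, Cop t ∧ rad (T t) ≤ Z ∧ C1 * (Real.log Z) ^ 2 ≤ Real.log (c t) ∧
      Real.log (c t) ≤ Λ ∧ ∃ (k j : Fin 3) (m q : ℕ), m ≠ 0 ∧ (m : ℝ) ≤ M0 ∧ TyB η k j m q t) →
    (S.card : ℝ) ≤ C * M0 * (Z : ℝ) ^ ε * Λ ^ (1 + ε) := by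
  classical
  obtain ⟨C, C1, Z0, hC, hC1, hB⟩ := countB η ε h0 h1 hε
  refine ⟨C, C1, Z0, hC, hC1, ?_⟩
  intro Z M0 Λ hZ hM0 hΛ S hS
  set PB : ℕ → ℕ × ℕ → Prop := fun m t => ∃ (k j : Fin 3) (q : ℕ), TyB η k j m q t with hPB
  set Ms : Finset ℕ := (Icc 1 Z).filter (fun m : ℕ => (m : ℝ) ≤ M0) with hMs
  have hsub : S ⊆ Ms.biUnion fun m => S.filter (PB m) := by
    intro t ht
    obtain ⟨hc, hr, hl1, hl, k, j, m, q, hm0, hm, hB'⟩ := hS t ht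
    rw [mem_biUnion]
    have hmr : m ≤ Z := by
      obtain ⟨-, -, -, ⟨n', hn', -⟩, -⟩ := hB'
      have h4 : m ∣ rad (T t) := ⟨q * n', by rw [hn']; ring⟩
      exact (Nat.le_of_dvd (rad_pos _) h4).trans hr
    exact ⟨m, mem_filter.2 ⟨mem_Icc.2 ⟨Nat.one_le_iff_ne_zero.2 hm0, hmr⟩, hm⟩,
      mem_filter.2 ⟨ht, k, j, q, hB'⟩⟩
  have hcard : (S.card : ℝ) ≤ ∑ m ∈ Ms, ((S.filter (PB m)).card : ℝ) := by
    have h1 : S.card ≤ ∑ m ∈ Ms, (S.filter (PB m)).card :=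
      (card_le_card hsub).trans card_biUnion_le
    exact_mod_cast h1
  have hm1 : ∀ m ∈ Ms, ((S.filter (PB m)).card : ℝ) ≤
      C * (Z : ℝ) ^ ε * Λ ^ (1 + ε) := by
    intro m hm
    rw [hMs, mem_filter, mem_Icc] at hm
    refine hB Z m Λ hZ (by omega) hm.1.2 hΛ _ (fun t ht => ?_)
    rw [mem_filter] at ht
    obtain ⟨hc, hr, hl1, hl, -⟩ := hS t ht.1
    exact ⟨hc, hr, hl1, hl, ht.2⟩
  calc (S.card : ℝ) ≤ ∑ m ∈ Ms, ((S.filter (PB m)).card : ℝ) := hcard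
    _ ≤ ∑ _m ∈ Ms, C * (Z : ℝ) ^ ε * Λ ^ (1 + ε) := sum_le_sum hm1
    _ = Ms.card * (C * (Z : ℝ) ^ ε * Λ ^ (1 + ε)) := by rw [sum_const, nsmul_eq_mul]
    _ ≤ M0 * (C * (Z : ℝ) ^ ε * Λ ^ (1 + ε)) := by
        apply mul_le_mul_of_nonneg_right (card_Ms Z M0 hM0) (by positivity)
    _ = C * M0 * (Z : ℝ) ^ ε * Λ ^ (1 + ε) := by ring

end Pool.Agent.Helper44.RO2
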