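import Mathlib
import Pool.Agent.Helper44.RO2.Defs

set_option autoImplicit false

open Finset
open Pool.Agent.Helper42.RO

namespace Pool.Agent.Helper44.RO2

/-- RO2-R. A set of primes of `E` with large part and small product.
PROOF. Call `R ⊆ primes of E` closed if `p ∈ R`, `p' ∣ E` prime, `v_p'(E) > v_p(E)` imply `p' ∈ R`. The
set of all primes of `E` is closed and its part is `E ≥ cc ^ (1 / 2) ≥ cc ^ η`. Let `R` be closed of
minimal cardinality with `∏ R p ^ v_p ≥ cc ^ η > 1`; it is not empty. Let `p0 ∈ R` with `v = v_p0`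
minimal (`v ≥ 1`) and `R' = R.erase p0`, which is closed, so `∏ R' p ^ v_p < cc ^ η`. All `p ∈ R'` have
`v_p ≥ v`, so `(∏ R' p) ^ v ≤ ∏ R' p ^ v_p < cc ^ η`, i.e. `v log ∏ R' p ≤ η log cc`. All primes of `E`
outside `R'` have `v_p ≤ v` (closedness), so `E ≤ cc ^ η * (rad E) ^ v`, i.e.
`(1 / 2 - η) log cc ≤ v log (rad E) ≤ v log Z`. Together `log ∏ R' p ≤ η log cc / v ≤
η / (1 / 2 - η) * log Z ≤ 4 η log Z`. -/
theorem rlemma (E : ℕ) (hE : 1 < E) (cc : ℝ) (h1 : 1 < cc) (η : ℝ) (h0 : 0 < η) (hη : η ≤ 1 / 4)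
    (hE2 : cc ^ (1 / 2 : ℝ) ≤ (E : ℝ)) (Z : ℝ) (hZ : (rad E : ℝ) ≤ Z) :
    ∃ R : Finset ℕ, R ⊆ E.primeFactors ∧ ∃ p0 ∈ R,
      cc ^ η ≤ ((∏ p ∈ R, p ^ E.factorization p : ℕ) : ℝ) ∧
      ((∏ p ∈ R, p : ℕ) : ℝ) ≤ p0 * Z ^ (4 * η) := by
  classical
  have hE0 : E ≠ 0 := by omega
  set P := E.primeFactors with hP
  have hppos : ∀ p ∈ P, 0 < p := fun p hp => (Nat.prime_of_mem_primeFactors hp).pos
  -- the family of closed sets
  let F : Finset (Finset ℕ) := P.powerset.filter fun R =>
    (∀ p ∈ R, ∀ p' ∈ P, E.factorization p < E.factorization p' → p' ∈ R) ∧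
      cc ^ η ≤ ((∏ p ∈ R, p ^ E.factorization p : ℕ) : ℝ)
  have hprodE : (∏ p ∈ P, p ^ E.factorization p) = E := by
    have := Nat.prod_factorization_pow_eq_self hE0
    rw [Finsupp.prod, Nat.support_factorization] at this
    exact this
  have hFne : F.Nonempty := by
    refine ⟨P, ?_⟩
    simp only [F, Finset.mem_filter, Finset.mem_powerset]
    refine ⟨Finset.Subset.refl _, fun _ _ p' hp' _ => hp', ?_⟩
    rw [hprodE]
    refine le_trans ?_ hE2
    exact Real.rpow_le_rpow_of_exponent_le h1.le (by linarith)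
  obtain ⟨R, hRF, hRmin⟩ := Finset.exists_min_image F (fun R => R.card) hFne
  simp only [F, Finset.mem_filter, Finset.mem_powerset] at hRF
  obtain ⟨hRP, hRcl, hRbig⟩ := hRF
  have hone : 1 < cc ^ η := Real.one_lt_rpow h1 h0
  have hRne : R.Nonempty := by
    rw [Finset.nonempty_iff_ne_empty]
    rintro rfl
    simp at hRbig
    linarith
  obtain ⟨p0, hp0, hp0min⟩ := Finset.exists_min_image R (fun p => E.factorization p) hRne
  refine ⟨R, hRP, p0, hp0, hRbig, ?_⟩
  set R' := R.erase p0 with hR'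
  set v := E.factorization p0 with hv
  have hv1 : 1 ≤ v := by
    have hm := hRP hp0
    rw [hP, Nat.mem_primeFactors] at hm
    exact (hm.1.dvd_iff_one_le_factorization hE0).1 hm.2.1
  have hR'P : R' ⊆ P := (Finset.erase_subset _ _).trans hRP
  have hR'cl : ∀ p ∈ R', ∀ p' ∈ P, E.factorization p < E.factorization p' → p' ∈ R' := by
    intro p hp p' hp' hlt
    have hpR : p ∈ R := Finset.mem_of_mem_erase hp
    rw [hR', Finset.mem_erase]
    refine ⟨?_, hRcl p hpR p' hp' hlt⟩
    rintro rfl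
    have := hp0min p hpR
    omega
  have hsmall : ((∏ p ∈ R', p ^ E.factorization p : ℕ) : ℝ) < cc ^ η := by
    by_contra hcon
    push Not at hcon
    have hmem : R' ∈ F := by
      simp only [F, Finset.mem_filter, Finset.mem_powerset]
      exact ⟨hR'P, hR'cl, hcon⟩
    have h2 := hRmin R' hmem
    have h3 : R'.card < R.card := Finset.card_erase_lt_of_mem hp0
    omega
  -- the product over R' to the power v
  have hpow : (∏ p ∈ R', p) ^ v ≤ ∏ p ∈ R', p ^ E.factorization p := by
    rw [← Finset.prod_pow]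
    refine Finset.prod_le_prod' fun p hp => ?_
    exact Nat.pow_le_pow_right (hppos p (hR'P hp)) (hp0min p (Finset.mem_of_mem_erase hp))
  have hrest : (∏ p ∈ P \ R', p ^ E.factorization p) ≤ (rad E) ^ v := by
    calc (∏ p ∈ P \ R', p ^ E.factorization p) ≤ ∏ p ∈ P \ R', p ^ v := by
          refine Finset.prod_le_prod' fun p hp => ?_
          rw [Finset.mem_sdiff] at hp
          refine Nat.pow_le_pow_right (hppos p hp.1) ?_
          by_contra hcon
          push Not at hcon
          have hpR : p ∈ R := hRcl p0 hp0 p hp.1 hcon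
          apply hp.2
          rw [hR', Finset.mem_erase]
          refine ⟨?_, hpR⟩
          rintro rfl
          omega
      _ ≤ ∏ p ∈ P, p ^ v := by
          refine Finset.prod_le_prod_of_subset_of_one_le' Finset.sdiff_subset ?_
          intro p hp _
          exact Nat.one_le_pow _ _ (hppos p hp)
      _ = (rad E) ^ v := by
          rw [Finset.prod_pow]
          rfl
  have hEle : E ≤ (∏ p ∈ R', p ^ E.factorization p) * (rad E) ^ v := by
    calc E = ∏ p ∈ P, p ^ E.factorization p := hprodE.symm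
      _ = (∏ p ∈ P \ R', p ^ E.factorization p) * ∏ p ∈ R', p ^ E.factorization p :=
          (Finset.prod_sdiff hR'P).symm
      _ ≤ (rad E) ^ v * ∏ p ∈ R', p ^ E.factorization p := Nat.mul_le_mul_right _ hrest
      _ = _ := mul_comm _ _
  have hradpos : 0 < rad E := Finset.prod_pos hppos
  have hradpos' : (0 : ℝ) < (rad E : ℝ) := by exact_mod_cast hradpos
  have hZpos : 0 < Z := lt_of_lt_of_le hradpos' hZ
  have hccpos : 0 < cc := by linarith
  have hccη : 0 < cc ^ η := by linarith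
  have hER : cc ^ (1 / 2 : ℝ) ≤ cc ^ η * Z ^ v := by
    refine hE2.trans ?_
    have h4 : (E : ℝ) ≤ ((∏ p ∈ R', p ^ E.factorization p : ℕ) : ℝ) * (rad E : ℝ) ^ v := by
      exact_mod_cast hEle
    refine h4.trans ?_
    exact mul_le_mul hsmall.le (pow_le_pow_left₀ hradpos'.le hZ v) (by positivity) hccη.le
  have hQpos : 0 < ∏ p ∈ R', p := Finset.prod_pos fun p hp => hppos p (hR'P hp)
  have hQpos' : (0 : ℝ) < ((∏ p ∈ R', p : ℕ) : ℝ) := by exact_mod_cast hQpos
  have hQ : ((∏ p ∈ R', p : ℕ) : ℝ) ^ v ≤ cc ^ η := by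
    refine le_trans ?_ hsmall.le
    exact_mod_cast hpow
  -- logarithms
  have hL : 0 < Real.log cc := Real.log_pos h1
  have hlog1 : (1 / 2 : ℝ) * Real.log cc ≤ η * Real.log cc + v * Real.log Z := by
    have := Real.log_le_log (by positivity) hER
    rw [Real.log_mul hccη.ne' (by positivity), Real.log_rpow hccpos, Real.log_rpow hccpos,
      Real.log_pow] at this
    exact this
  have hlog2 : (v : ℝ) * Real.log ((∏ p ∈ R', p : ℕ) : ℝ) ≤ η * Real.log cc := by
    have := Real.log_le_log (by positivity) hQ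
    rw [Real.log_pow, Real.log_rpow hccpos] at this
    exact this
  have hvpos : (0 : ℝ) < v := by exact_mod_cast hv1
  have hlog3 : Real.log ((∏ p ∈ R', p : ℕ) : ℝ) ≤ 4 * η * Real.log Z := by
    have h5 : Real.log cc ≤ 4 * (v * Real.log Z) := by nlinarith
    have h6 : η * Real.log cc ≤ η * (4 * (v * Real.log Z)) := mul_le_mul_of_nonneg_left h5 h0.le
    have h7 : (v : ℝ) * Real.log ((∏ p ∈ R', p : ℕ) : ℝ) ≤ v * (4 * η * Real.log Z) := by
      linarith
    exact le_of_mul_le_mul_left h7 hvpos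
  have hQZ : ((∏ p ∈ R', p : ℕ) : ℝ) ≤ Z ^ (4 * η) := by
    rw [← Real.log_le_log_iff hQpos' (by positivity), Real.log_rpow hZpos]
    exact hlog3
  have hsplit : (∏ p ∈ R, p) = p0 * ∏ p ∈ R', p := (Finset.mul_prod_erase R _ hp0).symm
  rw [hsplit]
  push_cast
  have hp0pos : (0 : ℝ) ≤ p0 := Nat.cast_nonneg _
  have := mul_le_mul_of_nonneg_left hQZ hp0pos
  push_cast at this
  exact this

end Pool.Agent.Helper44.RO2
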