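import Mathlib
import Pool.Agent.Helper44.RO2.Defs

set_option autoImplicit false

open Finset
open Pool.Agent.Helper42.RO

namespace Pool.Agent.Helper44.RO2

private theorem Rankin_geom (r : ℝ) (h0 : 0 < r) (h1 : r < 1) (V : Finset ℕ)
    (hV : ∀ v ∈ V, 1 ≤ v) : ∑ v ∈ V, r ^ v ≤ r / (1 - r) := by
  have h2 : ∑ v ∈ V, r ^ v = r * ∑ w ∈ V.image (fun v => v - 1), r ^ w := by
    rw [Finset.sum_image, Finset.mul_sum]
    · refine Finset.sum_congr rfl fun v hv => ?_
      rw [← pow_succ', Nat.sub_add_cancel (hV v hv)]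
    · intro a ha b hb hab
      have h3 := hV a ha
      have h4 := hV b hb
      simp only at hab
      omega
  have h3 : ∑ w ∈ V.image (fun v => v - 1), r ^ w ≤ (1 - r)⁻¹ := by
    rw [← tsum_geometric_of_lt_one h0.le h1]
    exact Summable.sum_le_tsum _ (fun i _ => by positivity)
      (summable_geometric_of_lt_one h0.le h1)
  rw [h2, div_eq_mul_inv]
  exact mul_le_mul_of_nonneg_left h3 h0.le

private theorem Rankin_prime (σ : ℝ) (hσ : 0 < σ) (p : ℕ) (hp : p.Prime) (V : Finset ℕ)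
    (hV : ∀ v ∈ V, 1 ≤ v) :
    ∑ v ∈ V, ((p : ℝ) ^ (-σ)) ^ v ≤ 1 / (σ * Real.log p) := by
  have hp1 : (1 : ℝ) < p := by exact_mod_cast hp.one_lt
  have hp0 : (0 : ℝ) < p := by linarith only [hp1]
  have hl : 0 < Real.log p := Real.log_pos hp1
  have hr0 : 0 < (p : ℝ) ^ (-σ) := Real.rpow_pos_of_pos hp0 _
  have hr1 : (p : ℝ) ^ (-σ) < 1 :=
    Real.rpow_lt_one_of_one_lt_of_neg hp1 (by linarith only [hσ])
  refine (Rankin_geom _ hr0 hr1 V hV).trans ?_
  have h2 : (p : ℝ) ^ σ * (p : ℝ) ^ (-σ) = 1 := by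
    rw [← Real.rpow_add hp0]
    simp
  have h3 : σ * Real.log p + 1 ≤ (p : ℝ) ^ σ := by
    rw [Real.rpow_def_of_pos hp0, mul_comm (Real.log p)]
    exact Real.add_one_le_exp _
  rw [div_le_div_iff₀ (by linarith only [hr1]) (by positivity)]
  have h4 : (σ * Real.log p + 1) * (p : ℝ) ^ (-σ) ≤ 1 := by
    calc (σ * Real.log p + 1) * (p : ℝ) ^ (-σ) ≤ (p : ℝ) ^ σ * (p : ℝ) ^ (-σ) :=
          mul_le_mul_of_nonneg_right h3 hr0.le
      _ = 1 := h2
  linarith only [h4]

private theorem Rankin_sum (σ : ℝ) (hσ : 0 < σ) (P : Finset ℕ) :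
    (∀ p ∈ P, p.Prime) → ∀ S : Finset ℕ, (∀ n ∈ S, n ≠ 0 ∧ n.primeFactors = P) →
      ∑ n ∈ S, (n : ℝ) ^ (-σ) ≤ ∏ p ∈ P, 1 / (σ * Real.log p) := by
  classical
  induction P using Finset.induction_on with
  | empty =>
    intro _ S hS
    have h1 : S ⊆ {1} := by
      intro n hn
      obtain ⟨h2, h3⟩ := hS n hn
      rw [Nat.primeFactors_eq_empty] at h3
      rw [Finset.mem_singleton]
      exact h3.resolve_left h2
    rw [Finset.prod_empty]
    refine (Finset.sum_le_sum_of_subset_of_nonneg h1 fun i _ _ => by positivity).trans ?_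
    simp
  | insert p P' hp ih =>
    intro hP S hS
    have hpp : p.Prime := hP p (Finset.mem_insert_self _ _)
    have hP' : ∀ q ∈ P', q.Prime := fun q hq => hP q (Finset.mem_insert_of_mem hq)
    have hf : ∀ n ∈ S, (n : ℝ) ^ (-σ) = ((p : ℝ) ^ (-σ)) ^ (n.factorization p) *
        ((n / p ^ n.factorization p : ℕ) : ℝ) ^ (-σ) := by
      intro n _
      have h1 : n = p ^ n.factorization p * (n / p ^ n.factorization p) :=
        (Nat.ordProj_mul_ordCompl_eq_self n p).symm
      have h2 : (n : ℝ) = (p : ℝ) ^ n.factorization p *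
          ((n / p ^ n.factorization p : ℕ) : ℝ) := by
        exact_mod_cast h1
      conv_lhs => rw [h2]
      rw [Real.mul_rpow (by positivity) (by positivity), ← Real.rpow_natCast,
        ← Real.rpow_natCast, ← Real.rpow_mul (by positivity), ← Real.rpow_mul (by positivity),
        mul_comm (-σ)]
    have hinj : Set.InjOn (fun n : ℕ => (n.factorization p, n / p ^ n.factorization p))
        (S : Set ℕ) := by
      intro a _ b _ hab
      simp only [Prod.mk.injEq] at hab
      rw [← Nat.ordProj_mul_ordCompl_eq_self a p, ← Nat.ordProj_mul_ordCompl_eq_self b p,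
        hab.2, hab.1]
    have h1 : ∑ n ∈ S, (n : ℝ) ^ (-σ) =
        ∑ x ∈ S.image (fun n : ℕ => (n.factorization p, n / p ^ n.factorization p)),
          ((p : ℝ) ^ (-σ)) ^ x.1 * (x.2 : ℝ) ^ (-σ) := by
      rw [Finset.sum_image hinj]
      exact Finset.sum_congr rfl hf
    have h2 : S.image (fun n : ℕ => (n.factorization p, n / p ^ n.factorization p)) ⊆
        S.image (fun n : ℕ => n.factorization p) ×ˢ S.image (fun n : ℕ => (n / p ^ n.factorization p : ℕ)) := by
      intro x hx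
      rw [Finset.mem_image] at hx
      obtain ⟨n, hn, rfl⟩ := hx
      rw [Finset.mem_product]
      exact ⟨Finset.mem_image_of_mem _ hn, Finset.mem_image_of_mem _ hn⟩
    rw [h1]
    refine (Finset.sum_le_sum_of_subset_of_nonneg h2 fun x _ _ => by positivity).trans ?_
    rw [Finset.sum_product, Finset.prod_insert hp]
    have h3 : ∑ v ∈ S.image (fun n : ℕ => n.factorization p),
        ∑ m ∈ S.image (fun n : ℕ => (n / p ^ n.factorization p : ℕ)),
          ((p : ℝ) ^ (-σ)) ^ v * (m : ℝ) ^ (-σ) =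
        (∑ v ∈ S.image (fun n : ℕ => n.factorization p), ((p : ℝ) ^ (-σ)) ^ v) *
        ∑ m ∈ S.image (fun n : ℕ => (n / p ^ n.factorization p : ℕ)), (m : ℝ) ^ (-σ) := by
      rw [Finset.sum_mul]
      refine Finset.sum_congr rfl fun v _ => ?_
      rw [Finset.mul_sum]
    rw [h3]
    refine mul_le_mul ?_ ?_ (Finset.sum_nonneg fun m _ => by positivity) ?_
    · refine Rankin_prime σ hσ p hpp _ fun v hv => ?_
      rw [Finset.mem_image] at hv
      obtain ⟨n, hn, rfl⟩ := hv
      obtain ⟨hn0, hnP⟩ := hS n hn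
      have h4 : p ∈ n.primeFactors := by
        rw [hnP]
        exact Finset.mem_insert_self _ _
      exact (hpp.factorization_pos_of_dvd hn0 (Nat.dvd_of_mem_primeFactors h4))
    · refine ih hP' _ fun m hm => ?_
      rw [Finset.mem_image] at hm
      obtain ⟨n, hn, rfl⟩ := hm
      obtain ⟨hn0, hnP⟩ := hS n hn
      refine ⟨(Nat.ordCompl_pos p hn0).ne', ?_⟩
      rw [← Nat.support_factorization, Nat.factorization_ordCompl, Finsupp.support_erase,
        Nat.support_factorization, hnP, Finset.erase_insert hp]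
    · have hl : 0 < Real.log p := Real.log_pos (by exact_mod_cast hpp.one_lt)
      positivity

/-- RO2-RA. Numbers with given set of primes.
PROOF. Let `f P S = ∑ n ∈ S, (n : ℝ) ^ (-σ)`; claim `f ≤ ∏ p ∈ P, 1 / (σ log p)` for every finite `S` of
`n ≠ 0` with `n.primeFactors = P`, by induction on `P` (remove a prime `p`: group the `n` by
`v = n.factorization p ≥ 1`, `n = p ^ v * n'`; `∑ v ≥ 1, p ^ (-σ v) = 1 / (p ^ σ - 1) ≤ 1 / (σ log p)`
since `p ^ σ = exp (σ log p) ≥ 1 + σ log p`; finite geometric sums suffice). Then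
`S.card ≤ ∑ exp (σ (Λ - log n)) = exp (σ Λ) * f`. -/
theorem rankin (P : Finset ℕ) (hP : ∀ p ∈ P, p.Prime) (σ Λ : ℝ) (hσ : 0 < σ) (S : Finset ℕ)
    (hS : ∀ n ∈ S, n ≠ 0 ∧ n.primeFactors = P ∧ Real.log n ≤ Λ) :
    (S.card : ℝ) ≤ Real.exp (σ * Λ) * ∏ p ∈ P, 1 / (σ * Real.log p) := by
  have h1 := Rankin_sum σ hσ P hP S fun n hn => ⟨(hS n hn).1, (hS n hn).2.1⟩
  have h2 : (S.card : ℝ) ≤ ∑ n ∈ S, Real.exp (σ * Λ) * (n : ℝ) ^ (-σ) := by
    rw [Finset.cast_card]
    refine Finset.sum_le_sum fun n hn => ?_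
    obtain ⟨hn0, -, hn2⟩ := hS n hn
    have hn1 : (0 : ℝ) < n := by exact_mod_cast Nat.pos_of_ne_zero hn0
    rw [Real.rpow_def_of_pos hn1, ← Real.exp_add]
    refine Real.one_le_exp ?_
    have h3 := mul_le_mul_of_nonneg_left hn2 hσ.le
    linarith only [h3]
  refine h2.trans ?_
  rw [← Finset.mul_sum]
  exact mul_le_mul_of_nonneg_left h1 (Real.exp_pos _).le

end Pool.Agent.Helper44.RO2
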