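import Mathlib

set_option autoImplicit false

open Finset

namespace Pool.Agent.Helper44.RO2

private theorem sumP_log2_pos : (0 : ℝ) < Real.log 2 := Real.log_pos (by norm_num)

/-- One dyadic block. -/
private theorem sumP_block (P : Finset ℕ) (hP : ∀ p ∈ P, p.Prime) (k : ℕ) (hk : 0 < k) :
    ∑ p ∈ P.filter (fun p => Nat.log 2 p = k), 1 / ((p : ℝ) * Real.log p) ≤
      4 / Real.log 2 * (((k : ℝ)) ^ 2)⁻¹ := by
  have hl := sumP_log2_pos
  have hkR : (0 : ℝ) < k := by exact_mod_cast hk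
  have hpow : (0 : ℝ) < (2 : ℝ) ^ k := by positivity
  have h1 : ∀ p ∈ P.filter (fun p => Nat.log 2 p = k),
      1 / ((p : ℝ) * Real.log p) ≤
        Real.log p * (1 / ((2 : ℝ) ^ k * ((k : ℝ) * Real.log 2) ^ 2)) := by
    intro p hp
    rw [Finset.mem_filter] at hp
    have hpp := hP p hp.1
    have hp2 : 2 ^ k ≤ p := by
      rw [← hp.2]
      exact Nat.pow_log_le_self 2 hpp.ne_zero
    have hp2R : (2 : ℝ) ^ k ≤ p := by exact_mod_cast hp2
    have hlog : (k : ℝ) * Real.log 2 ≤ Real.log p := by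
      rw [← Real.log_pow]
      exact Real.log_le_log hpow hp2R
    have hkl : 0 < (k : ℝ) * Real.log 2 := by positivity
    have hlp : 0 < Real.log p := hkl.trans_le hlog
    have hpR : (0 : ℝ) < p := hpow.trans_le hp2R
    have h2 : 1 / ((p : ℝ) * Real.log p) = Real.log p * (1 / ((p : ℝ) * (Real.log p) ^ 2)) := by
      field_simp
    rw [h2]
    refine mul_le_mul_of_nonneg_left ?_ hlp.le
    refine one_div_le_one_div_of_le (by positivity) ?_
    exact mul_le_mul hp2R (pow_le_pow_left₀ hkl.le hlog 2) (by positivity) hpR.le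
  refine (Finset.sum_le_sum h1).trans ?_
  rw [← Finset.sum_mul]
  have h3 : ∑ p ∈ P.filter (fun p => Nat.log 2 p = k), Real.log p ≤
      Chebyshev.theta ((2 ^ (k + 1) : ℕ) : ℝ) := by
    rw [Chebyshev.theta, Nat.floor_natCast]
    refine Finset.sum_le_sum_of_subset_of_nonneg ?_ ?_
    · intro p hp
      rw [Finset.mem_filter] at hp
      have hpp := hP p hp.1
      rw [Finset.mem_filter, Finset.mem_Ioc]
      refine ⟨⟨hpp.pos, ?_⟩, hpp⟩
      have := Nat.lt_pow_succ_log_self (b := 2) (by norm_num) p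
      rw [hp.2] at this
      exact this.le
    · intro p hp _
      rw [Finset.mem_filter, Finset.mem_Ioc] at hp
      exact Real.log_nonneg (by exact_mod_cast hp.1.1)
  have h4 := Chebyshev.theta_le_log4_mul_x (x := ((2 ^ (k + 1) : ℕ) : ℝ)) (by positivity)
  have h5 : Real.log 4 = 2 * Real.log 2 := by
    rw [show (4 : ℝ) = 2 ^ 2 by norm_num, Real.log_pow]
    norm_num
  have h6 : ∑ p ∈ P.filter (fun p => Nat.log 2 p = k), Real.log p ≤
      2 * Real.log 2 * (2 * (2 : ℝ) ^ k) := by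
    refine (h3.trans h4).trans (le_of_eq ?_)
    rw [h5]
    push_cast
    rw [pow_succ]
    ring
  refine (mul_le_mul_of_nonneg_right h6 (by positivity)).trans (le_of_eq ?_)
  field_simp
  ring

/-- RO2-SP. The series `∑ 1 / (p log p)` over the primes converges.
PROOF. Chebyshev: `∏ p ∈ (2 ^ k, 2 ^ (k + 1)], p ≤ primorial (2 ^ (k + 1)) ≤ 4 ^ (2 ^ (k + 1))`
(`primorial_le_four_pow`), so there are at most `2 ^ (k + 2) / k` primes in `(2 ^ k, 2 ^ (k + 1)]`
(`k ≥ 1`), each contributing at most `1 / (2 ^ k k log 2)`; the block sum is at most `4 / (k ^ 2 log 2)`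
and `∑ 1 / k ^ 2 ≤ 2`. (Or use a lemma of this kind from other projects in `Pool/Agent`.) -/
theorem sum_inv_plogp : ∃ C2 : ℝ, 1 ≤ C2 ∧ ∀ P : Finset ℕ, (∀ p ∈ P, p.Prime) →
    ∑ p ∈ P, 1 / ((p : ℝ) * Real.log p) ≤ C2 := by
  have hl := sumP_log2_pos
  refine ⟨4 / Real.log 2 * 2, ?_, fun P hP => ?_⟩
  · have h1 : Real.log 2 ≤ 1 := by
      have := Real.log_two_lt_d9
      linarith
    rw [div_mul_eq_mul_div, le_div_iff₀ hl]
    linarith
  · set n := P.sup (fun p => Nat.log 2 p) + 1 with hn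
    have hmaps : ∀ p ∈ P, Nat.log 2 p ∈ Finset.Ioo 0 n := by
      intro p hp
      rw [Finset.mem_Ioo]
      refine ⟨Nat.log_pos (by norm_num) (hP p hp).two_le, ?_⟩
      have := Finset.le_sup (f := fun p => Nat.log 2 p) hp
      rw [hn]
      exact Nat.lt_succ_of_le this
    rw [← Finset.sum_fiberwise_of_maps_to hmaps]
    have h2 : ∑ k ∈ Finset.Ioo 0 n, ∑ p ∈ P.filter (fun p => Nat.log 2 p = k),
        1 / ((p : ℝ) * Real.log p) ≤ ∑ k ∈ Finset.Ioo 0 n, 4 / Real.log 2 * (((k : ℝ)) ^ 2)⁻¹ :=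
      Finset.sum_le_sum fun k hk => sumP_block P hP k (Finset.mem_Ioo.1 hk).1
    refine h2.trans ?_
    rw [← Finset.mul_sum]
    refine mul_le_mul_of_nonneg_left ?_ (by positivity)
    have h3 := sum_Ioo_inv_sq_le (α := ℝ) 0 n
    simpa using h3

end Pool.Agent.Helper44.RO2
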