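import Mathlib
import Pool.Agent.Helper44.RO2.Defs
import Pool.Agent.Helper44.RO2.Rankin
import Pool.Agent.Helper44.RO2.SumP

set_option autoImplicit false

open Finset
open Pool.Agent.Helper42.RO

namespace Pool.Agent.Helper44.RO2

/-- The sum over sets of primes of the products of weights. -/
private lemma countRad_sum (Q : Finset ℕ) (C2 t : ℝ) (hC2 : 1 ≤ C2) (ht : 0 ≤ t)
    (h : ∑ p ∈ Q, 1 / ((p : ℝ) * Real.log p) ≤ C2) (hQ : ∀ p ∈ Q, p.Prime) :
    ∑ P ∈ Q.powerset, ∏ p ∈ P, (t / C2) * (1 / ((p : ℝ) * Real.log p)) ≤ Real.exp t := by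
  have hC20 : (0 : ℝ) < C2 := lt_of_lt_of_le one_pos hC2
  have h0 : ∀ p ∈ Q, 0 ≤ (t / C2) * (1 / ((p : ℝ) * Real.log p)) := by
    intro p hp
    have h1 : (1 : ℝ) ≤ p := by exact_mod_cast (hQ p hp).one_le
    have h2 : 0 ≤ Real.log p := Real.log_nonneg h1
    have h3 : 0 ≤ t / C2 := div_nonneg ht hC20.le
    positivity
  rw [← Finset.prod_one_add]
  calc ∏ p ∈ Q, (1 + (t / C2) * (1 / ((p : ℝ) * Real.log p)))
      ≤ ∏ p ∈ Q, Real.exp ((t / C2) * (1 / ((p : ℝ) * Real.log p))) := by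
        refine Finset.prod_le_prod (fun p hp => ?_) (fun p _ => ?_)
        · have := h0 p hp
          linarith
        · have := Real.add_one_le_exp ((t / C2) * (1 / ((p : ℝ) * Real.log p)))
          linarith
    _ = Real.exp (∑ p ∈ Q, (t / C2) * (1 / ((p : ℝ) * Real.log p))) := by
        rw [Real.exp_sum]
    _ ≤ Real.exp t := by
        rw [Real.exp_le_exp, ← Finset.mul_sum]
        calc t / C2 * ∑ p ∈ Q, 1 / ((p : ℝ) * Real.log p) ≤ t / C2 * C2 :=
              mul_le_mul_of_nonneg_left h (div_nonneg ht hC20.le)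
          _ = t := div_mul_cancel₀ t hC20.ne'

/-- The product of one set of primes. -/
private lemma countRad_term (C1 C2 e z Y K : ℝ) (hC1 : 1 ≤ C1) (hC2 : 1 ≤ C2) (he : 0 < e)
    (hz : 0 < z) (hK : C1 * C2 / e ^ 2 ≤ K) (P : Finset ℕ) (hP : ∀ p ∈ P, p.Prime)
    (hY : ((∏ p ∈ P, p : ℕ) : ℝ) ≤ Y) :
    ∏ p ∈ P, 1 / ((e / (C1 * z)) * Real.log p) ≤
      Y * K ^ P.card * ∏ p ∈ P, ((e * z) / C2) * (1 / ((p : ℝ) * Real.log p)) := by
  have hC10 : (0 : ℝ) < C1 := lt_of_lt_of_le one_pos hC1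
  have hC20 : (0 : ℝ) < C2 := lt_of_lt_of_le one_pos hC2
  have hlog : ∀ p ∈ P, 0 < Real.log p := fun p hp =>
    Real.log_pos (by exact_mod_cast (hP p hp).one_lt)
  have hp0 : ∀ p ∈ P, (0 : ℝ) < p := fun p hp => by exact_mod_cast (hP p hp).pos
  have h1 : ∏ p ∈ P, 1 / ((e / (C1 * z)) * Real.log p) =
      ((∏ p ∈ P, p : ℕ) : ℝ) * ∏ p ∈ P, (C1 * C2 / e ^ 2) *
        (((e * z) / C2) * (1 / ((p : ℝ) * Real.log p))) := by
    rw [Nat.cast_prod, ← Finset.prod_mul_distrib]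
    refine Finset.prod_congr rfl fun p hp => ?_
    have := hlog p hp
    have := hp0 p hp
    field_simp
  rw [h1, Finset.prod_mul_distrib, Finset.prod_const, ← mul_assoc]
  have h2 : 0 ≤ ∏ p ∈ P, ((e * z) / C2) * (1 / ((p : ℝ) * Real.log p)) := by
    refine Finset.prod_nonneg fun p hp => ?_
    have := hlog p hp
    have := hp0 p hp
    positivity
  refine mul_le_mul_of_nonneg_right ?_ h2
  have h3 : 0 ≤ C1 * C2 / e ^ 2 := by positivity
  have h4 : (0 : ℝ) ≤ ((∏ p ∈ P, p : ℕ) : ℝ) := Nat.cast_nonneg _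
  exact mul_le_mul hY (pow_le_pow_left₀ h3 hK _) (pow_nonneg h3 _) (h4.trans hY)

/-- RO2-CR. Integers up to `exp (C1 z ^ 2)`, `z = log Z`, with radical at most `Y ≤ Z`.
PROOF. `Z = 1`: then `n = 1`. For `Z ≥ 2`, `z = log Z > 0`. Let `e = ε / 3`, `σ = e / (C1 z)`, so
`exp (σ C1 z ^ 2) = Z ^ e`. Group by `r = rad n ≤ Y` (squarefree): by `rankin` with `P = r.primeFactors`
the number is at most `Z ^ e * ∑ r, ∏ p ∣ r, C1 z / (e log p)`. As `1 ≤ Y / r` and `r = ∏ p`, this is at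
most `Z ^ e * Y * ∑ r, K ^ ω(r) * ∏ p ∣ r, (e z / C2) / (p log p)` with `K = C1 C2 / e ^ 2` (take
`K := max 1 _`). `K ^ ω(r) ≤ C r ^ e ≤ C Z ^ e` by `pow_omega`, and
`∑ r, ∏ p ∣ r, a_p ≤ ∏ p ≤ Z, (1 + a_p) ≤ exp (∑ a_p) ≤ exp (e z) = Z ^ e` by `sum_inv_plogp`
(`Finset.prod_one_add` or `Finset.prod_add_one`, the `r` correspond to their sets of primes). -/
theorem count_rad (C1 ε : ℝ) (hC : 1 ≤ C1) (hε : 0 < ε) : ∃ C : ℝ, 1 ≤ C ∧
    ∀ (Z : ℕ) (Y : ℝ), 1 ≤ Z → 1 ≤ Y → Y ≤ Z → ∀ S : Finset ℕ,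
    (∀ n ∈ S, n ≠ 0 ∧ (rad n : ℝ) ≤ Y ∧ Real.log n ≤ C1 * (Real.log Z) ^ 2) →
    (S.card : ℝ) ≤ C * Y * (Z : ℝ) ^ ε := by
  classical
  obtain ⟨C2, hC2, hsum⟩ := sum_inv_plogp
  set e : ℝ := ε / 3 with he
  have he0 : 0 < e := by positivity
  set K : ℝ := max 1 (C1 * C2 / e ^ 2) with hK
  have hK1 : 1 ≤ K := le_max_left _ _
  have hK2 : C1 * C2 / e ^ 2 ≤ K := le_max_right _ _
  obtain ⟨C, hC1', hpow⟩ := pow_omega K e hK1 he0
  have hC0 : (0 : ℝ) < C := lt_of_lt_of_le one_pos hC1'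
  refine ⟨C, hC1', fun Z Y hZ hY hYZ S hS => ?_⟩
  have hY0 : (0 : ℝ) < Y := lt_of_lt_of_le one_pos hY
  rcases Nat.eq_or_lt_of_le hZ with hZ1 | hZ2
  · -- the case Z = 1
    have hsub : S ⊆ {1} := by
      intro n hn
      obtain ⟨hn0, -, hn2⟩ := hS n hn
      rw [← hZ1] at hn2
      simp only [Nat.cast_one, Real.log_one, ne_eq, OfNat.ofNat_ne_zero, not_false_eq_true,
        zero_pow, mul_zero] at hn2
      have hn1 : (1 : ℝ) ≤ n := by exact_mod_cast Nat.one_le_iff_ne_zero.2 hn0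
      have : (n : ℝ) ≤ 1 := by
        by_contra hlt
        push Not at hlt
        exact absurd hn2 (not_le.2 (Real.log_pos hlt))
      have hn3 : n = 1 := by
        have : (n : ℝ) = 1 := le_antisymm this hn1
        exact_mod_cast this
      simp [hn3]
    have hcard : S.card ≤ 1 := by simpa using Finset.card_le_card hsub
    rw [← hZ1]
    simp only [Nat.cast_one, Real.one_rpow, mul_one]
    have h1 : (S.card : ℝ) ≤ 1 := by exact_mod_cast hcard
    nlinarith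
  · have hZR : (1 : ℝ) < Z := by exact_mod_cast hZ2
    have hZ0 : (0 : ℝ) < Z := one_pos.trans hZR
    set z : ℝ := Real.log Z with hz
    have hz0 : 0 < z := Real.log_pos hZR
    have hexp : Real.exp (e * z) = (Z : ℝ) ^ e := by
      rw [Real.rpow_def_of_pos hZ0, mul_comm]
    set Q : Finset ℕ := (Finset.range (Z + 1)).filter Nat.Prime with hQ
    have hQp : ∀ p ∈ Q, p.Prime := fun p hp => (Finset.mem_filter.1 hp).2
    set R : Finset (Finset ℕ) := Q.powerset.filter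
      (fun P => ((∏ p ∈ P, p : ℕ) : ℝ) ≤ Y) with hR
    have hmaps : ∀ n ∈ S, n.primeFactors ∈ R := by
      intro n hn
      obtain ⟨hn0, hn1, -⟩ := hS n hn
      rw [hR, Finset.mem_filter, Finset.mem_powerset]
      refine ⟨fun p hp => ?_, hn1⟩
      rw [hQ, Finset.mem_filter, Finset.mem_range]
      refine ⟨?_, Nat.prime_of_mem_primeFactors hp⟩
      have h1 : p ≤ rad n := Nat.le_of_dvd (rad_pos n) (Finset.dvd_prod_of_mem (fun p => p) hp)
      have h2 : (rad n : ℝ) ≤ Z := hn1.trans hYZ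
      have h3 : rad n ≤ Z := by exact_mod_cast h2
      omega
    have hcard : (S.card : ℝ) = ∑ P ∈ R, ((S.filter (fun n => n.primeFactors = P)).card : ℝ) := by
      rw [Finset.card_eq_sum_card_fiberwise hmaps]
      push_cast
      rfl
    rw [hcard]
    have hterm : ∀ P ∈ R, ((S.filter (fun n => n.primeFactors = P)).card : ℝ) ≤
        (Z : ℝ) ^ e * (Y * (C * (Z : ℝ) ^ e)) *
          ∏ p ∈ P, ((e * z) / C2) * (1 / ((p : ℝ) * Real.log p)) := by
      intro P hPR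
      rw [hR, Finset.mem_filter, Finset.mem_powerset] at hPR
      have hPp : ∀ p ∈ P, p.Prime := fun p hp => hQp p (hPR.1 hp)
      have h1 := rankin P hPp (e / (C1 * z)) (C1 * z ^ 2) (by positivity)
        (S.filter (fun n => n.primeFactors = P)) (by
          intro n hn
          rw [Finset.mem_filter] at hn
          obtain ⟨hn0, -, hn2⟩ := hS n hn.1
          exact ⟨hn0, hn.2, hn2⟩)
      have h2 : e / (C1 * z) * (C1 * z ^ 2) = e * z := by
        have : C1 ≠ 0 := by linarith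
        field_simp
      rw [h2, hexp] at h1
      have h3 := countRad_term C1 C2 e z Y K hC hC2 he0 hz0 hK2 P hPp hPR.2
      have h4 : K ^ P.card ≤ C * (Z : ℝ) ^ e := by
        have h5 := hpow (∏ p ∈ P, p) (Finset.prod_ne_zero_iff.2 fun p hp => (hPp p hp).ne_zero)
        rw [primeFactors_prod_id hPp] at h5
        refine h5.trans (mul_le_mul_of_nonneg_left ?_ hC0.le)
        exact Real.rpow_le_rpow (Nat.cast_nonneg _) (hPR.2.trans hYZ) he0.le
      have h6 : 0 ≤ ∏ p ∈ P, ((e * z) / C2) * (1 / ((p : ℝ) * Real.log p)) := by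
        refine Finset.prod_nonneg fun p hp => ?_
        have h7 : 0 < Real.log p := Real.log_pos (by exact_mod_cast (hPp p hp).one_lt)
        have h8 : (0 : ℝ) < C2 := lt_of_lt_of_le one_pos hC2
        positivity
      have hZe : 0 ≤ (Z : ℝ) ^ e := Real.rpow_nonneg hZ0.le e
      calc ((S.filter (fun n => n.primeFactors = P)).card : ℝ)
          ≤ (Z : ℝ) ^ e * ∏ p ∈ P, 1 / ((e / (C1 * z)) * Real.log p) := h1
        _ ≤ (Z : ℝ) ^ e * (Y * K ^ P.card *
              ∏ p ∈ P, ((e * z) / C2) * (1 / ((p : ℝ) * Real.log p))) :=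
            mul_le_mul_of_nonneg_left h3 hZe
        _ ≤ (Z : ℝ) ^ e * (Y * (C * (Z : ℝ) ^ e) *
              ∏ p ∈ P, ((e * z) / C2) * (1 / ((p : ℝ) * Real.log p))) := by
            refine mul_le_mul_of_nonneg_left ?_ hZe
            refine mul_le_mul_of_nonneg_right ?_ h6
            exact mul_le_mul_of_nonneg_left h4 hY0.le
        _ = _ := by ring
    refine (Finset.sum_le_sum hterm).trans ?_
    rw [← Finset.mul_sum]
    have hsub : ∑ P ∈ R, ∏ p ∈ P, ((e * z) / C2) * (1 / ((p : ℝ) * Real.log p)) ≤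
        (Z : ℝ) ^ e := by
      refine le_trans ?_ ((countRad_sum Q C2 (e * z) hC2 (by positivity) (hsum Q hQp) hQp).trans
        (le_of_eq hexp))
      refine Finset.sum_le_sum_of_subset_of_nonneg (Finset.filter_subset _ _) ?_
      intro P hP _
      rw [Finset.mem_powerset] at hP
      refine Finset.prod_nonneg fun p hp => ?_
      have h7 : 0 < Real.log p := Real.log_pos (by exact_mod_cast (hQp p (hP hp)).one_lt)
      have h8 : (0 : ℝ) < C2 := lt_of_lt_of_le one_pos hC2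
      positivity
    have hZe : 0 ≤ (Z : ℝ) ^ e := Real.rpow_nonneg hZ0.le e
    have hfin : (Z : ℝ) ^ ε = (Z : ℝ) ^ e * (Z : ℝ) ^ e * (Z : ℝ) ^ e := by
      rw [← Real.rpow_add hZ0, ← Real.rpow_add hZ0]
      congr 1
      rw [he]
      ring
    rw [hfin]
    calc (Z : ℝ) ^ e * (Y * (C * (Z : ℝ) ^ e)) *
          ∑ P ∈ R, ∏ p ∈ P, ((e * z) / C2) * (1 / ((p : ℝ) * Real.log p))
        ≤ (Z : ℝ) ^ e * (Y * (C * (Z : ℝ) ^ e)) * (Z : ℝ) ^ e :=
          mul_le_mul_of_nonneg_left hsub (by positivity)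
      _ = _ := by ring

end Pool.Agent.Helper44.RO2
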