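import Mathlib
import Pool.Agent.Helper44.RO2.Defs
import Pool.Agent.Helper44.RO2.CountRad

set_option autoImplicit false

open Finset
open Pool.Agent.Helper42.RO

namespace Pool.Agent.Helper44.RO2

private lemma small_pair {t : ℕ × ℕ} (h : Cop t) {Z : ℕ} (hZ : rad (T t) ≤ Z) :
    ∃ k j : Fin 3, k ≠ j ∧
      ((rad (ent t k) * rad (ent t j) : ℕ) : ℝ) ≤ (Z : ℝ) ^ (2 / 3 : ℝ) := by
  obtain ⟨l, hl⟩ := Finite.exists_max (fun i : Fin 3 => rad (ent t i))
  obtain ⟨k, j, h1, h2, h3⟩ : ∃ k j : Fin 3, k ≠ j ∧ l ≠ k ∧ l ≠ j := by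
    clear hl
    revert l
    decide
  refine ⟨k, j, h1, ?_⟩
  have h4 := rad_T h h1 h2 h3
  set x : ℕ := rad (ent t k) * rad (ent t j) with hx
  have h5 : x ≤ rad (ent t l) * rad (ent t l) := Nat.mul_le_mul (hl k) (hl j)
  have h6 : x ^ 3 ≤ Z ^ 2 := by
    calc x ^ 3 = x ^ 2 * x := by ring
      _ ≤ x ^ 2 * (rad (ent t l) * rad (ent t l)) := Nat.mul_le_mul_left _ h5
      _ = (x * rad (ent t l)) ^ 2 := by ring
      _ ≤ Z ^ 2 := by
        rw [← h4]
        exact Nat.pow_le_pow_left hZ 2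
  have h7 : ((x : ℝ)) ^ 3 ≤ (Z : ℝ) ^ 2 := by exact_mod_cast h6
  have h8 : ((x : ℝ) ^ 3) ^ (((3 : ℕ) : ℝ)⁻¹) = x :=
    Real.pow_rpow_inv_natCast (Nat.cast_nonneg _) (by norm_num)
  have h9 : ((Z : ℝ) ^ 2) ^ (((3 : ℕ) : ℝ)⁻¹) = (Z : ℝ) ^ (2 / 3 : ℝ) := by
    rw [← Real.rpow_natCast, ← Real.rpow_mul (Nat.cast_nonneg _)]
    norm_num
  rw [← h8, ← h9]
  exact Real.rpow_le_rpow (by positivity) h7 (by positivity)

private lemma small_eq {t : ℕ × ℕ} (h : Cop t) {k j : Fin 3} (hkj : k ≠ j) :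
    ent t k = ∏ p ∈ (ent t k).primeFactors, p ^ (ent t k * ent t j).factorization p := by
  have h1 : ∏ p ∈ (ent t k).primeFactors, p ^ (ent t k).factorization p = ent t k :=
    Nat.prod_factorization_pow_eq_self (ent_ne h k)
  refine h1.symm.trans (Finset.prod_congr rfl fun p hp => ?_)
  have hp' := Nat.prime_of_mem_primeFactors hp
  rw [Nat.factorization_mul (ent_ne h k) (ent_ne h j), Finsupp.add_apply,
    Nat.factorization_eq_zero_of_not_dvd
      (not_dvd_ent h hkj hp' (Nat.dvd_of_mem_primeFactors hp)), add_zero]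

private lemma small_det {t t' : ℕ × ℕ} (h : Cop t) (h' : Cop t') {k j : Fin 3} (hkj : k ≠ j)
    (hn : ent t k * ent t j = ent t' k * ent t' j)
    (hA : (ent t k).primeFactors = (ent t' k).primeFactors) : t = t' := by
  have h1 : ent t k = ent t' k := by
    rw [small_eq h hkj, small_eq h' hkj, hn, hA]
  have h2 : ent t j = ent t' j := by
    rw [h1] at hn
    exact Nat.eq_of_mul_eq_mul_left (ent_pos h' k) hn
  obtain ⟨a, b⟩ := t
  obtain ⟨a', b'⟩ := t'
  fin_cases k <;> fin_cases j <;> first | exact absurd rfl hkj | skip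
  all_goals
    simp only [Fin.zero_eta, Fin.mk_one, Fin.reduceFinMk, ent_zero, ent_one, ent_two] at h1 h2
    ext <;> simp only <;> omega

private lemma small_fiber {S : Finset (ℕ × ℕ)} (hS : ∀ t ∈ S, Cop t) {k j : Fin 3} (hkj : k ≠ j)
    (n : ℕ) (hn0 : n ≠ 0) :
    (S.filter fun t => ent t k * ent t j = n).card ≤ 2 ^ n.primeFactors.card := by
  rw [← Finset.card_powerset]
  refine Finset.card_le_card_of_injOn (fun t => (ent t k).primeFactors) ?_ ?_
  · intro t ht
    have ht' := Finset.mem_filter.1 (Finset.mem_coe.1 ht)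
    refine Finset.mem_coe.2 (Finset.mem_powerset.2 ?_)
    rw [← ht'.2]
    exact Nat.primeFactors_mono (Dvd.intro _ rfl) (by rw [ht'.2]; exact hn0)
  · intro t ht t' ht' hA
    have h1 := Finset.mem_filter.1 (Finset.mem_coe.1 ht)
    have h2 := Finset.mem_filter.1 (Finset.mem_coe.1 ht')
    exact small_det (hS t h1.1) (hS t' h2.1) hkj (h1.2.trans h2.2.symm) hA

/-- RO2-SM. The pairs with `log c ≤ C1 z ^ 2`.
PROOF. `rad (T t)` is the product of the radicals of the three entries, so for some two entries `k ≠ j`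
(omit the one with the largest radical) `rad (ent t k) * rad (ent t j) ≤ Z ^ (2 / 3) =: Y`. For fixed
`k, j` (9 choices) map `t ↦ n = ent t k * ent t j`: `rad n ≤ Y` (`rad_mul`), `log n ≤ 2 C1 z ^ 2`, so by
`count_rad (2 C1) (ε / 2)` there are at most `C Y Z ^ (ε / 2)` values of `n`. Given `n` the pair
`(ent t k, ent t j)` is determined by the set of primes of `ent t k` (a subset of `n.primeFactors`:
`ent t k = ∏ p ∈ (ent t k).primeFactors, p ^ n.factorization p`), so at most `2 ^ ω(n)`,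
`ω(n) = ω(rad n)`, `pow_omega`; and `(ent t k, ent t j)` determines `t`. -/
theorem small_range (C1 ε : ℝ) (hC : 1 ≤ C1) (hε : 0 < ε) : ∃ C : ℝ, 1 ≤ C ∧
    ∀ Z : ℕ, 1 ≤ Z → ∀ S : Finset (ℕ × ℕ),
    (∀ t ∈ S, Cop t ∧ rad (T t) ≤ Z ∧ Real.log (c t) ≤ C1 * (Real.log Z) ^ 2) →
    (S.card : ℝ) ≤ C * (Z : ℝ) ^ (2 / 3 + ε) := by
  classical
  obtain ⟨Ca, hCa, hcr⟩ := count_rad (2 * C1) (ε / 2) (by linarith) (by positivity)
  obtain ⟨Cb, hCb, hpo⟩ := pow_omega 2 (ε / 2) (by norm_num) (by positivity)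
  have hCa0 : 0 < Ca := lt_of_lt_of_le one_pos hCa
  have hCb0 : 0 < Cb := lt_of_lt_of_le one_pos hCb
  refine ⟨9 * (Ca * Cb), by nlinarith, fun Z hZ S hS => ?_⟩
  have hZ1 : (1 : ℝ) ≤ Z := by exact_mod_cast hZ
  have hZ0 : (0 : ℝ) < Z := lt_of_lt_of_le one_pos hZ1
  set Y : ℝ := (Z : ℝ) ^ (2 / 3 : ℝ) with hY
  have hY1 : 1 ≤ Y := Real.one_le_rpow hZ1 (by norm_num)
  have hYZ : Y ≤ Z := by
    calc Y ≤ (Z : ℝ) ^ (1 : ℝ) := Real.rpow_le_rpow_of_exponent_le hZ1 (by norm_num)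
      _ = Z := Real.rpow_one _
  -- the count for two entries
  have key : ∀ q : Fin 3 × Fin 3, ((S.filter fun t => q.1 ≠ q.2 ∧
      ((rad (ent t q.1) * rad (ent t q.2) : ℕ) : ℝ) ≤ Y).card : ℝ) ≤
      Ca * Cb * (Z : ℝ) ^ (2 / 3 + ε) := by
    rintro ⟨k, j⟩
    by_cases hkj : k = j
    · have h1 : (S.filter fun t => (k, j).1 ≠ (k, j).2 ∧
          ((rad (ent t (k, j).1) * rad (ent t (k, j).2) : ℕ) : ℝ) ≤ Y) = ∅ := by
        refine Finset.filter_eq_empty_iff.2 ?_
        intro t _ h2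
        exact h2.1 hkj
      rw [h1, Finset.card_empty, Nat.cast_zero]
      positivity
    · set S' := S.filter fun t => (k, j).1 ≠ (k, j).2 ∧
          ((rad (ent t (k, j).1) * rad (ent t (k, j).2) : ℕ) : ℝ) ≤ Y with hS'
      have hmem : ∀ t ∈ S', t ∈ S ∧ ((rad (ent t k) * rad (ent t j) : ℕ) : ℝ) ≤ Y := by
        intro t ht
        have h2 := Finset.mem_filter.1 ht
        exact ⟨h2.1, h2.2.2⟩
      set f : ℕ × ℕ → ℕ := fun t => ent t k * ent t j with hf
      have hN : ∀ n ∈ S'.image f, n ≠ 0 ∧ (rad n : ℝ) ≤ Y ∧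
          Real.log n ≤ 2 * C1 * (Real.log Z) ^ 2 := by
        intro n hn
        obtain ⟨t, ht, rfl⟩ := Finset.mem_image.1 hn
        obtain ⟨h1, h2⟩ := hmem t ht
        obtain ⟨h3, h4, h5⟩ := hS t h1
        refine ⟨mul_ne_zero (ent_ne h3 k) (ent_ne h3 j), ?_, ?_⟩
        · rw [hf]
          simp only
          rw [rad_mul (ent_coprime h3 hkj)]
          exact h2
        · rw [hf]
          simp only
          have h6 : (0 : ℝ) < ent t k := by exact_mod_cast ent_pos h3 k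
          have h7 : (0 : ℝ) < ent t j := by exact_mod_cast ent_pos h3 j
          rw [Nat.cast_mul, Real.log_mul h6.ne' h7.ne']
          have h8 := Real.log_le_log h6 (ent_le_c t k)
          have h9 := Real.log_le_log h7 (ent_le_c t j)
          linarith
      have hcard := hcr Z Y hZ hY1 hYZ (S'.image f) hN
      have hfib : ∀ n ∈ S'.image f, ((S'.filter fun t => f t = n).card : ℝ) ≤
          Cb * (Z : ℝ) ^ (ε / 2) := by
        intro n hn
        obtain ⟨h1, h2, -⟩ := hN n hn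
        have h3 := small_fiber (S := S') (fun t ht => (hS t (hmem t ht).1).1) hkj n h1
        have h4 : ((S'.filter fun t => f t = n).card : ℝ) ≤ 2 ^ n.primeFactors.card := by
          exact_mod_cast h3
        refine h4.trans ?_
        have h5 := hpo (rad n) (rad_pos n).ne'
        rw [rad_primeFactors] at h5
        refine h5.trans (mul_le_mul_of_nonneg_left ?_ hCb0.le)
        exact Real.rpow_le_rpow (Nat.cast_nonneg _) (h2.trans hYZ) (by positivity)
      have hsum : (S'.card : ℝ) = ∑ n ∈ S'.image f, ((S'.filter fun t => f t = n).card : ℝ) := by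
        have h1 := Finset.card_eq_sum_card_image f S'
        rw [h1, Nat.cast_sum]
      rw [hsum]
      calc ∑ n ∈ S'.image f, ((S'.filter fun t => f t = n).card : ℝ)
          ≤ ∑ n ∈ S'.image f, Cb * (Z : ℝ) ^ (ε / 2) := Finset.sum_le_sum hfib
        _ = ((S'.image f).card : ℝ) * (Cb * (Z : ℝ) ^ (ε / 2)) := by
          rw [Finset.sum_const, nsmul_eq_mul]
        _ ≤ (Ca * Y * (Z : ℝ) ^ (ε / 2)) * (Cb * (Z : ℝ) ^ (ε / 2)) :=
          mul_le_mul_of_nonneg_right hcard (by positivity)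
        _ = Ca * Cb * (Z : ℝ) ^ (2 / 3 + ε) := by
          have e1 : (Z : ℝ) ^ (2 / 3 + ε) = Y * ((Z : ℝ) ^ (ε / 2) * (Z : ℝ) ^ (ε / 2)) := by
            rw [← Real.rpow_add hZ0, hY, ← Real.rpow_add hZ0]
            congr 1
            ring
          rw [e1]
          ring
  have hcov : S ⊆ (Finset.univ : Finset (Fin 3 × Fin 3)).biUnion fun q =>
      S.filter fun t => q.1 ≠ q.2 ∧ ((rad (ent t q.1) * rad (ent t q.2) : ℕ) : ℝ) ≤ Y := by
    intro t ht
    obtain ⟨h1, h2, -⟩ := hS t ht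
    obtain ⟨k, j, h3, h4⟩ := small_pair h1 h2
    exact Finset.mem_biUnion.2 ⟨(k, j), Finset.mem_univ _, Finset.mem_filter.2 ⟨ht, h3, h4⟩⟩
  have h1 : (S.card : ℝ) ≤ ∑ q : Fin 3 × Fin 3, ((S.filter fun t => q.1 ≠ q.2 ∧
      ((rad (ent t q.1) * rad (ent t q.2) : ℕ) : ℝ) ≤ Y).card : ℝ) := by
    have h2 := (Finset.card_le_card hcov).trans Finset.card_biUnion_le
    exact_mod_cast h2
  refine h1.trans ((Finset.sum_le_sum fun q _ => key q).trans ?_)
  rw [Finset.sum_const, nsmul_eq_mul, Finset.card_univ, Fintype.card_prod, Fintype.card_fin]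
  apply le_of_eq
  push_cast
  ring

end Pool.Agent.Helper44.RO2
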