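import Mathlib
import Pool.Agent.Helper44.RO2.Defs
import Pool.Agent.Helper44.RO2.RLem

set_option autoImplicit false

open Finset
open Pool.Agent.Helper42.RO

namespace Pool.Agent.Helper44.RO2

/-- RO2-MKB. Construction of type (B) representations.
PROOF. `E = ent t k ≥ sqrt 2 > 1`. `rlemma` with `cc = c t` gives `R`, `p0`. Let `l` be the third index,
`N = rad (T t) = rad (ent k) * rad (ent j) * rad (ent l)` (`rad_T`), `rad (ent j) = q * r1`
(`q ∣ rad (ent j)`), `m = (∏ R p) * r1 * rad (ent l)`, `n' = ∏ (primes of ent k outside R)`. Then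
`rad (T t) = m q n'`, `n' ∣ rad (ent k) ∣ ent k`, the primes of `m` dividing `ent k` are those of `R`, so
`part m (ent t k) = ∏ R p ^ v_p` (other primes of `m` have valuation `0` in `ent t k`; `≥` is enough).
`m * q * rad (ent k) = (∏ R p) * rad (T t) ≤ p0 * Z ^ (4 η) * rad (T t)`. -/
theorem mkB {t : ℕ × ℕ} (ht : Cop t) (η : ℝ) (h0 : 0 < η) (hη : η ≤ 1 / 4) (Z : ℝ)
    (hZ : (rad (T t) : ℝ) ≤ Z) {k j : Fin 3} (hkj : k ≠ j)
    (hE : (c t) ^ (1 / 2 : ℝ) ≤ (ent t k : ℝ)) {q : ℕ} (hq : q.Prime) (hqj : q ∣ ent t j) :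
    ∃ m p0 : ℕ, m ≠ 0 ∧ p0.Prime ∧ p0 ∣ ent t k ∧ TyB η k j m q t ∧
      (m : ℝ) * q * rad (ent t k) ≤ p0 * Z ^ (4 * η) * rad (T t) := by
  classical
  set E := ent t k with hEdef
  obtain ⟨l, hl1, hl2⟩ := exists_third k j hkj
  have hc2 : 2 ≤ c t := ht.two_le_c
  have hc1 : 1 < c t := by linarith
  have hE1r : (1 : ℝ) < (E : ℝ) :=
    lt_of_lt_of_le (Real.one_lt_rpow hc1 (by norm_num)) hE
  have hE1 : 1 < E := by exact_mod_cast hE1r
  have hE0 : E ≠ 0 := by omega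
  have hradT := rad_T ht hkj hl1 hl2
  rw [← hEdef] at hradT
  have hradE : rad E ≤ rad (T t) := by
    apply Nat.le_of_dvd (rad_pos _)
    rw [hradT, mul_assoc]
    exact Dvd.intro _ rfl
  have hZ' : (rad E : ℝ) ≤ Z := le_trans (by exact_mod_cast hradE) hZ
  obtain ⟨R, hR, p0, hp0, hR1, hR2⟩ := rlemma E hE1 (c t) hc1 η h0 hη hE Z hZ'
  have hRp : ∀ p ∈ R, p.Prime := fun p hp => Nat.prime_of_mem_primeFactors (hR hp)
  -- the factor `q` of the radical of the entry `j`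
  have hqr : q ∣ rad (ent t j) := by
    unfold rad
    exact Finset.dvd_prod_of_mem _ (Nat.mem_primeFactors.2 ⟨hq, hqj, ent_ne ht j⟩)
  obtain ⟨r1, hr1⟩ := hqr
  have hr1pos : r1 ≠ 0 := by
    rintro rfl
    rw [mul_zero] at hr1
    exact (rad_pos _).ne' hr1
  set P : ℕ := ∏ p ∈ R, p with hP
  have hPpos : P ≠ 0 := Finset.prod_ne_zero_iff.2 fun p hp => (hRp p hp).ne_zero
  set n' : ℕ := ∏ p ∈ E.primeFactors \ R, p with hn'
  have hPn : P * n' = rad E := by
    rw [hP, hn', mul_comm, rad]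
    exact Finset.prod_sdiff hR
  set m : ℕ := P * r1 * rad (ent t l) with hm
  have hm0 : m ≠ 0 := mul_ne_zero (mul_ne_zero hPpos hr1pos) (rad_pos _).ne'
  have hRm : R ⊆ m.primeFactors := by
    intro p hp
    refine Nat.mem_primeFactors.2 ⟨hRp p hp, ?_, hm0⟩
    rw [hm, mul_assoc]
    exact Dvd.dvd.mul_right (Finset.dvd_prod_of_mem _ hp) _
  refine ⟨m, p0, hm0, hRp p0 hp0, Nat.dvd_of_mem_primeFactors (hR hp0), ?_, ?_⟩
  · refine ⟨hkj, hq, hqj, ⟨n', ?_, ?_⟩, ?_⟩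
    · rw [hradT, hr1, ← hPn, hm]
      ring
    · refine dvd_trans ?_ (rad_dvd E)
      rw [← hPn]
      exact Dvd.intro_left _ rfl
    · refine le_trans hR1 ?_
      have : (∏ p ∈ R, p ^ E.factorization p) ≤ part m E := by
        unfold part
        exact Finset.prod_le_prod_of_subset_of_one_le' hRm fun p hp _ =>
          Nat.one_le_iff_ne_zero.2 (pow_ne_zero _ (Nat.prime_of_mem_primeFactors hp).ne_zero)
      exact_mod_cast this
  · have h1 : m * q * rad E = P * rad (T t) := by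
      rw [hradT, hr1, hm]
      ring
    have h2 : (m : ℝ) * q * rad E = (P : ℝ) * rad (T t) := by exact_mod_cast h1
    rw [h2]
    exact mul_le_mul_of_nonneg_right hR2 (Nat.cast_nonneg _)

end Pool.Agent.Helper44.RO2
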