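import Mathlib
import Pool.Agent.Helper44.RO2.Defs

set_option autoImplicit false

open Finset
open Pool.Agent.Helper42.RO

namespace Pool.Agent.Helper44.RO2

/-- RO2-ST1. The largest prime of the radical and its entry.
PROOF. `T t > 1`, so it has a largest prime factor; `prime_dvd_T`. -/
theorem exists_largest {t : ℕ × ℕ} (ht : Cop t) : ∃ (G : Fin 3) (q : ℕ), q.Prime ∧ q ∣ ent t G ∧
    ∀ (k : Fin 3) (p : ℕ), p.Prime → p ∣ ent t k → p ≤ q := by
  have h1 := ht.pos1
  have h2 := ht.pos2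
  have hT : 2 ≤ T t := by
    unfold T
    have h3 : 1 * 1 ≤ t.1 * t.2 := Nat.mul_le_mul h1 h2
    have h4 : 2 ≤ t.1 + t.2 := by omega
    calc 2 = 1 * 1 * 2 := rfl
      _ ≤ t.1 * t.2 * (t.1 + t.2) := Nat.mul_le_mul h3 h4
  have hne : (T t).primeFactors.Nonempty := Nat.nonempty_primeFactors.2 (by omega)
  have hmem := (T t).primeFactors.max'_mem hne
  have hq : ((T t).primeFactors.max' hne).Prime := Nat.prime_of_mem_primeFactors hmem
  obtain ⟨G, hG⟩ := prime_dvd_T hq (Nat.dvd_of_mem_primeFactors hmem)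
  refine ⟨G, _, hq, hG, fun k p hp hk => ?_⟩
  apply Finset.le_max'
  rw [Nat.mem_primeFactors]
  exact ⟨hp, hk.trans (ent_dvd_T t k), ht.T_ne⟩

/-- RO2-ST2. A small entry with large radical gives type (A).
PROOF. `n1 = rad (ent t k)` divides `rad (T t)` and `part n1 (T t) = ent t k < (c t) ^ (1 / 2) ≤
(c t) ^ (1 - η)` (`fact_T`, `rad_primeFactors`, `c t ≥ 1`). -/
theorem small_entry {t : ℕ × ℕ} (ht : Cop t) (η : ℝ) (hη : η ≤ 1 / 4) (k : Fin 3)
    (hk : (ent t k : ℝ) < (c t) ^ (1 / 2 : ℝ)) :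
    rad (ent t k) ∣ rad (T t) ∧ (part (rad (ent t k)) (T t) : ℝ) ≤ (c t) ^ (1 - η) := by
  constructor
  · exact prod_dvd_of_subset (Nat.primeFactors_mono (ent_dvd_T t k) ht.T_ne)
  · have h1 : part (rad (ent t k)) (T t) = ent t k := by
      unfold part
      rw [rad_primeFactors]
      have h2 : ∏ p ∈ (ent t k).primeFactors, p ^ (T t).factorization p =
          ∏ p ∈ (ent t k).primeFactors, p ^ (ent t k).factorization p := by
        refine Finset.prod_congr rfl fun p hp => ?_
        rw [fact_T ht (Nat.prime_of_mem_primeFactors hp) (Nat.dvd_of_mem_primeFactors hp)]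
      rw [h2]
      exact Nat.prod_factorization_pow_eq_self (ent_ne ht k)
    rw [h1]
    refine hk.le.trans ?_
    apply Real.rpow_le_rpow_of_exponent_le
    · linarith [ht.two_le_c]
    · linarith

end Pool.Agent.Helper44.RO2
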