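import Mathlib
import Pool.Agent.Helper44.RO2.Defs
import Pool.Agent.Helper44.RO2.MkB
import Pool.Agent.Helper44.RO2.ST1

set_option autoImplicit false

open Finset
open Pool.Agent.Helper42.RO

namespace Pool.Agent.Helper44.RO2

private lemma ST2_cube (z : ℝ) (hz : 0 < z) (η : ℝ) :
    (z ^ (1 / 3 : ℝ)) ^ 3 = z ∧ z ^ (2 / 3 + 4 * η) = (z ^ (1 / 3 : ℝ)) ^ 2 * z ^ (4 * η) := by
  constructor
  · rw [← Real.rpow_natCast, ← Real.rpow_mul hz.le]
    norm_num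
  · rw [Real.rpow_add hz, ← Real.rpow_natCast, ← Real.rpow_mul hz.le]
    norm_num

/-- the largest prime dividing one of two entries -/
private lemma ST2_largest {t : ℕ × ℕ} (ht : Cop t) (k U : Fin 3) (hk : 1 < ent t k) :
    ∃ (j : Fin 3) (q : ℕ), (j = k ∨ j = U) ∧ q.Prime ∧ q ∣ ent t j ∧
      ∀ p : ℕ, p.Prime → p ∣ ent t k → p ≤ q := by
  have h0 : ent t k * ent t U ≠ 0 := mul_ne_zero (ent_ne ht k) (ent_ne ht U)
  have hge : 2 ≤ ent t k * ent t U :=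
    le_trans hk (Nat.le_mul_of_pos_right _ (ent_pos ht U))
  have hne : (ent t k * ent t U).primeFactors.Nonempty := Nat.nonempty_primeFactors.2 (by omega)
  have hmem := (ent t k * ent t U).primeFactors.max'_mem hne
  have hq := Nat.prime_of_mem_primeFactors hmem
  have hmax : ∀ p : ℕ, p.Prime → p ∣ ent t k →
      p ≤ (ent t k * ent t U).primeFactors.max' hne := by
    intro p hp hpk
    apply Finset.le_max'
    rw [Nat.mem_primeFactors]
    exact ⟨hp, hpk.mul_right _, h0⟩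
  rcases (Nat.Prime.dvd_mul hq).1 (Nat.dvd_of_mem_primeFactors hmem) with h | h
  · exact ⟨k, _, Or.inl rfl, hq, h, hmax⟩
  · exact ⟨U, _, Or.inr rfl, hq, h, hmax⟩

/-- RO2-ST3. Structure of all pairs with `c ≥ 3`.
PROOF. Write `ν k = rad (ent t k)`, `N = rad (T t) = ν 0 ν 1 ν 2 ≤ Z`; `k` is allowed if
`(c t) ^ (1 / 2) ≤ ent t k`; at most one index is not allowed (`allowed_of_small`). If a not allowed `k`
has `ν k ≥ Z ^ (1 / 3)` use `small_entry` (first alternative). Otherwise let `(G, q)` be from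
`exists_largest`.
(1) For `k ≠ G` allowed `mkB` with `j = G` gives `m * q * ν k ≤ p0 Z ^ (4 η) N` and `p0 ≤ q`, so
`m ≤ Z ^ (4 η) N / ν k`. If `ν k ≥ Z ^ (1 / 3)` this is `≤ Z ^ (2 / 3 + 4 η)`.
(2) So assume `ν k < Z ^ (1 / 3)` for all `k ≠ G` (allowed: by (1); not allowed: by the first step). If
`G` is not allowed then `ν G < Z ^ (1 / 3)`, and for `k ≠ G` (allowed) and the third index `U`:
`m ≤ Z ^ (4 η) N / ν k = Z ^ (4 η) ν G ν U ≤ Z ^ (2 / 3 + 4 η)`.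
(3) If `G` is allowed choose `k ≠ G` allowed, `U` the third index (`ν U < Z ^ (1 / 3)`). `ent t k > 1` (it
is at least `sqrt 3`). Let `q'` be the largest prime dividing `ent t k * ent t U`, `j'` its index (`k` or
`U`). `mkB` for `(G, j', q')`: `m1 q' ν G ≤ p1 Z ^ (4 η) N ≤ q Z ^ (4 η) N`. `mkB` for `(k, G, q)`:
`m2 q ν k ≤ p2 Z ^ (4 η) N ≤ q' Z ^ (4 η) N` (`p2 ∣ ent t k`, so `p2 ≤ q'`). Multiply:
`m1 m2 ν G ν k ≤ Z ^ (8 η) N ^ 2`, i.e. `m1 m2 ≤ Z ^ (8 η) N ν U ≤ (Z ^ (2 / 3 + 4 η)) ^ 2`. -/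
theorem structure_thm {t : ℕ × ℕ} (ht : Cop t) (hc : 3 ≤ t.1 + t.2) (η : ℝ) (h0 : 0 < η)
    (hη : η ≤ 1 / 4) (Z : ℕ) (hZ : rad (T t) ≤ Z) :
    (∃ n1 : ℕ, n1 ∣ rad (T t) ∧ (Z : ℝ) ^ (1 / 3 : ℝ) ≤ n1 ∧
      (part n1 (T t) : ℝ) ≤ (c t) ^ (1 - η)) ∨
    ∃ (k j : Fin 3) (m q : ℕ), m ≠ 0 ∧ TyB η k j m q t ∧ (m : ℝ) ≤ (Z : ℝ) ^ (2 / 3 + 4 * η) := by
  have hZ1 : (1 : ℝ) ≤ Z := by
    have h1 : 1 ≤ Z := le_trans (rad_pos (T t)) hZ
    exact_mod_cast h1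
  have hz0 : (0 : ℝ) < Z := by linarith
  have hZr : (rad (T t) : ℝ) ≤ Z := by exact_mod_cast hZ
  obtain ⟨hw3, htar⟩ := ST2_cube (Z : ℝ) hz0 η
  rw [htar]
  have hw0 : 0 < (Z : ℝ) ^ (1 / 3 : ℝ) := Real.rpow_pos_of_pos hz0 _
  have he0 : 0 < (Z : ℝ) ^ (4 * η) := Real.rpow_pos_of_pos hz0 _
  have hmk := fun (k j : Fin 3) (hkj : k ≠ j) (hE : (c t) ^ (1 / 2 : ℝ) ≤ (ent t k : ℝ)) (q : ℕ)
    (hq : q.Prime) (hqj : q ∣ ent t j) => mkB ht η h0 hη (Z : ℝ) hZr hkj hE hq hqj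
  generalize (Z : ℝ) ^ (4 * η) = e at *
  generalize (Z : ℝ) ^ (1 / 3 : ℝ) = w at *
  have hν : ∀ k, (0 : ℝ) < rad (ent t k) := fun k => by exact_mod_cast rad_pos (ent t k)
  -- small entries
  by_cases hsm : ∃ k, (ent t k : ℝ) < (c t) ^ (1 / 2 : ℝ) ∧ w ≤ rad (ent t k)
  · obtain ⟨k, hk, hk'⟩ := hsm
    obtain ⟨h1, h2⟩ := small_entry ht η hη k hk
    exact Or.inl ⟨rad (ent t k), h1, hk', h2⟩
  right
  push Not at hsm
  obtain ⟨G, q, hq, hqG, hmax⟩ := exists_largest ht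
  have hq0 : (0 : ℝ) < q := by exact_mod_cast hq.pos
  -- the first estimate
  have hfirst : ∀ k, k ≠ G → (c t) ^ (1 / 2 : ℝ) ≤ (ent t k : ℝ) →
      ∃ m : ℕ, m ≠ 0 ∧ TyB η k G m q t ∧ (m : ℝ) * rad (ent t k) ≤ e * rad (T t) := by
    intro k hk hE
    obtain ⟨m, p0, hm, hp0, hp0k, hB, hle⟩ := hmk k G hk hE q hq hqG
    refine ⟨m, hm, hB, ?_⟩
    have h1 : (p0 : ℝ) ≤ q := by exact_mod_cast hmax k p0 hp0 hp0k
    have h2 : (p0 : ℝ) * e * rad (T t) ≤ q * (e * rad (T t)) := by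
      rw [mul_assoc]
      exact mul_le_mul_of_nonneg_right h1 (by positivity)
    have h3 : q * ((m : ℝ) * rad (ent t k)) ≤ q * (e * rad (T t)) := by
      refine le_trans (le_of_eq ?_) (hle.trans h2)
      ring
    exact le_of_mul_le_mul_left h3 hq0
  by_cases hbig : ∃ k, k ≠ G ∧ (c t) ^ (1 / 2 : ℝ) ≤ (ent t k : ℝ) ∧ w ≤ rad (ent t k)
  · obtain ⟨k, hk, hE, hwk⟩ := hbig
    obtain ⟨m, hm, hB, hle⟩ := hfirst k hk hE
    refine ⟨k, G, m, q, hm, hB, ?_⟩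
    have h1 : (m : ℝ) * w ≤ m * rad (ent t k) := mul_le_mul_of_nonneg_left hwk (Nat.cast_nonneg _)
    have h2 : e * (rad (T t) : ℝ) ≤ e * Z := mul_le_mul_of_nonneg_left hZr he0.le
    have h3 : (m : ℝ) * w ≤ (w ^ 2 * e) * w := by
      calc (m : ℝ) * w ≤ e * Z := (h1.trans hle).trans h2
        _ = (w ^ 2 * e) * w := by rw [← hw3]; ring
    exact le_of_mul_le_mul_right h3 hw0
  push Not at hbig
  have hlt : ∀ k, k ≠ G → (rad (ent t k) : ℝ) < w := by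
    intro k hk
    rcases lt_or_ge (ent t k : ℝ) ((c t) ^ (1 / 2 : ℝ)) with h1 | h1
    · exact hsm k h1
    · exact hbig k hk h1
  by_cases hG : (ent t G : ℝ) < (c t) ^ (1 / 2 : ℝ)
  · obtain ⟨k, hk⟩ := exists_other G
    obtain ⟨U, hU1, hU2⟩ := exists_third G k hk
    have hE := allowed_of_small ht hc hk hG
    obtain ⟨m, hm, hB, hle⟩ := hfirst k hk.symm hE
    refine ⟨k, G, m, q, hm, hB, ?_⟩
    have hN := rad_T ht hk.symm hU2 hU1
    have hN' : (rad (T t) : ℝ) = rad (ent t k) * rad (ent t G) * rad (ent t U) := by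
      exact_mod_cast hN
    have h1 : (rad (ent t G) : ℝ) ≤ w := (hsm G hG).le
    have h2 : (rad (ent t U) : ℝ) ≤ w := (hlt U hU1).le
    have h3 : (rad (ent t G) : ℝ) * rad (ent t U) ≤ w * w :=
      mul_le_mul h1 h2 (hν U).le hw0.le
    have h4 : rad (ent t k) * (m : ℝ) ≤ rad (ent t k) * (w ^ 2 * e) := by
      calc rad (ent t k) * (m : ℝ) = (m : ℝ) * rad (ent t k) := mul_comm _ _
        _ ≤ e * rad (T t) := hle
        _ = (rad (ent t k) * e) * (rad (ent t G) * rad (ent t U)) := by rw [hN']; ring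
        _ ≤ (rad (ent t k) * e) * (w * w) :=
          mul_le_mul_of_nonneg_left h3 (mul_nonneg (hν k).le he0.le)
        _ = rad (ent t k) * (w ^ 2 * e) := by ring
    exact le_of_mul_le_mul_left h4 (hν k)
  rw [not_lt] at hG
  -- an allowed index different from `G`
  obtain ⟨k, hk, hE⟩ : ∃ k, k ≠ G ∧ (c t) ^ (1 / 2 : ℝ) ≤ (ent t k : ℝ) := by
    obtain ⟨k1, hk1⟩ := exists_other G
    rcases lt_or_ge (ent t k1 : ℝ) ((c t) ^ (1 / 2 : ℝ)) with h1 | h1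
    · obtain ⟨k2, hk2, hk2'⟩ := exists_third G k1 hk1
      exact ⟨k2, hk2, allowed_of_small ht hc hk2'.symm h1⟩
    · exact ⟨k1, hk1.symm, h1⟩
  obtain ⟨U, hU1, hU2⟩ := exists_third k G hk
  have hk1 : 1 < ent t k := by
    have h1 : (1 : ℝ) < c t := by linarith [ht.two_le_c]
    have h2 : (1 : ℝ) < (ent t k : ℝ) := lt_of_lt_of_le (Real.one_lt_rpow h1 (by norm_num)) hE
    exact_mod_cast h2
  obtain ⟨j', q', hj', hq', hq'j, hmax'⟩ := ST2_largest ht k U hk1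
  have hGj : G ≠ j' := by
    rcases hj' with rfl | rfl
    · exact hk.symm
    · exact hU2.symm
  obtain ⟨m1, p1, hm1, hp1, hp1G, hB1, hle1⟩ := hmk G j' hGj hG q' hq' hq'j
  obtain ⟨m2, p2, hm2, hp2, hp2k, hB2, hle2⟩ := hmk k G hk hE q hq hqG
  have hp1q : (p1 : ℝ) ≤ q := by exact_mod_cast hmax G p1 hp1 hp1G
  have hp2q : (p2 : ℝ) ≤ q' := by exact_mod_cast hmax' p2 hp2 hp2k
  have hq'0 : (0 : ℝ) < q' := by exact_mod_cast hq'.pos
  have hN := rad_T ht hk hU1 hU2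
  have hN' : (rad (T t) : ℝ) = rad (ent t k) * rad (ent t G) * rad (ent t U) := by
    exact_mod_cast hN
  have hνk := hν k
  have hνG := hν G
  have hνU := hν U
  have hwU : (rad (ent t U) : ℝ) ≤ w := (hlt U hU2).le
  have hm1' : (0 : ℝ) ≤ m1 := Nat.cast_nonneg _
  have hm2' : (0 : ℝ) ≤ m2 := Nat.cast_nonneg _
  have hNpos : (0 : ℝ) ≤ rad (T t) := Nat.cast_nonneg _
  have hle1' : (m1 : ℝ) * q' * rad (ent t G) ≤ q * e * rad (T t) := by
    refine hle1.trans ?_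
    exact mul_le_mul_of_nonneg_right (mul_le_mul_of_nonneg_right hp1q he0.le) hNpos
  have hle2' : (m2 : ℝ) * q * rad (ent t k) ≤ q' * e * rad (T t) := by
    refine hle2.trans ?_
    exact mul_le_mul_of_nonneg_right (mul_le_mul_of_nonneg_right hp2q he0.le) hNpos
  have hprod : ((m1 : ℝ) * q' * rad (ent t G)) * ((m2 : ℝ) * q * rad (ent t k)) ≤
      (q * e * rad (T t)) * (q' * e * rad (T t)) :=
    mul_le_mul hle1' hle2' (by positivity) (by positivity)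
  generalize hNN : (rad (T t) : ℝ) = N at *
  generalize (rad (ent t k) : ℝ) = a at *
  generalize (rad (ent t G) : ℝ) = b at *
  generalize (rad (ent t U) : ℝ) = u at *
  have h1 : (q * q' * (a * b)) * ((m1 : ℝ) * m2) ≤ (q * q' * (a * b)) * (e ^ 2 * N * u) := by
    calc (q * q' * (a * b)) * ((m1 : ℝ) * m2)
        = (m1 * q' * b) * (m2 * q * a) := by ring
      _ ≤ (q * e * N) * (q' * e * N) := hprod
      _ = (q * q' * (a * b)) * (e ^ 2 * N * u) := by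
        have h2 : (q * e * N) * (q' * e * N) = (q * q' * (e ^ 2 * N)) * N := by ring
        rw [h2]
        nth_rewrite 2 [hN']
        ring
  have h2 : (m1 : ℝ) * m2 ≤ e ^ 2 * N * u := le_of_mul_le_mul_left h1 (by positivity)
  have h3 : e ^ 2 * N * u ≤ (w ^ 2 * e) ^ 2 := by
    have h4 : N * u ≤ Z * w := mul_le_mul hZr hwU hνU.le hz0.le
    calc e ^ 2 * N * u = e ^ 2 * (N * u) := by ring
      _ ≤ e ^ 2 * (Z * w) := mul_le_mul_of_nonneg_left h4 (by positivity)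
      _ = (w ^ 2 * e) ^ 2 := by rw [← hw3]; ring
  rcases le_or_gt (m1 : ℝ) (w ^ 2 * e) with h4 | h4
  · exact ⟨G, j', m1, q', hm1, hB1, h4⟩
  · rcases le_or_gt (m2 : ℝ) (w ^ 2 * e) with h5 | h5
    · exact ⟨k, G, m2, q, hm2, hB2, h5⟩
    · exfalso
      have h6 : (w ^ 2 * e) * (w ^ 2 * e) < m1 * m2 :=
        mul_lt_mul'' h4 h5 (by positivity) (by positivity)
      nlinarith

end Pool.Agent.Helper44.RO2
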