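import Mathlib
import Pool.Agent.Helper44.RO2.Defs
import Pool.Agent.Helper44.RO2.CB
import Pool.Agent.Helper44.RO2.ST2
import Pool.Agent.Helper44.RO2.Small

set_option autoImplicit false

open Finset
open Pool.Agent.Helper42.RO

namespace Pool.Agent.Helper44.RO2

/-- The uniform bound for the number of pairs of bounded radical and height. -/
theorem uniform_bound (ε : ℝ) (hε : 0 < ε) : ∃ C : ℝ, 1 ≤ C ∧ ∀ (Z : ℕ) (Λ : ℝ), 1 ≤ Z → 1 ≤ Λ →
    ∀ S : Finset (ℕ × ℕ), (∀ t ∈ S, Cop t ∧ rad (T t) ≤ Z ∧ Real.log (c t) ≤ Λ) →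
    (S.card : ℝ) ≤ C * (Z : ℝ) ^ (2 / 3 + ε) * Λ ^ (1 + ε) := by
  classical
  set η : ℝ := min (1 / 4) (ε / 16) with hη
  have hη0 : 0 < η := lt_min (by norm_num) (by positivity)
  have hη1 : η ≤ 1 / 4 := min_le_left _ _
  have hη2 : η ≤ ε / 16 := min_le_right _ _
  obtain ⟨CB, C1, Z0, hCB, hC1, hB⟩ := countB η (ε / 4) hη0 (by linarith) (by positivity)
  obtain ⟨CS, hCS, hS⟩ := small_range C1 ε hC1 hε
  obtain ⟨CA, hCA, hA⟩ := caseA η (1 / 3) ε hη0 (by linarith) (by norm_num) (by norm_num) hε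
  obtain ⟨CR, hCR, hR⟩ := smallRad ε hε
  set Z1 : ℕ := max Z0 5 with hZ1
  have hZ1pos : (1 : ℝ) ≤ (Z1 : ℝ) := by
    have : 1 ≤ Z1 := le_trans (by norm_num) (le_max_right Z0 5)
    exact_mod_cast this
  have hP1 : (1 : ℝ) ≤ (Z1 : ℝ) ^ (1 + ε) := Real.one_le_rpow hZ1pos (by linarith)
  refine ⟨CR * (Z1 : ℝ) ^ (1 + ε) + CS + CA + CB, by nlinarith, ?_⟩
  intro Z Λ hZ hΛ S hSt
  have hZr : (1 : ℝ) ≤ (Z : ℝ) := by exact_mod_cast hZ
  have hZ0r : (0 : ℝ) < (Z : ℝ) := by linarith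
  have hΛ0 : (0 : ℝ) < Λ := by linarith
  have hA1 : (1 : ℝ) ≤ (Z : ℝ) ^ (2 / 3 + ε) := Real.one_le_rpow hZr (by linarith)
  have hA2 : (1 : ℝ) ≤ Λ ^ (1 + ε) := Real.one_le_rpow hΛ (by linarith)
  have hlogΛ : 1 + Real.log Λ ≤ Λ ^ (1 + ε) := by
    have h1 := Real.log_le_sub_one_of_pos hΛ0
    have h2 : Λ ≤ Λ ^ (1 + ε) := by
      conv_lhs => rw [← Real.rpow_one Λ]
      exact Real.rpow_le_rpow_of_exponent_le hΛ (by linarith)
    linarith
  have hlogΛ0 : 0 ≤ 1 + Real.log Λ := by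
    have := Real.log_nonneg hΛ
    linarith
  set W : ℝ := (Z : ℝ) ^ (2 / 3 + ε) * Λ ^ (1 + ε) with hW
  have hW1 : 1 ≤ W := one_le_mul_of_one_le_of_one_le hA1 hA2
  rw [mul_assoc, ← hW]
  rcases Nat.lt_or_ge Z Z1 with hlt | hge
  · have h1 := hR (Z1 : ℝ) Λ hZ1pos hΛ S (fun t ht => by
      obtain ⟨h1, h2, h3⟩ := hSt t ht
      refine ⟨h1, h3, ?_⟩
      have : rad (T t) ≤ Z1 := h2.trans hlt.le
      exact_mod_cast this)
    have h2 : CR * (Z1 : ℝ) ^ (1 + ε) * (1 + Real.log Λ) ≤ CR * (Z1 : ℝ) ^ (1 + ε) * W := by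
      apply mul_le_mul_of_nonneg_left _ (by positivity)
      calc 1 + Real.log Λ ≤ 1 * Λ ^ (1 + ε) := by rw [one_mul]; exact hlogΛ
        _ ≤ (Z : ℝ) ^ (2 / 3 + ε) * Λ ^ (1 + ε) := by
            apply mul_le_mul_of_nonneg_right hA1 (by positivity)
    have h3 : 0 ≤ (CS + CA + CB) * W := by positivity
    calc (S.card : ℝ) ≤ CR * (Z1 : ℝ) ^ (1 + ε) * (1 + Real.log Λ) := h1
      _ ≤ CR * (Z1 : ℝ) ^ (1 + ε) * W := h2
      _ ≤ (CR * (Z1 : ℝ) ^ (1 + ε) + CS + CA + CB) * W := by nlinarith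
  · have hZ5 : 5 ≤ Z := (le_max_right Z0 5).trans hge
    have hZZ0 : Z0 ≤ Z := (le_max_left Z0 5).trans hge
    have hlogZ : 1.6 ≤ Real.log Z := by
      have h1 : Real.log 5 ≤ Real.log Z := Real.log_le_log (by norm_num) (by exact_mod_cast hZ5)
      have h2 : (1.6 : ℝ) ≤ Real.log 5 := by
        have := Real.log_five_gt_d9
        linarith
      linarith
    set S1 := S.filter (fun t => Real.log (c t) ≤ C1 * (Real.log Z) ^ 2) with hS1
    set S2 := S.filter (fun t => ∃ n1 : ℕ, n1 ∣ rad (T t) ∧ (Z : ℝ) ^ (1 / 3 : ℝ) ≤ n1 ∧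
      (part n1 (T t) : ℝ) ≤ (c t) ^ (1 - η)) with hS2
    set PB : ℕ → ℕ × ℕ → Prop := fun m t => C1 * (Real.log Z) ^ 2 ≤ Real.log (c t) ∧
      ∃ (k j : Fin 3) (q : ℕ), TyB η k j m q t with hPB
    set Ms : Finset ℕ := (Icc 1 Z).filter (fun m : ℕ => (m : ℝ) ≤ (Z : ℝ) ^ (2 / 3 + 4 * η))
      with hMs
    have hsub : S ⊆ S1 ∪ (S2 ∪ Ms.biUnion fun m => S.filter (PB m)) := by
      intro t ht
      obtain ⟨hc, hr, hl⟩ := hSt t ht
      rw [mem_union, mem_union, mem_biUnion]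
      by_cases h1 : Real.log (c t) ≤ C1 * (Real.log Z) ^ 2
      · left
        exact mem_filter.2 ⟨ht, h1⟩
      · right
        push Not at h1
        have h3 : 3 ≤ t.1 + t.2 := by
          by_contra hcon
          have h4 : t.1 + t.2 ≤ 2 := by omega
          have h5 : c t ≤ 2 := by
            unfold c
            exact_mod_cast h4
          have h6 : Real.log (c t) ≤ Real.log 2 := Real.log_le_log hc.c_pos h5
          have h7 := Real.log_two_lt_d9
          have h8 : (1 : ℝ) ≤ C1 * (Real.log Z) ^ 2 := by nlinarith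
          linarith
        rcases structure_thm hc h3 η hη0 hη1 Z hr with h | ⟨k, j, m, q, hm0, hB', hm⟩
        · left
          exact mem_filter.2 ⟨ht, h⟩
        · right
          have hmr : m ≤ Z := by
            obtain ⟨-, -, -, ⟨n', hn', -⟩, -⟩ := hB'
            have h4 : m ∣ rad (T t) := ⟨q * n', by rw [hn']; ring⟩
            exact (Nat.le_of_dvd (rad_pos _) h4).trans hr
          exact ⟨m, mem_filter.2 ⟨mem_Icc.2 ⟨Nat.one_le_iff_ne_zero.2 hm0, hmr⟩, hm⟩,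
            mem_filter.2 ⟨ht, h1.le, k, j, q, hB'⟩⟩
    have hcard : (S.card : ℝ) ≤ S1.card + (S2.card + ∑ m ∈ Ms, ((S.filter (PB m)).card : ℝ)) := by
      have h1 : S.card ≤ S1.card + (S2.card + ∑ m ∈ Ms, (S.filter (PB m)).card) := by
        refine (card_le_card hsub).trans ((card_union_le _ _).trans ?_)
        refine Nat.add_le_add_left ((card_union_le _ _).trans ?_) _
        exact Nat.add_le_add_left card_biUnion_le _
      exact_mod_cast h1
    have b1 : (S1.card : ℝ) ≤ CS * W := by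
      have h1 := hS Z hZ S1 (fun t ht => by
        rw [hS1, mem_filter] at ht
        obtain ⟨h1, h2, -⟩ := hSt t ht.1
        exact ⟨h1, h2, ht.2⟩)
      refine h1.trans ?_
      apply mul_le_mul_of_nonneg_left _ (by linarith)
      rw [hW]
      exact le_mul_of_one_le_right (by positivity) hA2
    have b2 : (S2.card : ℝ) ≤ CA * W := by
      have h1 := hA Z Λ hZ hΛ S2 (fun t ht => by
        rw [hS2, mem_filter] at ht
        obtain ⟨h1, h2, h3⟩ := hSt t ht.1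
        exact ⟨h1, h3, h2, ht.2⟩)
      refine h1.trans ?_
      rw [mul_assoc]
      apply mul_le_mul_of_nonneg_left _ (by linarith)
      rw [hW]
      have h2 : (1 : ℝ) - 1 / 3 + ε = 2 / 3 + ε := by ring
      rw [h2]
      exact mul_le_mul_of_nonneg_left hlogΛ (by positivity)
    have b3 : ∑ m ∈ Ms, ((S.filter (PB m)).card : ℝ) ≤ CB * W := by
      have h1 : ∀ m ∈ Ms, ((S.filter (PB m)).card : ℝ) ≤
          CB * (Z : ℝ) ^ (ε / 4) * Λ ^ (1 + ε / 4) := by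
        intro m hm
        rw [hMs, mem_filter, mem_Icc] at hm
        refine hB Z m Λ hZZ0 (by omega) hm.1.2 hΛ _ (fun t ht => ?_)
        rw [mem_filter] at ht
        obtain ⟨h1, h2, h3⟩ := hSt t ht.1
        exact ⟨h1, h2, ht.2.1, h3, ht.2.2⟩
      have h2 : (Ms.card : ℝ) ≤ (Z : ℝ) ^ (2 / 3 + 4 * η) := by
        have h3 : Ms ⊆ Icc 1 ⌊(Z : ℝ) ^ (2 / 3 + 4 * η)⌋₊ := by
          intro m hm
          rw [hMs, mem_filter, mem_Icc] at hm
          exact mem_Icc.2 ⟨hm.1.1, Nat.le_floor hm.2⟩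
        have h4 := card_le_card h3
        rw [Nat.card_Icc, Nat.add_sub_cancel] at h4
        refine le_trans ?_ (Nat.floor_le (by positivity : (0 : ℝ) ≤ (Z : ℝ) ^ (2 / 3 + 4 * η)))
        exact_mod_cast h4
      calc ∑ m ∈ Ms, ((S.filter (PB m)).card : ℝ)
          ≤ ∑ _m ∈ Ms, CB * (Z : ℝ) ^ (ε / 4) * Λ ^ (1 + ε / 4) := sum_le_sum h1
        _ = Ms.card * (CB * (Z : ℝ) ^ (ε / 4) * Λ ^ (1 + ε / 4)) := by
            rw [sum_const, nsmul_eq_mul]
        _ ≤ (Z : ℝ) ^ (2 / 3 + 4 * η) * (CB * (Z : ℝ) ^ (ε / 4) * Λ ^ (1 + ε / 4)) := by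
            apply mul_le_mul_of_nonneg_right h2 (by positivity)
        _ = CB * (((Z : ℝ) ^ (2 / 3 + 4 * η) * (Z : ℝ) ^ (ε / 4)) * Λ ^ (1 + ε / 4)) := by ring
        _ ≤ CB * W := by
            apply mul_le_mul_of_nonneg_left _ (by linarith)
            rw [hW, ← Real.rpow_add hZ0r]
            apply mul_le_mul
            · exact Real.rpow_le_rpow_of_exponent_le hZr (by linarith)
            · exact Real.rpow_le_rpow_of_exponent_le hΛ (by linarith)
            · positivity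
            · positivity
    have h4 : 0 ≤ CR * (Z1 : ℝ) ^ (1 + ε) * W := by positivity
    calc (S.card : ℝ) ≤ S1.card + (S2.card + ∑ m ∈ Ms, ((S.filter (PB m)).card : ℝ)) := hcard
      _ ≤ CS * W + (CA * W + CB * W) := by linarith
      _ ≤ (CR * (Z1 : ℝ) ^ (1 + ε) + CS + CA + CB) * W := by nlinarith

end Pool.Agent.Helper44.RO2
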