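import Mathlib
import Pool.Agent.Helper44.RO2.Defs

set_option autoImplicit false

open Finset
open Pool.Agent.Helper42.RO

namespace Pool.Agent.Helper44.RO2

private lemma Sharp_sum (n : ℕ) : ∑ d ∈ Finset.Icc 2 n, (1 : ℝ) / (d : ℝ) ^ 2 ≤ 3 / 4 := by
  rcases Nat.lt_or_ge n 2 with h | h
  · rw [Finset.Icc_eq_empty (by omega)]
    norm_num
  · have key : ∑ d ∈ Finset.Icc 2 n, (1 : ℝ) / (d : ℝ) ^ 2 ≤ 3 / 4 - 1 / (n : ℝ) := by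
      induction n, h using Nat.le_induction with
      | base => norm_num
      | succ n hn ih =>
        rw [Finset.sum_Icc_succ_top (by omega)]
        have hn' : (0 : ℝ) < n := by exact_mod_cast (by omega : 0 < n)
        have h1 : (1 : ℝ) / ((n + 1 : ℕ) : ℝ) ^ 2 ≤ 1 / (n : ℝ) - 1 / ((n + 1 : ℕ) : ℝ) := by
          push_cast
          rw [div_sub_div _ _ hn'.ne' (by positivity), div_le_div_iff₀ (by positivity) (by positivity)]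
          nlinarith
        linarith
    have : (0 : ℝ) ≤ 1 / (n : ℝ) := by positivity
    linarith

private lemma Sharp_card (Y : ℕ) :
    (Y : ℝ) ^ 2 / 4 ≤
      (((Finset.Ioc 0 Y ×ˢ Finset.Ioc 0 Y).filter fun t : ℕ × ℕ => t.1.Coprime t.2).card : ℝ) := by
  have hA : (Finset.Ioc 0 Y ×ˢ Finset.Ioc 0 Y).card = Y ^ 2 := by
    rw [Finset.card_product, Nat.card_Ioc]
    ring_nf
    simp [sq]
  have hsplit := Finset.card_filter_add_card_filter_not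
    (s := Finset.Ioc 0 Y ×ˢ Finset.Ioc 0 Y) (fun t : ℕ × ℕ => t.1.Coprime t.2)
  have hsub : ((Finset.Ioc 0 Y ×ˢ Finset.Ioc 0 Y).filter fun t : ℕ × ℕ => ¬ t.1.Coprime t.2) ⊆
      (Finset.Icc 2 Y).biUnion fun d =>
        ((Finset.Ioc 0 Y).filter fun x => d ∣ x) ×ˢ ((Finset.Ioc 0 Y).filter fun x => d ∣ x) := by
    intro t ht
    simp only [Finset.mem_filter, Finset.mem_product, Finset.mem_Ioc] at ht
    obtain ⟨⟨⟨h1, h2⟩, h3, h4⟩, h5⟩ := ht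
    simp only [Finset.mem_biUnion, Finset.mem_product, Finset.mem_filter, Finset.mem_Ioc,
      Finset.mem_Icc]
    refine ⟨Nat.gcd t.1 t.2, ⟨?_, ?_⟩, ⟨⟨h1, h2⟩, Nat.gcd_dvd_left _ _⟩,
      ⟨h3, h4⟩, Nat.gcd_dvd_right _ _⟩
    · have : 0 < Nat.gcd t.1 t.2 := Nat.gcd_pos_of_pos_left _ h1
      have h6 : Nat.gcd t.1 t.2 ≠ 1 := h5
      omega
    · exact (Nat.gcd_le_left _ h1).trans h2
  have hle : (((Finset.Ioc 0 Y ×ˢ Finset.Ioc 0 Y).filter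
      fun t : ℕ × ℕ => ¬ t.1.Coprime t.2).card : ℝ) ≤ 3 / 4 * (Y : ℝ) ^ 2 := by
    have h1 := (Finset.card_le_card hsub).trans Finset.card_biUnion_le
    have h2 : ∀ d ∈ Finset.Icc 2 Y,
        ((((Finset.Ioc 0 Y).filter fun x => d ∣ x) ×ˢ
          ((Finset.Ioc 0 Y).filter fun x => d ∣ x)).card : ℝ) ≤ (Y : ℝ) ^ 2 * (1 / (d : ℝ) ^ 2) := by
      intro d _
      rw [Finset.card_product, Nat.Ioc_filter_dvd_card_eq_div]
      push_cast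
      have h3 : ((Y / d : ℕ) : ℝ) ≤ (Y : ℝ) / d := Nat.cast_div_le
      have h4 : (0 : ℝ) ≤ ((Y / d : ℕ) : ℝ) := Nat.cast_nonneg _
      calc ((Y / d : ℕ) : ℝ) * ((Y / d : ℕ) : ℝ) ≤ (Y : ℝ) / d * ((Y : ℝ) / d) :=
            mul_le_mul h3 h3 h4 (h4.trans h3)
        _ = (Y : ℝ) ^ 2 * (1 / (d : ℝ) ^ 2) := by
            rw [div_mul_div_comm, ← sq, ← sq]
            ring
    calc (((Finset.Ioc 0 Y ×ˢ Finset.Ioc 0 Y).filter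
          fun t : ℕ × ℕ => ¬ t.1.Coprime t.2).card : ℝ)
        ≤ ((∑ d ∈ Finset.Icc 2 Y, (((Finset.Ioc 0 Y).filter fun x => d ∣ x) ×ˢ
          ((Finset.Ioc 0 Y).filter fun x => d ∣ x)).card : ℕ) : ℝ) := by exact_mod_cast h1
      _ = ∑ d ∈ Finset.Icc 2 Y, ((((Finset.Ioc 0 Y).filter fun x => d ∣ x) ×ˢ
          ((Finset.Ioc 0 Y).filter fun x => d ∣ x)).card : ℝ) := by push_cast; rfl
      _ ≤ ∑ d ∈ Finset.Icc 2 Y, (Y : ℝ) ^ 2 * (1 / (d : ℝ) ^ 2) := Finset.sum_le_sum h2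
      _ = (Y : ℝ) ^ 2 * ∑ d ∈ Finset.Icc 2 Y, (1 / (d : ℝ) ^ 2) := by rw [Finset.mul_sum]
      _ ≤ (Y : ℝ) ^ 2 * (3 / 4) := mul_le_mul_of_nonneg_left (Sharp_sum Y) (by positivity)
      _ = 3 / 4 * (Y : ℝ) ^ 2 := by ring
  have h6 : (((Finset.Ioc 0 Y ×ˢ Finset.Ioc 0 Y).filter
      fun t : ℕ × ℕ => t.1.Coprime t.2).card : ℝ) +
      (((Finset.Ioc 0 Y ×ˢ Finset.Ioc 0 Y).filter
        fun t : ℕ × ℕ => ¬ t.1.Coprime t.2).card : ℝ) = (Y : ℝ) ^ 2 := by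
    rw [← Nat.cast_add, hsplit, hA]
    push_cast
    ring
  linarith

/-- RO2-SH. The exponent `2 / 3` is optimal. The coprime pairs in `[1, Y] ^ 2` with
`Y = ⌊Z ^ (1 / 3) / 2⌋₊`. -/
theorem sharp : ∃ c0 : ℝ, 0 < c0 ∧ ∀ Z : ℕ, 8 ≤ Z → ∃ S : Finset (ℕ × ℕ),
    (∀ t ∈ S, Cop t ∧ rad (T t) ≤ Z ∧ (t.1 + t.2) ^ 3 ≤ Z) ∧
    c0 * (Z : ℝ) ^ (2 / 3 : ℝ) ≤ (S.card : ℝ) := by
  refine ⟨1 / 64, by norm_num, fun Z hZ => ?_⟩
  have hZ0 : (8 : ℝ) ≤ (Z : ℝ) := by exact_mod_cast hZ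
  have hZ1 : (0 : ℝ) ≤ (Z : ℝ) := by linarith
  set x : ℝ := (Z : ℝ) ^ (1 / 3 : ℝ) with hx
  have hx0 : 0 ≤ x := Real.rpow_nonneg hZ1 _
  have hx3 : x ^ 3 = Z := by
    rw [hx, ← Real.rpow_natCast, ← Real.rpow_mul hZ1]
    norm_num
  have hx2 : (Z : ℝ) ^ (2 / 3 : ℝ) = x ^ 2 := by
    rw [hx, ← Real.rpow_natCast, ← Real.rpow_mul hZ1]
    norm_num
  have h2x : 2 ≤ x := by
    by_contra hlt
    push Not at hlt
    have : x ^ 3 < 2 ^ 3 := pow_lt_pow_left₀ hlt hx0 (by norm_num)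
    rw [hx3] at this
    linarith
  set Y : ℕ := ⌊x / 2⌋₊ with hY
  have hY1 : (Y : ℝ) ≤ x / 2 := Nat.floor_le (by positivity)
  have hY2 : x / 2 < (Y : ℝ) + 1 := Nat.lt_floor_add_one _
  have hY3 : 1 ≤ Y := by
    rw [hY, Nat.one_le_floor_iff]
    linarith
  have hY4 : (1 : ℝ) ≤ Y := by exact_mod_cast hY3
  have hcube : (2 * Y) ^ 3 ≤ Z := by
    have h1 : (2 * (Y : ℝ)) ^ 3 ≤ x ^ 3 := pow_le_pow_left₀ (by positivity) (by linarith) 3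
    rw [hx3] at h1
    exact_mod_cast h1
  refine ⟨(Finset.Ioc 0 Y ×ˢ Finset.Ioc 0 Y).filter fun t : ℕ × ℕ => t.1.Coprime t.2, ?_, ?_⟩
  · intro t ht
    simp only [Finset.mem_filter, Finset.mem_product, Finset.mem_Ioc] at ht
    obtain ⟨⟨⟨h1, h2⟩, h3, h4⟩, h5⟩ := ht
    have hc : Cop t := ⟨h1, h3, h5⟩
    have hcub : (t.1 + t.2) ^ 3 ≤ Z :=
      (Nat.pow_le_pow_left (by omega : t.1 + t.2 ≤ 2 * Y) 3).trans hcube
    refine ⟨hc, (rad_le hc.T_ne).trans (le_trans ?_ hcub), hcub⟩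
    unfold T
    calc t.1 * t.2 * (t.1 + t.2) ≤ (t.1 + t.2) * (t.1 + t.2) * (t.1 + t.2) :=
          Nat.mul_le_mul (Nat.mul_le_mul (Nat.le_add_right _ _) (Nat.le_add_left _ _)) le_rfl
      _ = (t.1 + t.2) ^ 3 := by ring
  · refine le_trans ?_ (Sharp_card Y)
    rw [hx2]
    have : x ≤ 4 * (Y : ℝ) := by linarith
    nlinarith

end Pool.Agent.Helper44.RO2
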